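import Pool.Agent.Lib.SE.W.Spec
import Pool.Agent.Lib.HC.L.E.Cm

/-!
# PROJECT SE, part W: finite products of abelian varieties exist; products of abelian varieties of
CM type are of CM type (helper17)
-/

set_option autoImplicit false

open HC

noncomputable section

namespace SE

namespace Pex_aux

/-- the product lattice -/
abbrev LL {ι : Type} (T : ι → AV) : Submodule ℤ (∀ k, (T k).V) :=
  Submodule.pi Set.univ fun k => (T k).L

theorem mem_LL {ι : Type} (T : ι → AV) (v : ∀ k, (T k).V) : v ∈ LL T ↔ ∀ k, v k ∈ (T k).L :=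
  ⟨fun h k => h k (Set.mem_univ k), fun h k _ => h k⟩

theorem disc {ι : Type} [Fintype ι] (T : ι → AV) : DiscreteTopology (LL T) := by
  have e : Topology.IsEmbedding (fun x : LL T => fun k =>
      (⟨x.1 k, (mem_LL T x.1).1 x.2 k⟩ : (T k).L)) := by
    refine ⟨?_, ?_⟩
    · refine ⟨?_⟩
      have h1 : Topology.IsInducing (Pi.map fun k => (Subtype.val : (T k).L → (T k).V)) :=
        Topology.IsInducing.piMap fun k => Topology.IsInducing.subtypeVal
      have h2 : Topology.IsInducing ((Pi.map fun k => (Subtype.val : (T k).L → (T k).V)) ∘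
          (fun x : LL T => fun k => (⟨x.1 k, (mem_LL T x.1).1 x.2 k⟩ : (T k).L))) :=
        Topology.IsInducing.subtypeVal
      exact (h1.of_comp_iff.1 h2).eq_induced
    · intro x y hxy
      apply Subtype.ext
      funext k
      exact congrArg Subtype.val (congrFun hxy k)
  exact e.discreteTopology

theorem span {ι : Type} [Fintype ι] (T : ι → AV) :
    Submodule.span ℝ ((LL T : Submodule ℤ (∀ k, (T k).V)) : Set (∀ k, (T k).V)) = ⊤ := by
  classical
  rw [eq_top_iff]
  rintro v -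
  have h1 : ∀ (k : ι) (x : (T k).V), (Pi.single k x : ∀ k, (T k).V) ∈ Submodule.span ℝ
      ((LL T : Submodule ℤ (∀ k, (T k).V)) : Set (∀ k, (T k).V)) := by
    intro k x
    have hx : x ∈ Submodule.span ℝ ((T k).L : Set (T k).V) := by
      rw [(T k).latt.span_top]
      exact Submodule.mem_top
    induction hx using Submodule.span_induction with
    | mem x hx =>
      refine Submodule.subset_span ((mem_LL T _).2 fun j => ?_)
      by_cases hj : j = k
      · subst hj
        rw [Pi.single_eq_same]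
        exact hx
      · rw [Pi.single_eq_of_ne hj]
        exact (T j).L.zero_mem
    | zero =>
      rw [Pi.single_zero]
      exact Submodule.zero_mem _
    | add x y _ _ hx hy =>
      rw [Pi.single_add]
      exact Submodule.add_mem _ hx hy
    | smul r x _ hx =>
      rw [Pi.single_smul]
      exact Submodule.smul_mem _ _ hx
  rw [← Finset.univ_sum_single v]
  exact Submodule.sum_mem _ fun k _ => h1 k (v k)

/-- the sum of the Riemann forms -/
def RR {ι : Type} [Fintype ι] (T : ι → AV) (E : ∀ k, (T k).V →ₗ[ℝ] (T k).V →ₗ[ℝ] ℝ) :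
    (∀ k, (T k).V) →ₗ[ℝ] (∀ k, (T k).V) →ₗ[ℝ] ℝ :=
  ∑ k, (E k).compl₁₂ (LinearMap.proj k) (LinearMap.proj k)

theorem RR_apply {ι : Type} [Fintype ι] (T : ι → AV)
    (E : ∀ k, (T k).V →ₗ[ℝ] (T k).V →ₗ[ℝ] ℝ) (u v : ∀ k, (T k).V) :
    RR T E u v = ∑ k, E k (u k) (v k) := by
  rw [RR, LinearMap.sum_apply, LinearMap.sum_apply]
  rfl

theorem prd {ι : Type} [Fintype ι] (T : ι → AV) : Nonempty (Prd T) := by
  classical
  have hd : DiscreteTopology (LL T) := disc T
  have hl : IsZLattice ℝ (LL T) := ⟨span T⟩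
  choose E hE1 hE2 hE3 hE4 using fun k => (T k).pol
  refine ⟨{ Y := { V := ∀ k, (T k).V, L := LL T, pol := ⟨RR T E, ?_, ?_, ?_, ?_⟩ },
            ψ := LinearEquiv.refl ℂ (∀ k, (T k).V), lat := fun v => mem_LL T v }⟩
  · intro u hu v hv
    rw [mem_LL] at hu hv
    choose n hn using fun k => hE1 k (u k) (hu k) (v k) (hv k)
    refine ⟨∑ k, n k, ?_⟩
    rw [RR_apply, Int.cast_sum]
    exact Finset.sum_congr rfl fun k _ => hn k
  · intro u v
    rw [RR_apply, RR_apply, ← Finset.sum_neg_distrib]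
    exact Finset.sum_congr rfl fun k _ => hE2 k (u k) (v k)
  · intro u v
    rw [RR_apply, RR_apply]
    exact Finset.sum_congr rfl fun k _ => hE3 k (u k) (v k)
  · intro v hv
    rw [RR_apply]
    have hnn : ∀ k ∈ Finset.univ, 0 ≤ E k ((Complex.I • v) k) (v k) := by
      intro k _
      by_cases hk : v k = 0
      · rw [hk, map_zero]
      · exact (hE4 k (v k) hk).le
    obtain ⟨k, hk⟩ : ∃ k, v k ≠ 0 := by
      by_contra hcon
      push Not at hcon
      exact hv (funext hcon)
    exact Finset.sum_pos' hnn ⟨k, Finset.mem_univ k, hE4 k (v k) hk⟩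

theorem cm {ι : Type} [Fintype ι] (T : ι → AV) (P : Prd T) (h : ∀ i, IsCM (T i)) :
    IsCM P.Y := by
  classical
  choose n D ψ hψ using fun i => isCMI_of_isCM (h i)
  let e3 : (∀ k, ((s : (j : Fin (n k)) × (D k j).Φ) → ℂ)) ≃ₗ[ℂ]
      ((s : (i : (k : ι) × Fin (n k)) × (D i.1 i.2).Φ) → ℂ) :=
    { toFun := fun f s => f s.1.1 ⟨s.1.2, s.2⟩
      invFun := fun g k s => g ⟨⟨k, s.1⟩, s.2⟩
      map_add' := fun _ _ => rfl
      map_smul' := fun _ _ => rfl
      left_inv := fun _ => rfl
      right_inv := fun _ => rfl }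
  refine isCM_of_isCMI (I := (k : ι) × Fin (n k)) ⟨fun i => D i.1 i.2,
    P.ψ ≪≫ₗ LinearEquiv.piCongrRight ψ ≪≫ₗ e3, ?_⟩
  intro v hv
  have hv' := (P.lat v).1 hv
  choose y hy using fun k => hψ k (P.ψ v k) (hv' k)
  exact ⟨fun i => y i.1 i.2, fun i φ => hy i.1 i.2 φ⟩

end Pex_aux

/-- **Pex** -/
theorem tPex : S_Pex :=
  ⟨fun _ _ T => Pex_aux.prd T, fun _ _ T P h => Pex_aux.cm T P h⟩

end SE
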