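import Pool.Agent.Lib.SE.W.Spec
import Pool.Agent.Lib.HC.L.Lc3
import Pool.Agent.Lib.HC.L.L0

/-!
# PROJECT SE, part S7: the Lie algebra step (helper99)
-/

set_option autoImplicit false

noncomputable section

namespace SE

open HC

namespace Lie_aux

open HC.Lc3 (kill mem_kill lieAct_add lieAct_smul rat_bracket)

/-! ### The product -/

theorem prodE : ∀ (N : ℕ) (A : AV) (B : Fin N → AV),
    ∃ (P : AV) (θ : P.V ≃ₗ[ℂ] A.V × (∀ n, (B n).V)),
      ∀ v, v ∈ P.L ↔ (θ v).1 ∈ A.L ∧ ∀ n, (θ v).2 n ∈ (B n).L := by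
  intro N
  induction N with
  | zero =>
    intro A B
    refine ⟨A, LinearEquiv.prodUnique.symm, fun v => ⟨fun hv => ⟨hv, fun n => n.elim0⟩, fun hv => hv.1⟩⟩
  | succ N ih =>
    intro A B
    obtain ⟨P0⟩ := pL0 A (B 0)
    obtain ⟨P, θ, hθ⟩ := ih P0.T (fun i => B i.succ)
    let c : ((B 0).V × (∀ i : Fin N, (B i.succ).V)) ≃ₗ[ℂ] (∀ i : Fin (N + 1), (B i).V) :=
      Fin.consLinearEquiv ℂ fun i => (B i).V
    refine ⟨P, θ ≪≫ₗ (LinearEquiv.prodCongr P0.ψ (LinearEquiv.refl ℂ _)) ≪≫ₗ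
      (LinearEquiv.prodAssoc ℂ _ _ _) ≪≫ₗ (LinearEquiv.prodCongr (LinearEquiv.refl ℂ _) c),
      fun v => ?_⟩
    rw [hθ, P0.lat]
    constructor
    · rintro ⟨⟨h1, h2⟩, h3⟩
      refine ⟨h1, fun n => ?_⟩
      refine Fin.cases ?_ (fun i => ?_) n
      · exact h2
      · exact h3 i
    · rintro ⟨h1, h2⟩
      exact ⟨⟨h1, h2 0⟩, fun i => h2 i.succ⟩

/-! ### Rational endomorphisms -/

section rat

variable {B : AV}

lemma rat_zero : RatEnd B 0 := fun v _ => ⟨1, one_ne_zero, by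
  rw [LinearMap.zero_apply, smul_zero]
  exact B.L.zero_mem⟩

lemma rat_add {X Y : Module.End ℝ B.V} (hX : RatEnd B X) (hY : RatEnd B Y) :
    RatEnd B (X + Y) := by
  intro v hv
  obtain ⟨N, hN, h1⟩ := hX v hv
  obtain ⟨M, hM, h2⟩ := hY v hv
  refine ⟨N * M, mul_ne_zero hN hM, ?_⟩
  rw [LinearMap.add_apply, smul_add]
  refine add_mem ?_ ?_
  · rw [mul_comm, mul_smul]
    exact B.L.smul_of_tower_mem M h1
  · rw [mul_smul]
    exact B.L.smul_of_tower_mem N h2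

lemma rat_neg {X : Module.End ℝ B.V} (hX : RatEnd B X) : RatEnd B (-X) := by
  intro v hv
  obtain ⟨N, hN, h1⟩ := hX v hv
  refine ⟨N, hN, ?_⟩
  rw [LinearMap.neg_apply, smul_neg]
  exact neg_mem h1

lemma rat_qsmul {X : Module.End ℝ B.V} (hX : RatEnd B X) (q : ℚ) : RatEnd B ((q : ℝ) • X) := by
  intro v hv
  obtain ⟨N, hN, h1⟩ := hX v hv
  refine ⟨q.den * N, mul_ne_zero q.den_nz hN, ?_⟩
  have h2 : (q.den * N) • ((q : ℝ) • X) v = q.num • (N • X v) := by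
    rw [LinearMap.smul_apply, ← Nat.cast_smul_eq_nsmul ℝ, smul_smul,
      ← Int.cast_smul_eq_zsmul ℝ, ← Nat.cast_smul_eq_nsmul ℝ N, smul_smul]
    congr 1
    have h3 : (q.num : ℝ) = (q : ℝ) * q.den := by
      exact_mod_cast (Rat.mul_den_eq_num q).symm
    rw [h3]
    push_cast
    ring
  rw [h2]
  exact B.L.smul_mem _ h1

end rat

/-! ### The endomorphisms `(X, P)` -/

section prod

variable {A T : AV} {q N : ℕ} {J : Fin q → AV} {j : Fin N → Fin q}
  (ψ : T.V ≃ₗ[ℂ] A.V × (∀ n, (J (j n)).V))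

/-- The endomorphism `(X, P)`. -/
def EE (X : Module.End ℝ A.V) (P : ∀ i, Module.End ℝ (J i).V) : Module.End ℝ T.V where
  toFun v := ψ.symm (X (ψ v).1, fun n => P (j n) ((ψ v).2 n))
  map_add' v w := by
    rw [← map_add, map_add ψ]
    congr 1
    refine Prod.ext ?_ ?_
    · exact map_add X _ _
    · exact funext fun n => map_add (P (j n)) _ _
  map_smul' r v := by
    have h1 : ψ (r • v) = (r : ℂ) • ψ v := by
      rw [← map_smul]
      congr 1
    have h3 : (X ((r : ℂ) • ψ v).1, fun n => P (j n) (((r : ℂ) • ψ v).2 n)) =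
        (r : ℂ) • (X (ψ v).1, fun n => P (j n) ((ψ v).2 n)) := by
      refine Prod.ext ?_ (funext fun n => ?_)
      · show X ((r : ℂ) • (ψ v).1) = (r : ℂ) • X (ψ v).1
        rw [Complex.coe_smul, Complex.coe_smul, map_smul]
      · show P (j n) ((r : ℂ) • (ψ v).2 n) = (r : ℂ) • P (j n) ((ψ v).2 n)
        rw [Complex.coe_smul, Complex.coe_smul, map_smul]
    show ψ.symm (X (ψ (r • v)).1, fun n => P (j n) ((ψ (r • v)).2 n)) =
      r • ψ.symm (X (ψ v).1, fun n => P (j n) ((ψ v).2 n))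
    rw [h1, h3, map_smul ψ.symm]
    exact Complex.coe_smul r _

lemma psi_EE (X : Module.End ℝ A.V) (P : ∀ i, Module.End ℝ (J i).V) (v : T.V) :
    ψ (EE ψ X P v) = (X (ψ v).1, fun n => P (j n) ((ψ v).2 n)) := ψ.apply_symm_apply _

lemma ext_psi {Z Z' : Module.End ℝ T.V} (h : ∀ v, ψ (Z v) = ψ (Z' v)) :
    Z = Z' := LinearMap.ext fun v => ψ.injective (h v)

lemma EE_add (X X' : Module.End ℝ A.V) (P P' : ∀ i, Module.End ℝ (J i).V) :
    EE ψ (X + X') (P + P') = EE ψ X P + EE ψ X' P' :=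
  ext_psi ψ fun v => by
    rw [psi_EE, LinearMap.add_apply (EE ψ X P), map_add, psi_EE, psi_EE]
    rfl

lemma EE_smul (r : ℝ) (X : Module.End ℝ A.V) (P : ∀ i, Module.End ℝ (J i).V) :
    EE ψ (r • X) (r • P) = r • EE ψ X P :=
  ext_psi ψ fun v => by
    have h1 : ψ ((r • EE ψ X P) v) = (r : ℂ) • ψ (EE ψ X P v) := by
      rw [← map_smul]
      congr 1
    rw [h1, psi_EE, psi_EE]
    refine Prod.ext ?_ (funext fun n => ?_)
    · exact (Complex.coe_smul r (X (ψ v).1)).symm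
    · exact (Complex.coe_smul r (P (j n) ((ψ v).2 n))).symm

lemma EE_mul (X X' : Module.End ℝ A.V) (P P' : ∀ i, Module.End ℝ (J i).V) :
    EE ψ (X * X') (P * P') = EE ψ X P * EE ψ X' P' :=
  ext_psi ψ fun v => by
    rw [psi_EE, Module.End.mul_apply (EE ψ X P), psi_EE, psi_EE]
    rfl

/-- `(X, P)` depends linearly on `(X, P)`. -/
def EL : (Module.End ℝ A.V × (∀ i, Module.End ℝ (J i).V)) →ₗ[ℝ] Module.End ℝ T.V where
  toFun p := EE ψ p.1 p.2
  map_add' p p' := EE_add ψ p.1 p'.1 p.2 p'.2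
  map_smul' r p := EE_smul ψ r p.1 p.2

lemma EL_apply (X : Module.End ℝ A.V) (P : ∀ i, Module.End ℝ (J i).V) :
    EL ψ (X, P) = EE ψ X P := rfl

lemma EE_mulI : EE ψ (mulI A) (fun i => mulI (J i)) = mulI T :=
  ext_psi ψ fun v => by
    rw [psi_EE]
    exact (map_smul ψ Complex.I v).symm

lemma EE_inj {X X' : Module.End ℝ A.V} {P P' : ∀ i, Module.End ℝ (J i).V}
    (h : EE ψ X P = EE ψ X' P') (n : Fin N) : P (j n) = P' (j n) := by
  refine LinearMap.ext fun u => ?_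
  have h2 := congrArg (fun Z : Module.End ℝ T.V => (ψ (Z (ψ.symm (0, Pi.single n u)))).2 n) h
  simpa only [psi_EE, LinearEquiv.apply_symm_apply, Pi.single_eq_same] using h2

/-- Tuples with components outside the range of `j` only give `0`. -/
lemma EE_single {i : Fin q} (hi : ∀ n, j n ≠ i) (P : Module.End ℝ (J i).V) :
    EE ψ 0 (Pi.single i P) = 0 :=
  ext_psi ψ fun v => by
    rw [psi_EE, LinearMap.zero_apply, LinearMap.zero_apply, map_zero]
    refine Prod.ext rfl (funext fun n => ?_)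
    show (Pi.single i P : ∀ i, Module.End ℝ (J i).V) (j n) ((ψ v).2 n) = 0
    rw [Pi.single_eq_of_ne (hi n), LinearMap.zero_apply]

lemma rat_EE
    (hψ : ∀ v ∈ T.L, ∃ k : ℕ, k ≠ 0 ∧ k • (ψ v).1 ∈ A.L ∧ ∀ n, k • (ψ v).2 n ∈ (J (j n)).L)
    (hi : ∀ w : A.V × (∀ n, (J (j n)).V), w.1 ∈ A.L → (∀ n, w.2 n ∈ (J (j n)).L) →
      ∃ k : ℕ, k ≠ 0 ∧ k • ψ.symm w ∈ T.L)
    {X : Module.End ℝ A.V} {P : ∀ i, Module.End ℝ (J i).V} (hX : RatEnd A X)
    (hP : ∀ i, RatEnd (J i) (P i)) : RatEnd T (EE ψ X P) := by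
  intro v hv
  obtain ⟨k, hk, h1, h2⟩ := hψ v hv
  obtain ⟨a, ha, h3⟩ := hX _ h1
  choose b hb h4 using fun n => hP (j n) _ (h2 n)
  let M : ℕ := a * ∏ n, b n
  have hM : M ≠ 0 := mul_ne_zero ha (Finset.prod_ne_zero_iff.2 fun n _ => hb n)
  obtain ⟨c, hc, h5⟩ := hi ((M * k) • (X (ψ v).1, fun n => P (j n) ((ψ v).2 n))) (by
    show (M * k) • X (ψ v).1 ∈ A.L
    rw [mul_smul, ← map_nsmul]
    show (a * ∏ n, b n) • X (k • (ψ v).1) ∈ A.L
    rw [mul_comm, mul_smul]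
    exact A.L.smul_of_tower_mem _ h3) (fun n => by
    show (M * k) • P (j n) ((ψ v).2 n) ∈ (J (j n)).L
    rw [mul_smul, ← map_nsmul]
    obtain ⟨d, hd⟩ : b n ∣ M := (Finset.dvd_prod_of_mem b (Finset.mem_univ n)).mul_left a
    rw [hd, mul_comm, mul_smul]
    exact (J (j n)).L.smul_of_tower_mem _ (h4 n))
  refine ⟨c * (M * k), mul_ne_zero hc (mul_ne_zero hM hk), ?_⟩
  rw [map_nsmul] at h5
  rw [mul_smul]
  exact h5

end prod

end Lie_aux

open Lie_aux in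
theorem tLie : S_Lie := by
  intro hLa hLa' hLb hLc1 hLc2 hIso A T q N J j Z R ψ hA hBig hψ d c hc P Q hP hQ W hW
  -- the inverse isogeny
  have hi : ∀ w : A.V × (∀ n, (J (j n)).V), w.1 ∈ A.L → (∀ n, w.2 n ∈ (J (j n)).L) →
      ∃ k : ℕ, k ≠ 0 ∧ k • ψ.symm w ∈ T.L := by
    obtain ⟨Y, θ, hθ⟩ := prodE N A (fun n => J (j n))
    have h1 := hIso T Y (ψ ≪≫ₗ θ.symm) (fun v hv => by
      obtain ⟨k, hk, h2, h3⟩ := hψ v hv
      refine ⟨k, hk, ?_⟩
      rw [hθ]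
      show (θ (k • θ.symm (ψ v))).1 ∈ A.L ∧ ∀ n, (θ (k • θ.symm (ψ v))).2 n ∈ (J (j n)).L
      rw [map_nsmul, LinearEquiv.apply_symm_apply]
      exact ⟨h2, h3⟩)
    intro w h2 h3
    obtain ⟨k, hk, h4⟩ := h1 (θ.symm w) (by
      rw [hθ, LinearEquiv.apply_symm_apply]
      exact ⟨h2, h3⟩)
    refine ⟨k, hk, ?_⟩
    have h5 : (ψ ≪≫ₗ θ.symm).symm (θ.symm w) = ψ.symm w := by
      show ψ.symm (θ (θ.symm w)) = ψ.symm w
      rw [LinearEquiv.apply_symm_apply]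
    rw [h5] at h4
    exact h4
  -- the commuting rational endomorphisms of `A`
  obtain ⟨MA, hMr, hMc, hMs⟩ := hLc2 A hA
  let C : Subalgebra ℝ (Module.End ℝ A.V) := Subalgebra.centralizer ℝ (Set.centralizer MA)
  have hMC : ∀ X ∈ MA, X ∈ C := fun X hX =>
    Subalgebra.mem_centralizer_iff ℝ |>.2 fun g hg => (hg X hX).symm
  have hCc : ∀ X ∈ C, ∀ X' ∈ C, X * X' = X' * X := by
    intro X hX X' hX'
    have h3 : X ∈ Set.centralizer MA := by
      intro g hg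
      exact (Subalgebra.mem_centralizer_iff ℝ).1 hX g fun k hk => hMc k hk g hg
    exact (Subalgebra.mem_centralizer_iff ℝ).1 hX' X h3
  -- the rational endomorphisms
  let M : Set (Module.End ℝ T.V) := {Z | (∃ X ∈ MA, Z = EE ψ X 0) ∨
    ∃ P : ∀ i, Module.End ℝ (J i).V, (∀ i, RatEnd (J i) (P i)) ∧ Z = EE ψ 0 P}
  have hMr' : ∀ Z ∈ M, RatEnd T Z := by
    rintro Z (⟨X, hX, rfl⟩ | ⟨P, hP, rfl⟩)
    · exact rat_EE ψ hψ hi (hMr X hX) fun i => rat_zero
    · exact rat_EE ψ hψ hi rat_zero hP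
  have hsp : ∀ i, ∀ K : Submodule ℝ (∀ i, Module.End ℝ (J i).V),
      (∀ X : Module.End ℝ (J i).V, RatEnd (J i) X → Pi.single i X ∈ K) →
      ∀ X ∈ Submodule.span ℝ {X | RatEnd (J i) X}, Pi.single i X ∈ K := by
    intro i K hK X hX
    have h1 : Submodule.span ℝ {X | RatEnd (J i) X} ≤
        K.comap (LinearMap.single ℝ (fun i => Module.End ℝ (J i).V) i) :=
      Submodule.span_le.2 fun X hX => hK X hX
    exact h1 hX
  have hJ : mulI T ∈ Submodule.span ℝ M := by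
    have e1 : mulI T = EE ψ (mulI A) 0 + EE ψ 0 (fun i => mulI (J i)) := by
      rw [← EE_add, add_zero, zero_add, EE_mulI]
    have e2 : Submodule.span ℝ MA ≤
        (Submodule.span ℝ M).comap (EL ψ ∘ₗ LinearMap.inl ℝ _ _) := by
      refine Submodule.span_le.2 fun X hX => ?_
      exact Submodule.subset_span (Or.inl ⟨X, hX, rfl⟩)
    have e3 : ∀ i, Pi.single i (mulI (J i)) ∈
        (Submodule.span ℝ M).comap (EL ψ ∘ₗ LinearMap.inr ℝ (Module.End ℝ A.V) _) := by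
      intro i
      refine hsp i _ (fun X hX => ?_) _ (hLc1 (J i))
      refine Submodule.subset_span (Or.inr ⟨Pi.single i X, fun i' => ?_, rfl⟩)
      by_cases h : i' = i
      · subst h
        rw [Pi.single_eq_same]
        exact hX
      · rw [Pi.single_eq_of_ne h]
        exact rat_zero
    have e4 : (fun i => mulI (J i)) ∈
        (Submodule.span ℝ M).comap (EL ψ ∘ₗ LinearMap.inr ℝ (Module.End ℝ A.V) _) := by
      rw [← Finset.univ_sum_single (fun i => mulI (J i))]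
      exact Submodule.sum_mem _ fun i _ => e3 i
    rw [e1]
    exact Submodule.add_mem _ (e2 hMs) e4
  obtain ⟨n, ρ, Z, hZJ, hZr, hZM, hZc⟩ := hLb T (mulI T) M hMr' hJ
  have hZk : ∀ s, Z s ∈ HC.Lc3.kill c := fun s => hZc d c hc.1 (hLa T d c hc) s
  -- the components
  have hZE : ∀ s, ∃ X ∈ C, ∃ P : ∀ i, Module.End ℝ (J i).V, (∀ i, RatEnd (J i) (P i)) ∧
      Z s = EE ψ X P := by
    intro s
    refine AddSubgroup.closure_induction (p := fun Z _ => ∃ X ∈ C,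
      ∃ P : ∀ i, Module.End ℝ (J i).V, (∀ i, RatEnd (J i) (P i)) ∧ Z = EE ψ X P)
      ?_ ?_ ?_ ?_ (hZM s)
    · rintro _ ⟨W, (⟨X, hX, rfl⟩ | ⟨P, hP, rfl⟩), q, rfl⟩
      · refine ⟨(q : ℝ) • X, C.smul_mem (hMC X hX) _, (q : ℝ) • 0,
          fun i => rat_qsmul rat_zero q, ?_⟩
        rw [EE_smul]
      · refine ⟨(q : ℝ) • 0, C.smul_mem C.zero_mem _, (q : ℝ) • P,
          fun i => rat_qsmul (hP i) q, ?_⟩
        rw [EE_smul]
    · exact ⟨0, C.zero_mem, 0, fun i => rat_zero, (map_zero (EL ψ)).symm⟩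
    · rintro _ _ _ _ ⟨X, hX, P, hP, rfl⟩ ⟨X', hX', P', hP', rfl⟩
      exact ⟨X + X', C.add_mem hX hX', P + P', fun i => rat_add (hP i) (hP' i),
        (EE_add ψ X X' P P').symm⟩
    · rintro _ _ ⟨X, hX, P, hP, rfl⟩
      exact ⟨-X, C.neg_mem hX, -P, fun i => rat_neg (hP i), (map_neg (EL ψ) (X, P)).symm⟩
  choose X hXC Y hYr hXY using hZE
  -- the Lie algebra
  let h : Set (∀ i, Module.End ℝ (J i).V) :=
    {P | (∀ i, RatEnd (J i) (P i)) ∧ ∃ X ∈ C, EE ψ X P ∈ HC.Lc3.kill c}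
  have hbr : ∀ {X X' : Module.End ℝ A.V} {P P' : ∀ i, Module.End ℝ (J i).V}, X ∈ C → X' ∈ C →
      EE ψ X P ∈ HC.Lc3.kill c → EE ψ X' P' ∈ HC.Lc3.kill c →
      EE ψ 0 (P * P' - P' * P) ∈ HC.Lc3.kill c := by
    intro X X' P P' hX hX' h3 h4
    have h5 := hLa' T d c _ _ h3 h4
    have h6 : EE ψ X P * EE ψ X' P' - EE ψ X' P' * EE ψ X P = EE ψ 0 (P * P' - P' * P) := by
      rw [← EE_mul, ← EE_mul, ← EL_apply, ← EL_apply, ← map_sub]
      show EE ψ (X * X' - X' * X) (P * P' - P' * P) = _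
      rw [hCc X hX X' hX', sub_self]
    rw [h6] at h5
    exact h5
  have hh1 : ∀ P ∈ h, ∀ i, RatEnd (J i) (P i) := fun P hP => hP.1
  have hh2 : ∀ P ∈ h, ∀ P' ∈ h, P * P' - P' * P ∈ h := by
    rintro P ⟨hP, X, hX, h3⟩ P' ⟨hP', X', hX', h4⟩
    exact ⟨fun i => HC.Lc3.rat_bracket (hP i) (hP' i), 0, C.zero_mem, hbr hX hX' h3 h4⟩
  have hYs : ∀ s, Y s ∈ h := by
    intro s
    refine ⟨hYr s, X s, hXC s, ?_⟩
    rw [← hXY s]
    exact hZk s
  have hJB : ∀ k, mulI (J (j k)) = (∑ s, ρ s • Y s) (j k) := by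
    have h3 : EE ψ (mulI A) (fun i => mulI (J i)) =
        EE ψ (∑ s, ρ s • X s) (∑ s, ρ s • Y s) := by
      rw [EE_mulI, hZJ]
      have h4 : (∑ s, ρ s • X s, ∑ s, ρ s • Y s) = ∑ s, ρ s • (X s, Y s) := by
        refine Prod.ext ?_ ?_
        · rw [Prod.fst_sum]
          rfl
        · rw [Prod.snd_sum]
          rfl
      rw [← EL_apply, h4, map_sum]
      refine Finset.sum_congr rfl fun s _ => ?_
      rw [map_smul, EL_apply, hXY s]
    exact fun k => EE_inj ψ h3 k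
  have hh3 : (fun i => mulI (J i)) ∈ Submodule.span ℝ h := by
    have h0 : (∑ s, ρ s • Y s) ∈ Submodule.span ℝ h :=
      Submodule.sum_mem _ fun s _ => Submodule.smul_mem _ _ (Submodule.subset_span (hYs s))
    have h1 : (fun i => mulI (J i)) - (∑ s, ρ s • Y s) ∈ Submodule.span ℝ h := by
      rw [← Finset.univ_sum_single ((fun i => mulI (J i)) - (∑ s, ρ s • Y s))]
      refine Submodule.sum_mem _ fun i _ => ?_
      by_cases hij : ∃ k, j k = i
      · obtain ⟨k, rfl⟩ := hij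
        have h2 : ((fun i => mulI (J i)) - (∑ s, ρ s • Y s)) (j k) = 0 := by
          show mulI (J (j k)) - (∑ s, ρ s • Y s) (j k) = 0
          rw [hJB k, sub_self]
        rw [h2, Pi.single_zero]
        exact Submodule.zero_mem _
      · have hij' : ∀ k, j k ≠ i := fun k hk => hij ⟨k, hk⟩
        refine hsp i _ (fun X hX => ?_) _ ?_
        · refine Submodule.subset_span ⟨fun i' => ?_, 0, C.zero_mem, ?_⟩
          · by_cases h : i' = i
            · subst h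
              rw [Pi.single_eq_same]
              exact hX
            · rw [Pi.single_eq_of_ne h]
              exact rat_zero
          · rw [EE_single ψ hij']
            exact Submodule.zero_mem _
        · show mulI (J i) - (∑ s, ρ s • Y s) i ∈ _
          refine Submodule.sub_mem _ (hLc1 (J i)) ?_
          rw [Finset.sum_apply]
          exact Submodule.sum_mem _ fun s _ => Submodule.smul_mem _ _
            (Submodule.subset_span (hYr s i))
    have h2 := Submodule.add_mem _ h1 h0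
    rw [sub_add_cancel] at h2
    exact h2
  have h5 := hBig h hh1 hh2 hh3 P Q hP hQ
  have h6 : Submodule.span ℝ {W | ∃ X ∈ h, ∃ Y ∈ h, W = X * Y - Y * X} ≤
      (HC.Lc3.kill c).comap (EL ψ ∘ₗ LinearMap.inr ℝ (Module.End ℝ A.V) _) := by
    refine Submodule.span_le.2 ?_
    rintro _ ⟨P, ⟨-, X, hX, h3⟩, P', ⟨-, X', hX', h4⟩, rfl⟩
    exact hbr hX hX' h3 h4
  have h7 : EE ψ 0 (P * Q - Q * P) ∈ HC.Lc3.kill c := h6 h5
  have h8 : W = EE ψ 0 (P * Q - Q * P) := ext_psi ψ fun v => by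
    rw [hW v, psi_EE]
    rfl
  rw [h8]
  exact h7

end SE
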