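import Pool.Agent.Lib.SE.W.Spec
import Pool.Agent.Lib.HC.L.E.Top
import Pool.Agent.Lib.HC.B.Cap
import Pool.Agent.Lib.HC.W.Tot

/-!
# PROJECT SE, part W: the class dual to the Riemann form is algebraic (helper92)

`M = H^1(T, ℂ)`, creation operators `c_k` (exterior product with the evaluation at the real basis
vector `v_k`), annihilation operators `a_k` (evaluation at the dual basis form `e_k`).
`Λ = 1/2 ∑ R_ik a_i a_k`, `L = 1/2 ∑ f_ik c_i c_k`: `Λ L = L Λ + g - N`, so
`Λ L^(k+1) 1 = (k + 1) (g - k) L^k 1`, and `Λ` is the intersection with a divisor. The class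
`L^g 1` has degree `2 g`, it is algebraic.
-/

set_option autoImplicit false

open scoped ComplexConjugate
open HC

noncomputable section

namespace SE

namespace Inv_aux

/-! ### The algebra -/

section alg

variable {A : Type} [Ring A] [Algebra ℂ A] {n : ℕ} (a c : Fin n → A) (R f : Fin n → Fin n → ℂ)

/-- `Λ`. -/
def Lam : A := ∑ i, ∑ k, (R i k / 2) • (a i * a k)

/-- The number operator. -/
def Nop : A := ∑ i, c i * a i

/-- `A_l`. -/
def Al (l : Fin n) : A := ∑ k, R l k • a k

variable (hac : ∀ i j, a i * c j = (if i = j then (1 : A) else 0) - c j * a i)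

include hac

theorem Lam_c (hR : ∀ i k, R i k = -R k i) (l : Fin n) :
    Lam a R * c l = c l * Lam a R - Al a R l := by
  have h1 : ∀ i k, a i * a k * c l = c l * (a i * a k) +
      ((if k = l then a i else 0) - (if i = l then a k else 0)) := by
    intro i k
    rw [mul_assoc, hac k l, mul_sub, ← mul_assoc, hac i l, sub_mul, mul_assoc]
    split_ifs <;> simp <;> abel
  unfold Lam Al
  rw [Finset.sum_mul, Finset.mul_sum]
  have h2 : ∀ i, (∑ k, (R i k / 2) • (a i * a k)) * c l =
      c l * (∑ k, (R i k / 2) • (a i * a k)) +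
        ((R i l / 2) • a i - if i = l then ∑ k, (R i k / 2) • a k else 0) := by
    intro i
    rw [Finset.sum_mul, Finset.mul_sum]
    have h3 : (R i l / 2) • a i = ∑ k, (R i k / 2) • (if k = l then a i else 0) := by
      rw [Finset.sum_eq_single l]
      · rw [if_pos rfl]
      · intro k _ hk
        rw [if_neg hk, smul_zero]
      · intro h
        exact absurd (Finset.mem_univ l) h
    have h4 : (if i = l then ∑ k, (R i k / 2) • a k else 0) =
        ∑ k, (R i k / 2) • (if i = l then a k else 0) := by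
      split_ifs
      · rfl
      · simp
    rw [h3, h4, ← Finset.sum_sub_distrib, ← Finset.sum_add_distrib]
    refine Finset.sum_congr rfl fun k _ => ?_
    rw [smul_mul_assoc, h1, mul_smul_comm, smul_add, smul_sub]
  rw [Finset.sum_congr rfl fun i _ => h2 i, Finset.sum_add_distrib, Finset.sum_sub_distrib]
  have h5 : (∑ i, if i = l then ∑ k, (R i k / 2) • a k else 0) = ∑ k, (R l k / 2) • a k := by
    rw [Finset.sum_ite_eq' Finset.univ l, if_pos (Finset.mem_univ l)]
  rw [h5, sub_eq_add_neg (∑ i, c l * _)]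
  congr 1
  rw [← Finset.sum_sub_distrib, ← Finset.sum_neg_distrib]
  refine Finset.sum_congr rfl fun k _ => ?_
  rw [hR k l, ← sub_smul, ← neg_smul]
  congr 1
  ring

theorem Al_c (i k : Fin n) : Al a R i * c k = algebraMap ℂ A (R i k) - c k * Al a R i := by
  unfold Al
  rw [Finset.sum_mul, Finset.mul_sum]
  have h3 : algebraMap ℂ A (R i k) = ∑ l, R i l • (if l = k then (1 : A) else 0) := by
    rw [Finset.sum_eq_single k]
    · rw [if_pos rfl, Algebra.algebraMap_eq_smul_one]
    · intro l _ hl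
      rw [if_neg hl, smul_zero]
    · intro h
      exact absurd (Finset.mem_univ k) h
  rw [h3, ← Finset.sum_sub_distrib]
  refine Finset.sum_congr rfl fun l _ => ?_
  rw [smul_mul_assoc, hac, smul_sub, mul_smul_comm]

theorem Lam_L (hR : ∀ i k, R i k = -R k i) (hf : ∀ i k, f i k = -f k i)
    (hfR : ∀ i l, ∑ k, f i k * R k l = if i = l then 1 else 0) :
    Lam a R * Lam c f = Lam c f * Lam a R + algebraMap ℂ A (n / 2) - Nop a c := by
  have h1 : ∀ i k, Lam a R * (c i * c k) = c i * c k * Lam a R -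
      (c i * Al a R k + algebraMap ℂ A (R i k) - c k * Al a R i) := by
    intro i k
    have e1 := Lam_c a c R hac hR i
    have e2 := Lam_c a c R hac hR k
    have e3 := Al_c a c R hac i k
    calc Lam a R * (c i * c k) = Lam a R * c i * c k := (mul_assoc _ _ _).symm
      _ = c i * (Lam a R * c k) - Al a R i * c k := by rw [e1, sub_mul, mul_assoc]
      _ = _ := by rw [e2, e3, mul_sub, mul_assoc]; abel
  have h2 : Lam a R * Lam c f = Lam c f * Lam a R -
      ((∑ i, ∑ k, (f i k / 2) • (c i * Al a R k)) +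
        (∑ i, ∑ k, (f i k / 2) • algebraMap ℂ A (R i k)) -
        ∑ i, ∑ k, (f i k / 2) • (c k * Al a R i)) := by
    have e0 : Lam c f = ∑ i, ∑ k, (f i k / 2) • (c i * c k) := rfl
    rw [e0, Finset.mul_sum, Finset.sum_mul, ← Finset.sum_add_distrib, ← Finset.sum_sub_distrib,
      ← Finset.sum_sub_distrib]
    refine Finset.sum_congr rfl fun i _ => ?_
    rw [Finset.mul_sum, Finset.sum_mul, ← Finset.sum_add_distrib, ← Finset.sum_sub_distrib,
      ← Finset.sum_sub_distrib]
    refine Finset.sum_congr rfl fun k _ => ?_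
    rw [mul_smul_comm, h1, smul_mul_assoc, smul_sub, smul_sub, smul_add]
  have h3 : (∑ i, ∑ k, (f i k / 2) • (c i * Al a R k)) = (1 / 2 : ℂ) • Nop a c := by
    unfold Nop
    rw [Finset.smul_sum]
    refine Finset.sum_congr rfl fun i _ => ?_
    have e1 : a i = ∑ k, f i k • Al a R k := by
      unfold Al
      have e2 : ∀ k, f i k • ∑ l, R k l • a l = ∑ l, (f i k * R k l) • a l := by
        intro k
        rw [Finset.smul_sum]
        exact Finset.sum_congr rfl fun l _ => smul_smul _ _ _
      rw [Finset.sum_congr rfl fun k _ => e2 k, Finset.sum_comm]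
      have e3 : ∀ l, ∑ k, (f i k * R k l) • a l = (if i = l then (1 : ℂ) else 0) • a l := by
        intro l
        rw [← Finset.sum_smul, hfR]
      rw [Finset.sum_congr rfl fun l _ => e3 l]
      simp
    conv_rhs => rw [e1]
    rw [Finset.mul_sum, Finset.smul_sum]
    refine Finset.sum_congr rfl fun k _ => ?_
    rw [mul_smul_comm, smul_smul]
    congr 1
    ring
  have h4 : (∑ i, ∑ k, (f i k / 2) • (c k * Al a R i)) = -((1 / 2 : ℂ) • Nop a c) := by
    rw [← h3, Finset.sum_comm, ← Finset.sum_neg_distrib]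
    refine Finset.sum_congr rfl fun i _ => ?_
    rw [← Finset.sum_neg_distrib]
    refine Finset.sum_congr rfl fun k _ => ?_
    rw [hf k i, ← neg_smul]
    congr 1
    ring
  have h5 : (∑ i, ∑ k, (f i k / 2) • algebraMap ℂ A (R i k)) = -algebraMap ℂ A (n / 2) := by
    have e1 : ∀ i, ∑ k, (f i k / 2) • algebraMap ℂ A (R i k) = algebraMap ℂ A (-(1 / 2)) := by
      intro i
      have e2 : ∀ k, (f i k / 2) • algebraMap ℂ A (R i k) =
          algebraMap ℂ A (-(1 / 2) * (f i k * R k i)) := by
        intro k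
        rw [Algebra.smul_def, ← map_mul, hR i k]
        congr 1
        ring
      rw [Finset.sum_congr rfl fun k _ => e2 k, ← map_sum, ← Finset.mul_sum, hfR, if_pos rfl,
        mul_one]
    rw [Finset.sum_congr rfl fun i _ => e1 i, Finset.sum_const, Finset.card_univ, Fintype.card_fin,
      ← map_nsmul, ← map_neg]
    congr 1
    rw [nsmul_eq_mul]
    ring
  rw [h2, h3, h4, h5]
  have h6 : (1 / 2 : ℂ) • Nop a c + (1 / 2 : ℂ) • Nop a c = Nop a c := by
    rw [← add_smul]
    norm_num
  obtain ⟨x, hx⟩ : ∃ x, x = (1 / 2 : ℂ) • Nop a c := ⟨_, rfl⟩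
  rw [← hx] at h6 ⊢
  rw [← h6]
  abel

omit [Algebra ℂ A] in
theorem N_c (hc : ∀ i k, c i * c k = -(c k * c i)) (l : Fin n) :
    Nop a c * c l = c l * Nop a c + c l := by
  have h1 : ∀ i, c i * a i * c l = c l * (c i * a i) + if i = l then c i else 0 := by
    intro i
    rw [mul_assoc, hac, mul_sub, ← mul_assoc, ← mul_assoc, hc i l, neg_mul, sub_neg_eq_add,
      add_comm]
    congr 1
    split_ifs <;> simp
  unfold Nop
  rw [Finset.sum_mul, Finset.mul_sum, Finset.sum_congr rfl fun i _ => h1 i,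
    Finset.sum_add_distrib, Finset.sum_ite_eq' Finset.univ l, if_pos (Finset.mem_univ l)]

theorem N_L (hc : ∀ i k, c i * c k = -(c k * c i)) :
    Nop a c * Lam c f = Lam c f * Nop a c + (2 : ℂ) • Lam c f := by
  have h1 : ∀ i k, Nop a c * (c i * c k) = c i * c k * Nop a c + (2 : ℂ) • (c i * c k) := by
    intro i k
    calc Nop a c * (c i * c k) = Nop a c * c i * c k := (mul_assoc _ _ _).symm
      _ = c i * (Nop a c * c k) + c i * c k := by rw [N_c a c hac hc, add_mul, mul_assoc]
      _ = _ := by rw [N_c a c hac hc, mul_add, mul_assoc, two_smul]; abel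
  unfold Lam
  rw [Finset.mul_sum, Finset.sum_mul, Finset.smul_sum, ← Finset.sum_add_distrib]
  refine Finset.sum_congr rfl fun i _ => ?_
  rw [Finset.mul_sum, Finset.sum_mul, Finset.smul_sum, ← Finset.sum_add_distrib]
  refine Finset.sum_congr rfl fun k _ => ?_
  rw [mul_smul_comm, h1, smul_mul_assoc, smul_add, smul_comm]

end alg

section act

variable {W : Type} [AddCommGroup W] [Module ℂ W] {g : ℕ} (a c : Fin (2 * g) → Module.End ℂ W)
  (R f : Fin (2 * g) → Fin (2 * g) → ℂ) (x : W)

theorem N_pow (hN : Nop a c * Lam c f = Lam c f * Nop a c + (2 : ℂ) • Lam c f)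
    (hx : ∀ i, a i x = 0) (k : ℕ) :
    Nop a c ((Lam c f ^ k) x) = (2 * k : ℂ) • (Lam c f ^ k) x := by
  induction k with
  | zero =>
    rw [pow_zero, Module.End.one_apply]
    unfold Nop
    rw [LinearMap.sum_apply, Finset.sum_eq_zero fun i _ => by
      rw [Module.End.mul_apply, hx, map_zero]]
    simp
  | succ k ih =>
    have h := LinearMap.congr_fun hN ((Lam c f ^ k) x)
    rw [Module.End.mul_apply, LinearMap.add_apply, Module.End.mul_apply, ih, map_smul,
      LinearMap.smul_apply, ← add_smul] at h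
    rw [pow_succ', Module.End.mul_apply, h]
    congr 1
    push_cast
    ring

theorem Lam_pow (hN : Nop a c * Lam c f = Lam c f * Nop a c + (2 : ℂ) • Lam c f)
    (hL : Lam a R * Lam c f = Lam c f * Lam a R +
      algebraMap ℂ (Module.End ℂ W) (((2 * g : ℕ) : ℂ) / 2) - Nop a c)
    (hx : ∀ i, a i x = 0) (k : ℕ) :
    Lam a R ((Lam c f ^ (k + 1)) x) = ((k + 1) * (g - k) : ℂ) • (Lam c f ^ k) x := by
  have h0 : Lam a R x = 0 := by
    unfold Lam
    rw [LinearMap.sum_apply]
    refine Finset.sum_eq_zero fun i _ => ?_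
    rw [LinearMap.sum_apply]
    refine Finset.sum_eq_zero fun k _ => ?_
    rw [LinearMap.smul_apply, Module.End.mul_apply, hx, map_zero, smul_zero]
  have key : ∀ y, Lam a R (Lam c f y) = Lam c f (Lam a R y) + (g : ℂ) • y - Nop a c y := by
    intro y
    have h := LinearMap.congr_fun hL y
    rw [Module.End.mul_apply, LinearMap.sub_apply, LinearMap.add_apply, Module.End.mul_apply,
      Module.algebraMap_end_apply] at h
    rw [h]
    congr 3
    push_cast
    ring
  induction k with
  | zero =>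
    rw [zero_add, pow_one, pow_zero, Module.End.one_apply, key, h0, map_zero, zero_add]
    have h1 := N_pow a c f x hN hx 0
    rw [pow_zero, Module.End.one_apply] at h1
    rw [h1, ← sub_smul]
    congr 1
    push_cast
    ring
  | succ k ih =>
    rw [pow_succ' _ (k + 1), Module.End.mul_apply, key, ih, map_smul,
      N_pow a c f x hN hx (k + 1), ← Module.End.mul_apply, ← pow_succ', ← add_smul, ← sub_smul]
    congr 1
    push_cast
    ring

end act

/-! ### The classes -/

open HC.W

/-- The class of a point. -/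
def vac (M : Type) [AddCommGroup M] [Module ℂ M] : Tot M := fun m => match m with
  | 0 => AlternatingMap.constOfIsEmpty ℂ M (Fin 0) (1 : ℂ)
  | _ + 1 => 0

theorem An_vac {M : Type} [AddCommGroup M] [Module ℂ M] (a : M) : An a (vac M) = 0 := by
  funext m
  rw [An_apply]
  ext v
  rfl

section cls

variable (T : AV) {n : ℕ} (b : Module.Basis (Fin n) ℝ T.V)

/-- Annihilation. -/
def aa (i : Fin n) : Module.End ℂ (Tot (T.V →ₗ[ℝ] ℂ)) := An (cfm b i)

/-- Creation. -/
def cc (i : Fin n) : Module.End ℂ (Tot (T.V →ₗ[ℝ] ℂ)) := Cr (Fund.evl (b i))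

theorem aa_cc (i j : Fin n) : aa T b i * cc T b j = (if i = j then 1 else 0) - cc T b j * aa T b i := by
  unfold aa cc
  rw [An_Cr]
  congr 1
  have h : Fund.evl (b j) (cfm b i) = if j = i then 1 else 0 := cfm_apply_basis b i j
  rw [h]
  by_cases hij : i = j
  · rw [if_pos hij, if_pos hij.symm, one_smul]
  · rw [if_neg hij, if_neg (Ne.symm hij), zero_smul]

theorem cc_cc (i j : Fin n) : cc T b i * cc T b j = -(cc T b j * cc T b i) := Cr_Cr _ _

end cls

theorem cr_cr_const {M : Type} [AddCommGroup M] [Module ℂ M] (u w : M →ₗ[ℂ] ℂ) (a : Fin 2 → M) :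
    (Cr u * Cr w) (vac M) 2 a = u (a 0) * w (a 1) - u (a 1) * w (a 0) := by
  show cr u (cr w (vac M 0)) a = _
  have h1 : ∀ v : Fin 1 → M, cr w (vac M 0) v = w (v 0) := by
    intro v
    rw [cr_apply, Fin.sum_univ_one]
    show (-1 : ℂ) ^ 0 * (w (v 0) * 1) = w (v 0)
    ring
  rw [cr_apply, Fin.sum_univ_two, h1, h1]
  show (-1 : ℂ) ^ 0 * (u (a 0) * w (a 1)) + (-1 : ℂ) ^ 1 * (u (a 1) * w (a 0)) = _
  ring

section tp

variable {X : GF} (t : Tp X) {n : ℕ} (b : Module.Basis (Fin n) ℝ t.T.V)

/-- The matrix of the Riemann form. -/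
def Rm (i k : Fin n) : ℂ := (t.R (b i) (b k) : ℂ)

theorem Rm_alt (i k : Fin n) : Rm t b i k = -Rm t b k i := by
  unfold Rm
  rw [t.alt]
  push_cast
  rfl

theorem rf_apply (u v : t.T.V) : rf t u v = (t.R u v : ℂ) := rfl

theorem rf_expand (i : Fin n) : rf t (b i) = ∑ k, Rm t b i k • cfm b k :=
  expand_form b (rf t (b i))

theorem sum_R (u v : t.T.V) : ∑ j, cfm b j u * rf t (b j) v = (t.R u v : ℂ) := by
  have h : t.R u v = ∑ j, b.repr u j * t.R (b j) v := by
    conv_lhs => rw [← b.sum_repr u]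
    rw [map_sum, LinearMap.sum_apply]
    refine Finset.sum_congr rfl fun j _ => ?_
    rw [map_smul, LinearMap.smul_apply, smul_eq_mul]
  rw [h]
  push_cast
  refine Finset.sum_congr rfl fun j _ => ?_
  rw [rf_apply, cfm, LinearMap.smulRight_apply, Module.Basis.coord_apply, Complex.real_smul,
    mul_one]

theorem sum_R2 (u v : t.T.V) :
    ∑ j, (cfm b j u * rf t (b j) v - cfm b j v * rf t (b j) u) = 2 * (t.R u v : ℂ) := by
  rw [Finset.sum_sub_distrib, sum_R, sum_R, t.alt v u]
  push_cast
  ring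

theorem isDiv : IsDiv t.T (fun j => cfm b j) (fun j => rf t (b j)) := by
  constructor
  · intro u hu v hv
    obtain ⟨k, hk⟩ := t.rat u hu v hv
    refine ⟨2 * k, ?_⟩
    rw [sum_R2, hk]
    push_cast
    ring
  · intro u v
    rw [sum_R2, sum_R2, t.herm]

theorem cap_eq {m : ℕ} (c : Hlg t.T (m + 2)) :
    HC.cap (fun j => cfm b j) (fun j => rf t (b j)) c =
      ∑ j, ∑ k, Rm t b j k • cap1 (cfm b j) (cfm b k) c := by
  rw [cap_eq_sum]
  refine Finset.sum_congr rfl fun j _ => ?_
  rw [rf_expand, ← capL_apply, map_sum, LinearMap.sum_apply]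
  refine Finset.sum_congr rfl fun k _ => ?_
  rw [map_smul, LinearMap.smul_apply, capL_apply]

theorem Lam_apply (c : Tot (t.T.V →ₗ[ℝ] ℂ)) (m : ℕ) :
    (Lam (aa t.T b) (Rm t b) c) m = (-(1 / 2) : ℂ) •
      HC.cap (fun j => cfm b j) (fun j => rf t (b j)) (c (m + 2)) := by
  rw [cap_eq, Finset.sum_comm, Finset.smul_sum]
  unfold Lam
  rw [LinearMap.sum_apply, Finset.sum_apply]
  refine Finset.sum_congr rfl fun i _ => ?_
  rw [LinearMap.sum_apply, Finset.sum_apply, Finset.smul_sum]
  refine Finset.sum_congr rfl fun k _ => ?_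
  rw [smul_smul, Rm_alt t b k i]
  have h : (-(1 / 2) : ℂ) * -Rm t b i k = Rm t b i k / 2 := by ring
  rw [h]
  rfl

variable (f : LinearMap.BilinForm ℂ (t.T.V →ₗ[ℝ] ℂ))

/-- The matrix of the dual form. -/
def Fm (i k : Fin n) : ℂ := f (cfm b i) (cfm b k)

theorem Rm_Fm (hf : IsFrm t f) (i l : Fin n) :
    ∑ k, Rm t b i k * Fm t b f k l = if i = l then 1 else 0 := by
  have h := hf.val (b i) (cfm b l)
  rw [rf_expand t b, map_sum, LinearMap.sum_apply] at h
  rw [← cfm_apply_basis b l i, ← h]
  refine Finset.sum_congr rfl fun k _ => ?_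
  rw [map_smul, LinearMap.smul_apply, smul_eq_mul]
  rfl

theorem Fm_Rm (hf : IsFrm t f) (i l : Fin n) :
    ∑ k, Fm t b f i k * Rm t b k l = if i = l then 1 else 0 := by
  have h1 : (Matrix.of (Rm t b)) * Matrix.of (Fm t b f) = 1 := by
    ext i l
    rw [Matrix.mul_apply, Matrix.one_apply]
    exact Rm_Fm t b f hf i l
  have h2 := mul_eq_one_comm.1 h1
  have h3 := congrFun (congrFun h2 i) l
  rw [Matrix.mul_apply, Matrix.one_apply] at h3
  exact h3

theorem f_expand (a a' : t.T.V →ₗ[ℝ] ℂ) :
    f a a' = ∑ i, ∑ k, a (b i) * a' (b k) * Fm t b f i k := by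
  conv_lhs => rw [expand_form b a, expand_form b a']
  rw [map_sum f, LinearMap.sum_apply]
  refine Finset.sum_congr rfl fun i _ => ?_
  rw [map_smul, LinearMap.smul_apply, map_sum, Finset.smul_sum]
  refine Finset.sum_congr rfl fun k _ => ?_
  rw [map_smul, smul_eq_mul, smul_eq_mul, mul_assoc]
  rfl

theorem L_vac (hf : IsFrm t f) (a : Fin 2 → (t.T.V →ₗ[ℝ] ℂ)) :
    (Lam (cc t.T b) (Fm t b f) (vac _)) 2 a = f (a 0) (a 1) := by
  have h1 : (Lam (cc t.T b) (Fm t b f) (vac _)) 2 a = ∑ i, ∑ k, (Fm t b f i k / 2) *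
      (a 0 (b i) * a 1 (b k) - a 1 (b i) * a 0 (b k)) := by
    unfold Lam
    rw [LinearMap.sum_apply, Finset.sum_apply, alt_sum_apply]
    refine Finset.sum_congr rfl fun i _ => ?_
    rw [LinearMap.sum_apply, Finset.sum_apply, alt_sum_apply]
    refine Finset.sum_congr rfl fun k _ => ?_
    rw [LinearMap.smul_apply, Pi.smul_apply, AlternatingMap.smul_apply, smul_eq_mul]
    congr 1
    exact cr_cr_const _ _ a
  have h2 := hf.alt (a 0) (a 1)
  have h3 : (Lam (cc t.T b) (Fm t b f) (vac _)) 2 a = (1 / 2) * f (a 0) (a 1) -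
      (1 / 2) * f (a 1) (a 0) := by
    rw [h1, f_expand t b, f_expand t b, Finset.mul_sum, Finset.mul_sum, ← Finset.sum_sub_distrib]
    refine Finset.sum_congr rfl fun i _ => ?_
    rw [Finset.mul_sum, Finset.mul_sum, ← Finset.sum_sub_distrib]
    refine Finset.sum_congr rfl fun k _ => ?_
    ring
  rw [h3, hf.alt (a 1) (a 0)]
  ring

end tp

theorem alt_two {M : Type} [AddCommGroup M] [Module ℂ M] (inst : DecidableEq (Fin 2))
    (F : MultilinearMap ℂ (fun _ : Fin 2 => M) ℂ) (a : Fin 2 → M) :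
    @MultilinearMap.alternatization ℂ _ M _ _ ℂ _ _ (Fin 2) _ inst F a =
      F a - F ![a 1, a 0] := by
  have h : inst = instDecidableEqFin 2 := Subsingleton.elim _ _
  subst h
  rw [MultilinearMap.alternatization_apply]
  have h2 : (Finset.univ : Finset (Equiv.Perm (Fin 2))) = {1, Equiv.swap 0 1} := by decide
  have h3 : (1 : Equiv.Perm (Fin 2)) ≠ Equiv.swap 0 1 := by decide
  rw [h2, Finset.sum_pair h3]
  rw [Equiv.Perm.sign_one, one_smul, Equiv.Perm.sign_swap (by decide)]
  rw [Units.neg_smul, one_smul, ← sub_eq_add_neg]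
  congr 1
  rw [MultilinearMap.domDomCongr_apply]
  congr 1
  funext i
  fin_cases i <;> rfl

end Inv_aux

open Inv_aux in
/-- **Inv**: the class dual to the Riemann form is algebraic. -/
theorem tInv : S_Inv := by
  classical
  intro X t f hf F hF m e
  have hm : 2 = m := by simpa using Fintype.card_congr e
  subst hm
  rw [AlternatingMap.domDomCongr_perm]
  set G := @MultilinearMap.alternatization ℂ _ (t.T.V →ₗ[ℝ] ℂ) _ _ ℂ _ _ (Fin 2) _
    (fun a b => Classical.propDecidable (a = b)) F with hG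
  have key : Alg t.T 2 G := by
    by_cases hg : Module.finrank ℂ t.T.V = 0
    · exact HC.E.tTop t.T 2 _ (by rw [hg]; omega)
    · obtain ⟨g, hgg⟩ : ∃ g, g = Module.finrank ℂ t.T.V := ⟨_, rfl⟩
      rw [← hgg] at hg
      have hn : Module.finrank ℝ t.T.V = 2 * g := by
        rw [hgg]
        exact finrank_real_of_complex _
      let b : Module.Basis (Fin (2 * g)) ℝ t.T.V := Module.finBasisOfFinrankEq ℝ _ hn
      have hL := Lam_L (aa t.T b) (cc t.T b) (Rm t b) (Fm t b f) (aa_cc t.T b) (Rm_alt t b)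
        (fun i k => hf.alt _ _) (Fm_Rm t b f hf)
      have hN := N_L (aa t.T b) (cc t.T b) (Fm t b f) (aa_cc t.T b) (cc_cc t.T b)
      have hv : ∀ i, aa t.T b i (vac _) = 0 := fun i => An_vac _
      have hd : ∀ d k : ℕ, k + d = g →
          Alg t.T (2 * k) (((Lam (cc t.T b) (Fm t b f) ^ k) (vac _)) (2 * k)) := by
        intro d
        induction d with
        | zero =>
          intro k hk
          exact HC.E.tTop t.T (2 * k) _ (by rw [← hgg, ← hk]; omega)
        | succ d ih =>
          intro k hk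
          have h1 := ih (k + 1) (by omega)
          have h2 := Lam_pow (aa t.T b) (cc t.T b) (Rm t b) (Fm t b f) (vac _) hN hL hv k
          have h3 := congrFun h2 (2 * k)
          rw [Lam_apply, Pi.smul_apply] at h3
          have h4 : Alg t.T (2 * k) ((((k + 1) * (g - k) : ℂ)) •
              ((Lam (cc t.T b) (Fm t b f) ^ k) (vac _)) (2 * k)) := by
            rw [← h3]
            exact Alg.smul _ (Alg.cap _ _ (isDiv t b) h1)
          refine Alg.of_smul ?_ h4
          refine mul_ne_zero (by exact_mod_cast Nat.succ_ne_zero k) ?_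
          rw [← hk]
          push_cast
          have h5 : (k : ℂ) + (d + 1) - k = ((d + 1 : ℕ) : ℂ) := by
            push_cast
            ring
          rw [h5]
          exact_mod_cast Nat.succ_ne_zero d
      have h1 := hd (g - 1) 1 (by omega)
      rw [pow_one] at h1
      have h2 : G = (2 : ℂ) • ((Lam (cc t.T b) (Fm t b f)) (vac _)) 2 := by
        ext a
        rw [hG, alt_two, AlternatingMap.smul_apply, L_vac t b f hf, hF, hF, smul_eq_mul]
        show f (a 0) (a 1) - f (a 1) (a 0) = _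
        rw [hf.alt (a 1) (a 0)]
        ring
      rw [h2]
      exact Alg.smul _ h1
  rcases Int.units_eq_one_or (Equiv.Perm.sign e) with h | h
  · rw [h, one_smul]
    exact key
  · rw [h, Units.neg_smul, one_smul]
    exact key.neg

end SE
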