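import Pool.Agent.Lib.SE.W.Spec

/-!
# PROJECT SE, part S7: (Alm) alternation of products and reindexing
-/

set_option autoImplicit false

open HC

noncomputable section

namespace SE

namespace Alm_aux

theorem alt_congr (T : AV) (ι ι' : Type) [Fintype ι] [DecidableEq ι] [Fintype ι'] [DecidableEq ι']
    (F : ML T ι) (e : ι ≃ ι') : MultilinearMap.alternatization (F.domDomCongr e) =
      (MultilinearMap.alternatization F).domDomCongr e := by
  ext v
  rw [MultilinearMap.alternatization_apply, AlternatingMap.domDomCongr_apply,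
    MultilinearMap.alternatization_apply]
  refine (Fintype.sum_equiv e.permCongr _ _ fun σ => ?_).symm
  rw [Equiv.Perm.sign_permCongr]
  refine congrArg (fun z => Equiv.Perm.sign σ • z) ?_
  rw [MultilinearMap.domDomCongr_apply, MultilinearMap.domDomCongr_apply,
    MultilinearMap.domDomCongr_apply]
  refine congrArg F ?_
  funext i
  rw [Equiv.permCongr_apply, Equiv.symm_apply_apply]
  rfl

theorem alt_mul (T : AV) (ι ι' : Type) [Fintype ι] [Fintype ι'] [DecidableEq ι] [DecidableEq ι']
    (F : ML T ι) (G : ML T ι') : MultilinearMap.alternatization (mulML F G) =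
      (LinearMap.mul' ℂ ℂ).compAlternatingMap
        ((MultilinearMap.alternatization F).domCoprod (MultilinearMap.alternatization G)) := by
  unfold mulML
  rw [LinearMap.compMultilinearMap_alternatization, MultilinearMap.domCoprod_alternization]

end Alm_aux

theorem tAlm : S_Alm := by
  refine ⟨?_, ?_, ?_⟩
  · intro T ι ι' _ _ _ _ F F' G G' hF hG
    rw [Alm_aux.alt_mul, Alm_aux.alt_mul, hF, hG]
  · intro T ι ι' _ _ _ _ F F' e hF
    rw [Alm_aux.alt_congr, Alm_aux.alt_congr, hF]
  · intro T ι ι' _ _ _ _ F e
    exact Alm_aux.alt_congr T ι ι' F e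

end SE
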