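import Pool.Agent.Lib.SE.W.Spec
import Pool.Agent.Lib.HC.L.Lf

/-!
# PROJECT SE, part S7: a pair block
-/

set_option autoImplicit false

open scoped ComplexConjugate
open HC

noncomputable section

namespace SE

namespace Npr_aux

/-! ### bilinear forms as multilinear functions -/

theorem fin2 (i : Fin 2) : i = 0 ∨ i = 1 := by
  revert i
  decide

theorem f01 : (0 : Fin 2) ≠ 1 := by decide

/-- The multilinear function of a bilinear form. -/
def bil {T : AV} (g : LinearMap.BilinForm ℂ (T.V →ₗ[ℝ] ℂ)) : ML T (Fin 2) where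
  toFun a := g (a 0) (a 1)
  map_update_add' := by
    intro _ m i x y
    rcases fin2 i with rfl | rfl
    · simp [Function.update_of_ne]
    · simp [Function.update_of_ne]
  map_update_smul' := by
    intro _ m i c x
    rcases fin2 i with rfl | rfl
    · simp [Function.update_of_ne]
    · simp [Function.update_of_ne]

theorem bil_apply {T : AV} (g : LinearMap.BilinForm ℂ (T.V →ₗ[ℝ] ℂ)) (a : Fin 2 → (T.V →ₗ[ℝ] ℂ)) :
    bil g a = g (a 0) (a 1) := rfl

theorem alt_swap (hA : S_Alm) {T : AV} [DecidableEq (Fin 2)]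
    (g g' : LinearMap.BilinForm ℂ (T.V →ₗ[ℝ] ℂ)) (h : ∀ a b, g' a b = -g b a) :
    MultilinearMap.alternatization (bil g') = MultilinearMap.alternatization (bil g) := by
  have e1 : bil g' = -((bil g).domDomCongr (Equiv.swap 0 1)) := by
    ext a
    rw [MultilinearMap.neg_apply, MultilinearMap.domDomCongr_apply, bil_apply, bil_apply, h,
      Equiv.swap_apply_left, Equiv.swap_apply_right]
  rw [e1, map_neg, hA.2.2]
  ext a
  rw [AlternatingMap.neg_apply, AlternatingMap.domDomCongr_apply]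
  have h1 := AlternatingMap.map_swap (MultilinearMap.alternatization (bil g)) a
    (i := 0) (j := 1) f01
  rw [neg_eq_iff_eq_neg]
  exact h1

variable {Q : (T : AV) → (m : ℕ) → Hlg T m → Prop}

/-- `QA` as a submodule. -/
def WQ (hq : S_Qal) (hQ : Cl Q) (T : AV) : Submodule ℂ (ML T (Fin 2)) where
  carrier := {F | QA Q T (Fin 2) F}
  zero_mem' := (hq Q hQ).1 T (Fin 2)
  add_mem' := fun {F G} hF hG => (hq Q hQ).2.1 T (Fin 2) F G hF hG
  smul_mem' := fun x F hF => (hq Q hQ).2.2.1 T (Fin 2) x F hF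

theorem QA_alt {T : AV} (F G : ML T (Fin 2)) (h : ∀ [DecidableEq (Fin 2)],
    MultilinearMap.alternatization F = MultilinearMap.alternatization G) (hF : QA Q T (Fin 2) F) :
    QA Q T (Fin 2) G := by
  intro m e
  have h1 := hF m e
  have h2 := @h (fun a b => Classical.propDecidable (a = b))
  rw [h2] at h1
  exact h1

theorem pull_add {V V' : Type} [AddCommGroup V] [Module ℂ V] [AddCommGroup V'] [Module ℂ V']
    (α β : V →ₗ[ℂ] V') (a : V' →ₗ[ℝ] ℂ) : pull (α + β) a = pull α a + pull β a := by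
  ext v
  exact a.map_add (α v) (β v)

theorem key (hInv : S_Inv) (hA : S_Alm) (hq : S_Qal) (hQ : Cl Q) {X : GF} (t : Tp X)
    (f : LinearMap.BilinForm ℂ (t.T.V →ₗ[ℝ] ℂ)) (hf : IsFrm t f) (Y : AV)
    (α β : t.T.V →ₗ[ℂ] Y.V) (hα : ∀ v ∈ t.T.L, α v ∈ Y.L) (hβ : ∀ v ∈ t.T.L, β v ∈ Y.L) :
    bil (f.compl₁₂ (pull α) (pull β)) ∈ WQ hq hQ Y := by
  have h0 : QA Q t.T (Fin 2) (bil f) := by
    intro m e
    exact hQ.base (hInv X t f hf (bil f) (fun _ => rfl) m e)
  have hp : ∀ κ : t.T.V →ₗ[ℂ] Y.V, (∀ v ∈ t.T.L, κ v ∈ Y.L) →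
      bil (f.compl₁₂ (pull κ) (pull κ)) ∈ WQ hq hQ Y := fun κ hκ =>
    (hq Q hQ).2.2.2.2.2.1 t.T Y (Fin 2) κ hκ (bil f) h0
  have h1 := hp (α + β) fun v hv => Y.L.add_mem (hα v hv) (hβ v hv)
  have h2 := hp α hα
  have h3 := hp β hβ
  have e1 : bil (f.compl₁₂ (pull (α + β)) (pull (α + β))) -
      bil (f.compl₁₂ (pull α) (pull α)) - bil (f.compl₁₂ (pull β) (pull β)) =
      bil (f.compl₁₂ (pull α) (pull β)) + bil (f.compl₁₂ (pull β) (pull α)) := by
    ext a
    rw [MultilinearMap.sub_apply, MultilinearMap.sub_apply, MultilinearMap.add_apply]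
    simp only [bil_apply, LinearMap.compl₁₂_apply, pull_add, map_add, LinearMap.add_apply]
    ring
  have h4 := (WQ hq hQ Y).sub_mem ((WQ hq hQ Y).sub_mem h1 h2) h3
  rw [e1] at h4
  have h5 : QA Q Y (Fin 2) (bil (f.compl₁₂ (pull α) (pull β)) +
      bil (f.compl₁₂ (pull α) (pull β))) := by
    refine QA_alt _ _ ?_ h4
    intro _
    rw [map_add, map_add, alt_swap hA (f.compl₁₂ (pull α) (pull β)) (f.compl₁₂ (pull β) (pull α))
      fun a b => hf.alt _ _]
  have h6 := (WQ hq hQ Y).smul_mem ((2 : ℂ)⁻¹) h5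
  have e2 : (2 : ℂ)⁻¹ • (bil (f.compl₁₂ (pull α) (pull β)) + bil (f.compl₁₂ (pull α) (pull β))) =
      bil (f.compl₁₂ (pull α) (pull β)) := by
    rw [← two_smul ℂ, smul_smul, inv_mul_cancel₀ two_ne_zero, one_smul]
  rw [e2] at h6
  exact h6

/-! ### the projections -/

section blk

variable {X : GF} {T : AV} {E : Type} [Field E] [NumberField E] {r : ℕ} (B : Blk X T E r)

theorem pr_apply (φ : E →+* X.K) (a : T.V →ₗ[ℝ] ℂ) :
    B.pr φ a = ∑ i, B.b.coord (φ, i) a • B.b (φ, i) := by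
  rw [Blk.pr, LinearMap.sum_apply]
  rfl

open Classical in
theorem pr_basis (φ ψ : E →+* X.K) (i : Fin r) :
    B.pr ψ (B.b (φ, i)) = if φ = ψ then B.b (φ, i) else 0 := by
  rw [pr_apply]
  by_cases h : φ = ψ
  · subst h
    rw [if_pos rfl, Finset.sum_eq_single i]
    · rw [Module.Basis.coord_apply, Module.Basis.repr_self, Finsupp.single_eq_same, one_smul]
    · intro j _ hj
      rw [Module.Basis.coord_apply, Module.Basis.repr_self, Finsupp.single_apply, if_neg, zero_smul]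
      intro h
      exact hj (congrArg Prod.snd h).symm
    · intro h
      exact absurd (Finset.mem_univ i) h
  · rw [if_neg h]
    refine Finset.sum_eq_zero fun j _ => ?_
    rw [Module.Basis.coord_apply, Module.Basis.repr_self, Finsupp.single_apply, if_neg, zero_smul]
    intro h1
    exact h (congrArg Prod.fst h1)

open Classical in
theorem pr_pr (φ ψ : E →+* X.K) (a : T.V →ₗ[ℝ] ℂ) :
    B.pr φ (B.pr ψ a) = if ψ = φ then B.pr φ a else 0 := by
  rw [pr_apply B ψ, map_sum]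
  by_cases h : ψ = φ
  · subst h
    rw [if_pos rfl, pr_apply]
    refine Finset.sum_congr rfl fun i _ => ?_
    rw [map_smul, pr_basis, if_pos rfl]
  · rw [if_neg h]
    refine Finset.sum_eq_zero fun i _ => ?_
    rw [map_smul, pr_basis, if_neg h, smul_zero]

theorem pull_rho (x : E) (a : T.V →ₗ[ℝ] ℂ) :
    pull (B.ρ x) a = ∑ φ : E →+* X.K, X.τ (φ x) • B.pr φ a := by
  classical
  have h : pull (B.ρ x) = ∑ φ : E →+* X.K, X.τ (φ x) • B.pr φ := by
    refine B.b.ext ?_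
    rintro ⟨φ, i⟩
    rw [LinearMap.sum_apply, Finset.sum_eq_single φ]
    · rw [LinearMap.smul_apply, pr_basis, if_pos rfl]
      ext v
      exact B.act φ i x v
    · intro ψ _ hψ
      rw [LinearMap.smul_apply, pr_basis, if_neg (Ne.symm hψ), smul_zero]
    · intro h
      exact absurd (Finset.mem_univ φ) h
  rw [h, LinearMap.sum_apply]
  rfl

theorem den (x : E) : ∃ N : ℕ, N ≠ 0 ∧ ∀ v ∈ T.L, N • B.ρ x v ∈ T.L := by
  refine LfAux.unif (T := T) (T' := T) (B.ρ x) fun v hv => ?_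
  obtain ⟨y, hy⟩ := B.lat v hv
  obtain ⟨N, hN, w, hw, hb⟩ := B.mem fun i => x * y i
  refine ⟨N, hN, ?_⟩
  have h1 : N • B.ρ x v = w := by
    have h2 : ∀ a : T.V →ₗ[ℝ] ℂ, a (N • B.ρ x v - w) = 0 := by
      intro a
      have h4 : a = ∑ q, B.b.repr a q • B.b q := (B.b.sum_repr a).symm
      rw [h4, LinearMap.sum_apply]
      refine Finset.sum_eq_zero fun q _ => ?_
      obtain ⟨φ, i⟩ := q
      rw [LinearMap.smul_apply, map_sub, map_nsmul, B.act, hy, hb, map_mul, map_mul, nsmul_eq_mul,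
        sub_self, smul_zero]
    rw [← sub_eq_zero, ← Module.forall_dual_apply_eq_zero_iff ℝ]
    intro g
    have h3 := h2 (Complex.ofRealCLM.toLinearMap ∘ₗ g)
    exact Complex.ofReal_eq_zero.1 h3
  rw [h1]
  exact hw

/-- Independence of the labels. -/
theorem lin {M : Type} [AddCommGroup M] [Module ℂ M] (W : Submodule ℂ M) (H : (E →+* X.K) → M)
    (h : ∀ x : E, ∑ φ : E →+* X.K, X.τ (φ x) • H φ ∈ W) (φ : E →+* X.K) : H φ ∈ W := by
  classical
  let Λ : ((E →+* X.K) → ℂ) →ₗ[ℂ] M := ∑ φ, (LinearMap.proj φ).smulRight (H φ)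
  have hΛ : ∀ v, Λ v = ∑ φ, v φ • H φ := by
    intro v
    simp only [Λ, LinearMap.sum_apply, LinearMap.smulRight_apply, LinearMap.proj_apply]
  have htop : W.comap Λ = ⊤ := by
    by_contra hne
    obtain ⟨g, hg, hle⟩ := Submodule.exists_le_ker_of_lt_top (W.comap Λ) (lt_top_iff_ne_top.2 hne)
    have hli : LinearIndependent ℂ (fun φ : E →+* X.K => (fun x : E => X.τ (φ x))) := by
      have h1 := linearIndependent_monoidHom E ℂ
      have hinj : Function.Injective (fun φ : E →+* X.K => ((X.τ.comp φ : E →+* ℂ) : E →* ℂ)) := by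
        intro φ ψ hφ
        ext x
        exact X.τ.injective (DFunLike.congr_fun hφ x)
      exact h1.comp _ hinj
    rw [Fintype.linearIndependent_iff] at hli
    have h2 := hli (fun φ => g (fun ψ => if φ = ψ then 1 else 0)) (by
      funext x
      have h3 : (fun φ : E →+* X.K => X.τ (φ x)) ∈ W.comap Λ := by
        rw [Submodule.mem_comap, hΛ]
        exact h x
      have h4 : g (fun φ : E →+* X.K => X.τ (φ x)) = 0 := hle h3
      rw [LinearMap.pi_apply_eq_sum_univ] at h4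
      rw [Finset.sum_apply, Pi.zero_apply]
      refine Eq.trans (Finset.sum_congr rfl fun φ _ => ?_) h4
      rw [Pi.smul_apply, smul_eq_mul, smul_eq_mul, mul_comm])
    apply hg
    ext v
    rw [LinearMap.comp_apply, LinearMap.comp_apply]
    have h5 := h2 v
    rw [LinearMap.zero_apply]
    have h6 : (LinearMap.single ℂ (fun _ : E →+* X.K => ℂ) v) 1 = fun ψ => if v = ψ then 1 else 0 := by
      funext ψ
      rw [LinearMap.single_apply, Pi.single_apply]
      by_cases h7 : v = ψ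
      · rw [if_pos h7, if_pos h7.symm]
      · rw [if_neg h7, if_neg (Ne.symm h7)]
    rw [h6]
    exact h5
  have h8 : (fun ψ : E →+* X.K => if ψ = φ then (1 : ℂ) else 0) ∈ W.comap Λ := by
    rw [htop]
    trivial
  rw [Submodule.mem_comap, hΛ, Finset.sum_eq_single φ] at h8
  · rw [if_pos rfl, one_smul] at h8
    exact h8
  · intro ψ _ hψ
    rw [if_neg hψ, zero_smul]
  · intro h
    exact absurd (Finset.mem_univ φ) h

end blk

theorem part (hInv : S_Inv) (hA : S_Alm) (hq : S_Qal) (hQ : Cl Q) {X : GF} (t : Tp X)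
    (f : LinearMap.BilinForm ℂ (t.T.V →ₗ[ℝ] ℂ)) (hf : IsFrm t f) (Y : AV)
    (α β : t.T.V →ₗ[ℂ] Y.V) (hα : ∀ v ∈ t.T.L, α v ∈ Y.L) (hβ : ∀ v ∈ t.T.L, β v ∈ Y.L)
    (φ : t.E →+* X.K) :
    bil (f.compl₁₂ (t.B.pr φ ∘ₗ pull α) (pull β)) ∈ WQ hq hQ Y := by
  refine lin (X := X) (E := t.E) (WQ hq hQ Y)
    (fun φ => bil (f.compl₁₂ (t.B.pr φ ∘ₗ pull α) (pull β))) ?_ φ
  intro x
  obtain ⟨N, hN, hNx⟩ := den t.B x
  have h1 := key hInv hA hq hQ t f hf Y (α ∘ₗ (N • t.B.ρ x)) β (fun v hv => hα _ (hNx v hv)) hβ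
  have h2 := (WQ hq hQ Y).smul_mem ((N : ℂ)⁻¹) h1
  have e : (N : ℂ)⁻¹ • bil (f.compl₁₂ (pull (α ∘ₗ (N • t.B.ρ x))) (pull β)) =
      ∑ φ : t.E →+* X.K, X.τ (φ x) • bil (f.compl₁₂ (t.B.pr φ ∘ₗ pull α) (pull β)) := by
    ext a
    rw [MultilinearMap.smul_apply, MultilinearMap.sum_apply, bil_apply, LinearMap.compl₁₂_apply]
    have h3 : pull (α ∘ₗ (N • t.B.ρ x)) (a 0) = (N : ℂ) • pull (t.B.ρ x) (pull α (a 0)) := by
      ext v
      change a 0 (α (N • t.B.ρ x v)) = (N : ℂ) • a 0 (α (t.B.ρ x v))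
      rw [map_nsmul, map_nsmul, nsmul_eq_mul, smul_eq_mul]
    rw [h3, pull_rho, map_smul, LinearMap.smul_apply, smul_smul,
      inv_mul_cancel₀ (Nat.cast_ne_zero.2 hN), one_smul, map_sum, LinearMap.sum_apply]
    refine Finset.sum_congr rfl fun φ _ => ?_
    rw [map_smul, LinearMap.smul_apply, MultilinearMap.smul_apply, bil_apply, LinearMap.compl₁₂_apply]
    rfl
  rw [e] at h2
  exact h2

theorem emb_mem {X : GF} {J : Type} {S : J → Tp X} {N : Type} [Fintype N] {Kc : N → J}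
    (C : Prd fun k => (S (Kc k)).T) (k : N) (j : J) (v : (S j).T.V) (hv : v ∈ (S j).T.L) :
    emb C k j v ∈ C.Y.L := by
  classical
  rw [C.lat]
  intro k'
  have h1 : C.ψ (emb C k j v) = Pi.single k ((Pi.single j v : ∀ j, (S j).T.V) (Kc k)) :=
    C.ψ.apply_symm_apply _
  rw [h1]
  by_cases hk : k' = k
  · subst hk
    rw [Pi.single_eq_same]
    by_cases hj : Kc k' = j
    · subst hj
      rw [Pi.single_eq_same]
      exact hv
    · rw [Pi.single_eq_of_ne hj]
      exact Submodule.zero_mem _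
  · rw [Pi.single_eq_of_ne hk]
    exact Submodule.zero_mem _

/-! ### the form on components -/

section comp

variable {X : GF} {J : Type} [Fintype J] {S : J → Tp X}

theorem CS_comp (hSub : S_Sub) (c : Module.End ℂ (VL S)) (hc : c ∈ CS S) :
    ∃ cc : Lb S → ℂ, ∀ l x, c (eL S l x) = cc l • eL S l x := by
  obtain ⟨cc, rfl⟩ := hc
  obtain ⟨h1, h2, -, -⟩ := hSub X J S
  refine ⟨cc, fun l x => ?_⟩
  rw [LinearMap.sum_apply, Finset.sum_eq_single l]
  · rw [LinearMap.smul_apply]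
    exact congrArg (fun z : Module.End ℂ (VL S) => cc l • z x) (h1 l)
  · intro l' _ hl'
    rw [LinearMap.smul_apply]
    have h3 := congrArg (fun z : Module.End ℂ (VL S) => cc l' • z x) (h2 l' l hl')
    change cc l' • eL S l' (eL S l x) = cc l' • (0 : VL S) at h3
    rw [h3, smul_zero]
  · intro h
    exact absurd (Finset.mem_univ l) h

theorem FRM_apply (f : ∀ j, LinearMap.BilinForm ℂ ((S j).T.V →ₗ[ℝ] ℂ)) (a b : VL S) :
    FRM S f a b = ∑ j, f j (a j) (b j) := by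
  rw [FRM, LinearMap.sum_apply, LinearMap.sum_apply]
  rfl

theorem eL_same (l : Lb S) (x : VL S) : eL S l x l.1 = (S l.1).B.pr l.2 (x l.1) := by
  classical
  exact Pi.single_eq_same l.1 _

theorem eL_ne (l : Lb S) (x : VL S) (j : J) (h : j ≠ l.1) : eL S l x j = 0 := by
  classical
  exact Pi.single_eq_of_ne h _

theorem FRM_eL (f : ∀ j, LinearMap.BilinForm ℂ ((S j).T.V →ₗ[ℝ] ℂ)) (l : Lb S) (x b : VL S) :
    FRM S f (eL S l x) b = f l.1 ((S l.1).B.pr l.2 (x l.1)) (b l.1) := by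
  rw [FRM_apply, Finset.sum_eq_single l.1, eL_same]
  · intro j _ hj
    rw [eL_ne l x j hj, map_zero, LinearMap.zero_apply]
  · intro h
    exact absurd (Finset.mem_univ _) h

theorem FRM_conj (f : ∀ j, LinearMap.BilinForm ℂ ((S j).T.V →ₗ[ℝ] ℂ)) (hf : ∀ j, IsFrm (S j) (f j))
    (l : Lb S) (x y : VL S) :
    FRM S f (eL S l x) (eL S ⟨l.1, gl X.c l.2⟩ y) = f l.1 ((S l.1).B.pr l.2 (x l.1)) (y l.1) := by
  classical
  rw [FRM_eL, eL_same ⟨l.1, gl X.c l.2⟩ y, ← (hf l.1).pr, pr_pr, if_pos rfl]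

theorem FRM_ne (f : ∀ j, LinearMap.BilinForm ℂ ((S j).T.V →ₗ[ℝ] ℂ)) (hf : ∀ j, IsFrm (S j) (f j))
    (l l' : Lb S) (h : l' ≠ ⟨l.1, gl X.c l.2⟩) (x y : VL S) :
    FRM S f (eL S l x) (eL S l' y) = 0 := by
  classical
  rw [FRM_eL]
  by_cases hj : l.1 = l'.1
  · obtain ⟨j, φ⟩ := l
    obtain ⟨j', ψ⟩ := l'
    change j = j' at hj
    subst hj
    rw [eL_same ⟨j, ψ⟩ y, (hf j).pr, pr_pr, if_neg, map_zero]
    rintro rfl
    exact h rfl
  · rw [eL_ne l' y l.1 hj, map_zero]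

end comp

end Npr_aux

open Npr_aux in
theorem tNpr : S_Npr := by
  intro _ hInv hA hq hN hSub Q hQ X J _ S f hf N _ Kc C c hc u G hG
  obtain ⟨cc, hcc⟩ := CS_comp hSub c hc
  have hG' : ∀ a, G a = cc (lb (u 0)) * FRM S f (eL S (lb (u 0)) (outV C (u 0).1 (a 0)))
      (eL S (lb (u 1)) (outV C (u 1).1 (a 1))) := by
    intro a
    rw [hG]
    change FRM S f (c (eL S (lb (u 0)) (outV C (u 0).1 (a 0))))
      (eL S (lb (u 1)) (outV C (u 1).1 (a 1))) = _
    rw [hcc, map_smul, LinearMap.smul_apply, smul_eq_mul]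
  by_cases hl : lb (u 1) = ⟨(lb (u 0)).1, gl X.c (lb (u 0)).2⟩
  · refine (hN hA hq Q hQ X J S C.Y (Fin 2)).2 _ G ?_ ?_
    · have e : G = cc (lb (u 0)) • bil ((f (lb (u 0)).1).compl₁₂
          ((S (lb (u 0)).1).B.pr (lb (u 0)).2 ∘ₗ pull (emb C (u 0).1 (lb (u 0)).1))
          (pull (emb C (u 1).1 (lb (u 0)).1))) := by
        ext a
        rw [hG', hl, FRM_conj f hf]
        rfl
      rw [e]
      exact (WQ hq hQ C.Y).smul_mem _ (part hInv hA hq hQ (S (lb (u 0)).1) (f (lb (u 0)).1)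
        (hf _) C.Y _ _ (emb_mem C _ _) (emb_mem C _ _) _)
    · intro w hw
      rw [Fin.sum_univ_two, hl, hw, add_neg_cancel]
  · have e : G = 0 := by
      ext a
      rw [hG', FRM_ne f hf _ _ hl, mul_zero]
      rfl
    rw [e]
    intro R h0 _ _ _ _
    exact h0

end SE
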