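import Pool.Agent.Lib.SE.W.Defs
import Pool.Agent.Lib.SE.Defs
import Pool.Agent.Lib.HC.L.E.Spec
import Pool.Agent.Lib.MP_640417_ag.Fg.Defs

/-!
# PROJECT SE, part S7: specification (helper42)

Every module proves `theorem tXyz : (S_.. →) S_Xyz`, file `SE/W/Xyz.lean`. Proofs in the docstrings.
-/

set_option autoImplicit false

open scoped ComplexConjugate
open HC
open Pool.Agent.Lib.MP_640417_ag.Fg (Mono InL)

noncomputable section

namespace SE

variable {X : GF} {J : Type}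

/-! ## One copy of each type -/

/-- `H^1` of one copy of each type. -/
abbrev VL (S : J → Tp X) : Type := ∀ j, ((S j).T.V →ₗ[ℝ] ℂ)

/-- `(U_j)` commutes with the fields and is skew for the Riemann forms. -/
def LinSkew (S : J → Tp X) (U : ∀ j, Module.End ℝ (S j).T.V) : Prop :=
  ∀ j, (∀ x v, U j ((S j).B.ρ x v) = (S j).B.ρ x (U j v)) ∧
    ∀ u v, (S j).R (U j u) v + (S j).R u (U j v) = 0

/-- The commutator of two families. -/
def brF {S : J → Tp X} (U U' : ∀ j, Module.End ℝ (S j).T.V) : ∀ j, Module.End ℝ (S j).T.V :=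
  fun j => U j * U' j - U' j * U j

/-- `F` is killed by the commutators of linear skew families. -/
def KdR (S : J → Tp X) {q : ℕ} (F : MultilinearMap ℂ (fun _ : Fin q => VL S) ℂ) : Prop :=
  ∀ U U', LinSkew S U → LinSkew S U' → ∀ a : Fin q → VL S,
    ∑ p, F (Function.update a p fun j => a p j ∘ₗ brF U U' j) = 0

/-- `R(v, ·)` as a 1-form. -/
def rf (t : Tp X) (v : t.T.V) : t.T.V →ₗ[ℝ] ℂ := Complex.ofRealCLM.toLinearMap ∘ₗ t.R v

/-- The dual of the Riemann form on `H^1(T, ℂ)`. -/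
structure IsFrm (t : Tp X) (f : LinearMap.BilinForm ℂ (t.T.V →ₗ[ℝ] ℂ)) : Prop where
  val : ∀ v b, f (rf t v) b = b v
  alt : ∀ a b, f a b = -f b a
  nd : ∀ a, (∀ b, f a b = 0) → a = 0
  skew : ∀ U : Module.End ℝ t.T.V, (∀ u v, t.R (U u) v + t.R u (U v) = 0) → ∀ a b,
    f (a ∘ₗ U) b + f a (b ∘ₗ U) = 0
  pr : ∀ φ a b, f (t.B.pr φ a) b = f a (t.B.pr (gl X.c φ) b)

/-- **Frm**. PROOF. `R` is nondegenerate (`pos`), so `v ↦ R(v, ·)` is an isomorphism
`e : T.V → Hom_ℝ(T.V, ℝ)`; `f a b = b (e⁻¹ (re a)) + i b (e⁻¹ (im a))`. It suffices to check the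
other properties for `a = rf v` (they span `H^1` over `ℂ`): `alt`: `f (rf v) (rf w) = R(w, v)`;
`skew`: `rf v ∘ U = - rf (U v)`; `pr`: `rf v ∘ ρ x = rf (ρ (inv x) v)` (`alt`, `adj`), so
`f (a ∘ ρ x) b = f a (b ∘ ρ (inv x))`; `a ∘ ρ x = ∑_φ τ(φ x) pr φ a` (`act`), `φ (inv x) = c (φ x)`:
`∑_φ τ(φ x) (f (pr φ a) b - f a (pr (c φ) b)) = 0` for all `x`; the ring homomorphisms `τ ∘ φ` are
linearly independent (`linearIndependent_monoidHom`). -/
def S_Frm : Prop := ∀ (X : GF) (t : Tp X), ∃ f, IsFrm t f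

/-- The sum of the forms. -/
def FRM [Fintype J] (S : J → Tp X) (f : ∀ j, LinearMap.BilinForm ℂ ((S j).T.V →ₗ[ℝ] ℂ)) :
    LinearMap.BilinForm ℂ (VL S) :=
  ∑ j, (f j).compl₁₂ (LinearMap.proj j) (LinearMap.proj j)

open Classical in
/-- The projection on the part with label `l`. -/
def eL (S : J → Tp X) (l : Lb S) : Module.End ℂ (VL S) :=
  LinearMap.single ℂ (fun j => ((S j).T.V →ₗ[ℝ] ℂ)) l.1 ∘ₗ (S l.1).B.pr l.2 ∘ₗ LinearMap.proj l.1

/-- The combinations of the projections. -/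
def CS [Fintype J] (S : J → Tp X) : Set (Module.End ℂ (VL S)) :=
  {Y | ∃ c : Lb S → ℂ, Y = ∑ l, c l • eL S l}

/-- The ranges of the projections. -/
def StS (S : J → Tp X) (W : Submodule ℂ (VL S)) : Prop := ∃ l, W = LinearMap.range (eL S l)

/-- **Sub**: the projections are orthogonal idempotents with sum 1, different from 0, and `CS` is a
subalgebra. (`r ≥ 1` for a type is not assumed: if `r = 0` the projection is 0.) -/
def S_Sub : Prop :=
  ∀ (X : GF) (J : Type) [Fintype J] (S : J → Tp X),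
    (∀ l, eL S l * eL S l = eL S l) ∧ (∀ l l', l ≠ l' → eL S l * eL S l' = 0) ∧
    (∑ l, eL S l = 1) ∧ ∃ C : Subalgebra ℂ (Module.End ℂ (VL S)), (C : Set _) = CS S

/-- **KdC**: complexification of `KdR`. PROOF. `P` commutes with the `eL`, so it is block diagonal,
and `P_j a = a ∘ A_j + i a ∘ B_j` for unique real endomorphisms `A_j`, `B_j` of `T_j.V` (real and
imaginary parts of `P_j` on real functionals). They commute with `ρ_j x` (`P_j` commutes with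
`a ↦ a ∘ ρ_j x = ∑ τ(φ x) pr φ a`) and are skew (`IsFrm.val`, `alt`): `LinSkew S A`, `LinSkew S B`.
The same for `Q`; `P Q - Q P` is a combination of the `a ↦ a ∘ [A, A']` etc. (order reversed). -/
def S_KdC : Prop :=
  ∀ (X : GF) (J : Type) [Fintype J] (S : J → Tp X)
    (f : ∀ j, LinearMap.BilinForm ℂ ((S j).T.V →ₗ[ℝ] ℂ)), (∀ j, IsFrm (S j) (f j)) →
    ∀ C : Subalgebra ℂ (Module.End ℂ (VL S)), (C : Set _) = CS S → ∀ (q : ℕ)
    (F : MultilinearMap ℂ (fun _ : Fin q => VL S) ℂ), KdR S F → ∀ P Q : Module.End ℂ (VL S),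
    InL (FRM S f) C P → InL (FRM S f) C Q → ∀ a : Fin q → VL S,
      ∑ p, F (Function.update a p ((P * Q - Q * P) (a p))) = 0

/-- **Cen**: the centre of the Lie algebra `InL`. PROOF. For `l` with `conj l ≠ l` (always, by `tc`:
`φ` injective, `c ∘ φ = φ ∘ inv`) and `u ∈ End (range (eL l))`: `Y = u` on the range of `eL l`,
`- u^*` on the range of `eL (conj l)`, `0` on the others is in `InL`. `Z` commutes with all these:
`Z` is scalar on every range. -/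
def S_Cen : Prop :=
  ∀ (X : GF) (J : Type) [Fintype J] (S : J → Tp X)
    (f : ∀ j, LinearMap.BilinForm ℂ ((S j).T.V →ₗ[ℝ] ℂ)), (∀ j, IsFrm (S j) (f j)) →
    ∀ C : Subalgebra ℂ (Module.End ℂ (VL S)), (C : Set _) = CS S →
    ∀ Z, InL (FRM S f) C Z → (∀ Y, InL (FRM S f) C Y → Z * Y = Y * Z) → Z ∈ C

/-- **FFT**. PROOF. `Fg.fft_gen` (MP_640417_ag/Fg/FftM.lean) for `V = VL S`, `form = FRM S f`,
`e₀ = -1`, `St = StS S`; `RegC`: invert the non zero coefficients; `AdjCl`: `IsFrm.pr`; `hZ`: S_Cen;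
`hSt`: a minimal idempotent of `CS` is a single `eL l`; `Kd`: S_KdC; then `Fg.gen_mono`. -/
def S_FFT : Prop :=
  S_Sub → S_KdC → S_Cen → ∀ (X : GF) (J : Type) [Fintype J] (S : J → Tp X)
    (f : ∀ j, LinearMap.BilinForm ℂ ((S j).T.V →ₗ[ℝ] ℂ)), (∀ j, IsFrm (S j) (f j)) →
    ∀ (q : ℕ) (F : MultilinearMap ℂ (fun _ : Fin q => VL S) ℂ), KdR S F →
      (F : (Fin q → VL S) → ℂ) ∈
        Submodule.span ℂ {M : (Fin q → VL S) → ℂ | Mono (FRM S f) (CS S) (StS S) q M}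

/-- **Jz**: the multiplication by `i` on invariants. PROOF. `Y : a ↦ (a_j ∘ mulI)_j` is in `InL`
(`herm`). `Fg.perf_of` (used in FftM): `Y` is a combination of commutators of elements of `InL`
and of a `z ∈ C`, `z = ∑ c_l eL l`. Traces on the range of `eL l`: `δ(l) = c_l r`. By S_KdC the
commutators kill `F`, so `∑_p F(.., z a_p, ..) = 0`; at `a_p = eL (l_p) b_p`. -/
def S_Jz : Prop :=
  S_Sub → S_KdC → S_Cen → ∀ (X : GF) (J : Type) [Fintype J] (S : J → Tp X)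
    (f : ∀ j, LinearMap.BilinForm ℂ ((S j).T.V →ₗ[ℝ] ℂ)), (∀ j, IsFrm (S j) (f j)) →
    ∀ (q : ℕ) (F : MultilinearMap ℂ (fun _ : Fin q => VL S) ℂ), KdR S F →
    (∀ a : Fin q → VL S, ∑ p, F (Function.update a p fun j => a p j ∘ₗ mulI (S j).T) = 0) →
    ∀ (l : Fin q → Lb S) (a : Fin q → VL S), F (fun p => eL S (l p) (a p)) ≠ 0 →
      ∑ p, (S (l p).1).B.δ (l p).2 / ((S (l p).1).r : ℂ) = 0

/-! ## Copies -/

section copies

variable {N : Type} [Fintype N] {S : J → Tp X} {Kc : N → J} (C : Prd fun k => (S (Kc k)).T)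

open Classical in
/-- `T_j → Y`, zero if `Kc k ≠ j`, the inclusion of the copy `k` otherwise. -/
def emb (k : N) (j : J) : (S j).T.V →ₗ[ℂ] C.Y.V :=
  C.ψ.symm.toLinearMap ∘ₗ LinearMap.single ℂ (fun k => (S (Kc k)).T.V) k ∘ₗ
    (LinearMap.proj (Kc k) : (∀ j, (S j).T.V) →ₗ[ℂ] _) ∘ₗ LinearMap.single ℂ (fun j => (S j).T.V) j

/-- The 1-form on the copy `k`. -/
def inV (k : N) : VL S →ₗ[ℂ] (C.Y.V →ₗ[ℝ] ℂ) :=
  pull ((LinearMap.proj k : (∀ k, (S (Kc k)).T.V) →ₗ[ℂ] _) ∘ₗ C.ψ.toLinearMap) ∘ₗ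
    LinearMap.proj (Kc k)

/-- Restriction to the copy `k`. -/
def outV (k : N) : (C.Y.V →ₗ[ℝ] ℂ) →ₗ[ℂ] VL S :=
  LinearMap.pi fun j => pull (emb C k j)

/-- The labels on the copies. -/
abbrev Ub {N : Type} (S : J → Tp X) (Kc : N → J) : Type := (k : N) × ((S (Kc k)).E →+* X.K)

/-- The label. -/
def lb (u : Ub S Kc) : Lb S := ⟨Kc u.1, u.2⟩

/-- The label `g u`. -/
def gU (g : X.G) (u : Ub S Kc) : Ub S Kc := ⟨u.1, gl g u.2⟩

/-- The component with label `u` in `VL S`. -/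
def qU (u : Ub S Kc) : (C.Y.V →ₗ[ℝ] ℂ) →ₗ[ℂ] VL S := eL S (lb u) ∘ₗ outV C u.1

/-- The component with label `u` in `H^1(Y, ℂ)`. -/
def piU (u : Ub S Kc) : Module.End ℂ (C.Y.V →ₗ[ℝ] ℂ) := inV C u.1 ∘ₗ qU C u

/-- `c` is killed by the diagonal commutators of linear skew families. -/
def KdY {m : ℕ} (c : Hlg C.Y m) : Prop :=
  ∀ U U', LinSkew S U → LinSkew S U' → ∀ Z : Module.End ℝ C.Y.V,
    (∀ v k, C.ψ (Z v) k = brF U U' (Kc k) (C.ψ v k)) → ∀ a, lieAct Z c a = 0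

end copies

/-- **Exd**: expansion. PROOF. `∑_u piU u = 1` (`∑_φ pr φ = 1`), `MultilinearMap.map_sum`. -/
def S_Exd : Prop :=
  ∀ (X : GF) (J : Type) (S : J → Tp X) (N : Type) [Fintype N] (Kc : N → J)
    (C : Prd fun k => (S (Kc k)).T), (∑ u : Ub S Kc, piU C u = 1) ∧
    ∀ (m : ℕ) (c : Hlg C.Y m), c.toMultilinearMap =
      ∑ u : Fin m → Ub S Kc, c.toMultilinearMap.compLinearMap fun p => piU C (u p)

/-- **Kil**: from `Y` to `VL S`. PROOF. `(inV k b) ∘ Z = inV k (b ∘ [U, U'])`; the diagonal `Z` exists;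
and `(inV k b) ∘ mulI Y = inV k (b ∘ mulI)`. -/
def S_Kil : Prop :=
  ∀ (X : GF) (J : Type) (S : J → Tp X) (N : Type) [Fintype N] (Kc : N → J)
    (C : Prd fun k => (S (Kc k)).T) (m : ℕ) (c : Hlg C.Y m) (k : Fin m → N),
    (KdY C c → KdR S (c.toMultilinearMap.compLinearMap fun p => inV C (k p))) ∧
    ((∀ a, lieAct (mulI C.Y) c a = 0) → ∀ a : Fin m → VL S,
      ∑ p, (c.toMultilinearMap.compLinearMap fun p => inV C (k p))
        (Function.update a p fun j => a p j ∘ₗ mulI (S j).T) = 0)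

/-- **Cnj**: Galois conjugation. PROOF. The forms `B^k_(φ,i) = inV k (single b (φ,i))` are a basis
of `H^1(Y,ℂ)`; on lattice vectors `B^k_(φ,i) = τ (φ y)`, `y ∈ E`. With a lattice basis `ξ_a` of `Y` and
the dual real basis `ξ_a^*` (rational forms): `B^k_(φ,i) = ∑_a τ(φ y_(k,i,a)) ξ_a^*`. So
`c(B^(k_1)_(φ_1,i_1), ..) = ∑ τ(∏ φ_p(y_p)) c(ξ^*..) = τ(κ)`, `κ ∈ K`, and for `g φ_p` it is `τ(g κ)`. -/
def S_Cnj : Prop :=
  ∀ (X : GF) (J : Type) (S : J → Tp X) (N : Type) [Fintype N] (Kc : N → J)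
    (C : Prd fun k => (S (Kc k)).T) (m : ℕ) (c : Hlg C.Y m), IsHodge C.Y m c →
    ∀ (u : Fin m → Ub S Kc) (g : X.G),
      (c.toMultilinearMap.compLinearMap fun p => piU C (u p)) ≠ 0 →
      (c.toMultilinearMap.compLinearMap fun p => piU C (gU g (u p))) ≠ 0

/-- **Bal**. PROOF. S_Cnj, S_La (`J` kills `c`), S_Kil, S_Jz (with S_Frm):
`c (piU (u_1) a_1, ..) = (c ∘ inV) (eL (lb u_1) (outV a_1), ..)`. -/
def S_Bal : Prop :=
  S_La → S_Frm → S_Sub → S_KdC → S_Cen → S_Jz → S_Kil → S_Cnj →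
  ∀ (X : GF) (J : Type) [Fintype J] (S : J → Tp X) (N : Type) [Fintype N] (Kc : N → J)
    (C : Prd fun k => (S (Kc k)).T) (m : ℕ) (c : Hlg C.Y m), IsHodge C.Y m c → KdY C c →
    ∀ u : Fin m → Ub S Kc, (c.toMultilinearMap.compLinearMap fun p => piU C (u p)) ≠ 0 →
    ∀ g : X.G, ∑ p, (S (Kc (u p).1)).B.δ (gl g (u p).2) / ((S (Kc (u p).1)).r : ℂ) = 0

/-- `δ` is odd. PROOF. `b (c φ, i) = conj b (φ, i)` (on the lattice, so everywhere); so
`δ(conj φ) = conj δ(φ)`; and `mulI² = -1`: the eigenvalues are `± i`, `δ(φ)` is purely imaginary. -/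
def S_Odd : Prop :=
  ∀ (X : GF) (t : Tp X) (φ : t.E →+* X.K), t.B.δ (gl X.c φ) = -t.B.δ φ

/-! ## Algebra of multilinear functions -/

/-- **Alm**: alternation of products; reindexing. PROOF. `MultilinearMap.domCoprod_alternization` and
bookkeeping. -/
def S_Alm : Prop :=
  (∀ (T : AV) (ι ι' : Type) [Fintype ι] [Fintype ι'] [DecidableEq ι] [DecidableEq ι']
    (F F' : ML T ι) (G G' : ML T ι'),
    MultilinearMap.alternatization F = MultilinearMap.alternatization F' →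
    MultilinearMap.alternatization G = MultilinearMap.alternatization G' →
    MultilinearMap.alternatization (mulML F G) = MultilinearMap.alternatization (mulML F' G')) ∧
  (∀ (T : AV) (ι ι' : Type) [Fintype ι] [Fintype ι'] [DecidableEq ι] [DecidableEq ι']
    (F F' : ML T ι) (e : ι ≃ ι'),
    MultilinearMap.alternatization F = MultilinearMap.alternatization F' →
    MultilinearMap.alternatization (F.domDomCongr e) =
      MultilinearMap.alternatization (F'.domDomCongr e)) ∧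
  ∀ (T : AV) (ι ι' : Type) [Fintype ι] [DecidableEq ι] [Fintype ι'] [DecidableEq ι']
    (F : ML T ι) (e : ι ≃ ι'), MultilinearMap.alternatization (F.domDomCongr e) =
      (MultilinearMap.alternatization F).domDomCongr e

/-- **Qal**: rules for `QA`. PROOF. `alternatization` is linear, commutes with `compLinearMap` and
`domDomCongr`; for `mulML`: `domCoprod_alternization` and `pont`; for `m ≃ Fin m'`: `m = m'` and a
permutation changes an alternating map by a sign; `alternatization c = m! c` for alternating `c`. -/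
def S_Qal : Prop :=
  ∀ (Q : (T : AV) → (m : ℕ) → Hlg T m → Prop), Cl Q →
    (∀ (T : AV) (ι : Type) [Fintype ι], QA Q T ι 0) ∧
    (∀ (T : AV) (ι : Type) [Fintype ι] (F G : ML T ι), QA Q T ι F → QA Q T ι G →
      QA Q T ι (F + G)) ∧
    (∀ (T : AV) (ι : Type) [Fintype ι] (x : ℂ) (F : ML T ι), QA Q T ι F → QA Q T ι (x • F)) ∧
    (∀ (T : AV) (ι ι' : Type) [Fintype ι] [Fintype ι'] (e : ι ≃ ι') (F : ML T ι),
      QA Q T ι F → QA Q T ι' (F.domDomCongr e)) ∧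
    (∀ (T : AV) (ι ι' : Type) [Fintype ι] [Fintype ι'] (F : ML T ι) (G : ML T ι'),
      QA Q T ι F → QA Q T ι' G → QA Q T (ι ⊕ ι') (mulML F G)) ∧
    (∀ (T T' : AV) (ι : Type) [Fintype ι] (φ : T.V →ₗ[ℂ] T'.V), (∀ x ∈ T.L, φ x ∈ T'.L) →
      ∀ F : ML T ι, QA Q T ι F → QA Q T' ι (pullML φ F)) ∧
    (∀ (T : AV) (m : ℕ) (c : Hlg T m), Q T m c → QA Q T (Fin m) c.toMultilinearMap) ∧
    ∀ (T : AV) (m : ℕ) (c : Hlg T m), QA Q T (Fin m) c.toMultilinearMap → Q T m c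

/-! ## The normal form -/

section nice

variable [Fintype J] {S : J → Tp X} (Q : (T : AV) → (m : ℕ) → Hlg T m → Prop) (Y : AV)

open Classical in
/-- `H` is, up to forms with the same alternation, a combination of products of determinants
`∏ coord(φ_p, i) ∘ κ_p` (labels `s p`, `κ p` homomorphisms to `Y`) and elements of `QA`, the labels
`s` having the weights `wt`: `wt w = ∑_p r_p w(s_p)` for every odd function `w` of the labels. -/
def Nice (S : J → Tp X) (ι : Type) [Fintype ι] (wt : (Lb S → ℂ) → ℂ) (H : ML Y ι) : Prop :=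
  ∀ R : ML Y ι → Prop, R 0 → (∀ F G, R F → R G → R (F + G)) → (∀ (x : ℂ) (F), R F → R (x • F)) →
    (∀ F G : ML Y ι, MultilinearMap.alternatization F = MultilinearMap.alternatization G →
      R F → R G) →
    (∀ (σ : Type) [Fintype σ] (s : σ → Lb S) (κ : ∀ p, (S (s p).1).T.V →ₗ[ℂ] Y.V)
      (ι' : Type) [Fintype ι'] (G : ML Y ι'), (∀ p, ∀ v ∈ (S (s p).1).T.L, κ p v ∈ Y.L) →
      QA Q Y ι' G →
      (∀ w : Lb S → ℂ, (∀ l : Lb S, w ⟨l.1, gl X.c l.2⟩ = -w l) →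
        wt w = ∑ p, ((S (s p).1).r : ℂ) * w (s p)) →
      ∀ e : ((p : σ) × Fin (S (s p).1).r) ⊕ ι' ≃ ι,
        R ((mulML (prodML fun q => (S (s q.1).1).B.b.coord ((s q.1).2, q.2) ∘ₗ pull (κ q.1))
          G).domDomCongr e)) → R H

end nice

/-- **Nmu**: products. PROOF. For fixed `H'` the predicate `R₁ F := R (mulML F H')` is closed (S_Alm);
for a fixed generator `F₀` so is `R₂ F' := R (mulML F₀ F')`; and the product of two generators is a
generator: `σ ⊕ σ'`, `ι'₁ ⊕ ι'₂`, S_Qal. -/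
def S_Nmu : Prop :=
  S_Alm → S_Qal → ∀ (Q : (T : AV) → (m : ℕ) → Hlg T m → Prop), Cl Q →
    ∀ (X : GF) (J : Type) [Fintype J] (S : J → Tp X) (Y : AV) (ι ι' : Type) [Fintype ι]
    [Fintype ι'] (wt wt' : (Lb S → ℂ) → ℂ) (H : ML Y ι) (H' : ML Y ι'),
    Nice Q Y S ι wt H → Nice Q Y S ι' wt' H' → Nice Q Y S (ι ⊕ ι') (wt + wt') (mulML H H')

/-- **Nre**: reindexing, and elements of `QA` without determinants. PROOF. First part: `R' F :=
R (F.domDomCongr e)` (S_Alm). Second part: `σ = Empty`, `mulML (constant 1) H` reindexed is `H`. -/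
def S_Nre : Prop :=
  S_Alm → S_Qal → ∀ (Q : (T : AV) → (m : ℕ) → Hlg T m → Prop), Cl Q →
    ∀ (X : GF) (J : Type) [Fintype J] (S : J → Tp X) (Y : AV) (ι : Type) [Fintype ι],
    (∀ (ι' : Type) [Fintype ι'] (wt : (Lb S → ℂ) → ℂ) (H : ML Y ι) (e : ι ≃ ι'),
      Nice Q Y S ι wt H → Nice Q Y S ι' wt (H.domDomCongr e)) ∧
    ∀ (wt : (Lb S → ℂ) → ℂ) (H : ML Y ι), QA Q Y ι H →
      (∀ w : Lb S → ℂ, (∀ l : Lb S, w ⟨l.1, gl X.c l.2⟩ = -w l) → wt w = 0) → Nice Q Y S ι wt H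

/-- **Pol**: polarisation of determinants. PROOF. `det (x_(k_i) , l (a_i)) = ∑_π sgn π ∏_i
x_(i, π i)(a_i)`, `x_(i,l) = y l ∘ pull (κ i)`; reindexing by `π` cancels the sign in the
alternation: it is that of `∑_π ∏_l x_(π l, l)(a_l)`, and
`∑_(A ⊆ Fin r) (-1)^(r - |A|) ∏_l ∑_(i ∈ A) x_(i,l)(a_l) = ∑_(h : Fin r → Fin r)
[h onto] ∏_l x_(h l, l)(a_l)`. -/
def S_Pol : Prop :=
  ∀ (T Y : AV) (r : ℕ) (y : Fin r → ((T.V →ₗ[ℝ] ℂ) →ₗ[ℂ] ℂ)) (κ : Fin r → (T.V →ₗ[ℂ] Y.V))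
    (F : ML Y (Fin r)),
    (∀ a, F a = Matrix.det (Matrix.of fun i l => y l (pull (κ i) (a i)))) →
    MultilinearMap.alternatization F = MultilinearMap.alternatization
      (∑ A : Finset (Fin r), ((-1 : ℂ) ^ (r - A.card)) •
        prodML fun l => y l ∘ₗ pull (∑ i ∈ A, κ i))

/-- **Ndt**: a determinant block. PROOF. `W = range (eL l)`, `l = (j, φ)`; `W.subtype ∘ p_i ∈ CS` and
has values in `W`: it is `c_i eL l`. If `lb (u_i) ≠ l` for some `i`, then `eL l ∘ qU (u_i) = 0` and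
`G = 0`. Otherwise `G a = const det (coord (φ, l') ((outV (k_i) a_i) j))` (`d = r`: the vectors
`single b (φ, l')` are a basis of `W`), `outV k a j = pull (emb k j) a`; S_Pol, and a combination of
generators with `σ = Unit`, `ι' = Empty`. Weights: `∑_i w(l) = r w(l)`. -/
def S_Ndt : Prop :=
  S_Pol → S_Qal → S_Sub → ∀ (Q : (T : AV) → (m : ℕ) → Hlg T m → Prop), Cl Q →
    ∀ (X : GF) (J : Type) [Fintype J] (S : J → Tp X) (N : Type) [Fintype N] (Kc : N → J)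
    (C : Prd fun k => (S (Kc k)).T) (d : ℕ) (W : Submodule ℂ (VL S)), StS S W →
    ∀ (b : Module.Basis (Fin d) ℂ W) (p : Fin d → VL S →ₗ[ℂ] W),
    (∀ i, W.subtype ∘ₗ p i ∈ CS S) → ∀ (u : Fin d → Ub S Kc) (G : ML C.Y (Fin d)),
    (∀ a, G a = b.det fun i => p i (qU C (u i) (a i))) →
      Nice Q C.Y S (Fin d) (fun w => ∑ i, w (lb (u i))) G

/-- **Inv**: the class dual to the Riemann form is algebraic. PROOF. Complex basis `e_1, .., e_g` of
`T.V` orthonormal for the hermitian form `R(i u, v) + i R(u, v)` (or its conjugate), `z_j` the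
coordinates: `R(u, v) = ± ∑ Im (z_j(u) conj z_j(v))`; `f = κ ∑_j e_j ∧ i e_j`, `κ ≠ 0`. For
`A ⊆ Fin g` let `F_A = ∏_(j ∈ A) e_j ∧ i e_j`. `F_univ` is a multiple of the fundamental class
(`HC/P/Wtl.lean fund_class`; every class of degree `2 g` is a multiple of it, `L/E/Top`), and
`cap R F_A = κ' ∑_(j ∈ A) F_(A - j)`: so `∑_(|A| = g - k) F_A` is algebraic for all `k`, by induction;
`k = g - 1`. (`g = 0`: nothing.) `cap R`: `R` is `IsDiv` (`rat`, `herm`). -/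
def S_Inv : Prop :=
  ∀ (X : GF) (t : Tp X) (f : LinearMap.BilinForm ℂ (t.T.V →ₗ[ℝ] ℂ)), IsFrm t f →
    ∀ F : ML t.T (Fin 2), (∀ a, F a = f (a 0) (a 1)) → QA Alg t.T (Fin 2) F

/-- **Npr**: a pair block. PROOF. `c = ∑ c_l eL l`; `G a = c_(lb u_0) FRM (qU u_0 a_0) (qU u_1 a_1)`,
zero unless `lb u_1 = conj (lb u_0)` (`IsFrm.pr`); then the weight is `w(l) + w(conj l) = 0`, and by
S_Nre it remains `QA Q`. Let `j = (lb u_0).1`, `k, k'` the copies. For `x, x' ∈ E_j` (times a natural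
number, so that the maps preserve the lattices, `RatEnd`): `κ = emb k ∘ ρ x + emb k' ∘ ρ x'`,
`pullML κ F` (`F` of S_Inv) is in `QA`; polarise in `(x, x')` (if `k = k'`: in `x ↦ x + x'`):
the function `∑_φ τ(φ x) τ(c φ x') (f(pr φ a_k, b_k') + f(pr (c φ) a_k', b_k))` is in `QA` for all
`x`; linear independence of the `τ ∘ φ` (take `x' = 1`): each `φ`-term is in `QA`; its alternation is
twice that of `f(pr φ a_k, b_k')`. -/
def S_Npr : Prop :=
  S_Frm → S_Inv → S_Alm → S_Qal → S_Nre → S_Sub →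
    ∀ (Q : (T : AV) → (m : ℕ) → Hlg T m → Prop), Cl Q →
    ∀ (X : GF) (J : Type) [Fintype J] (S : J → Tp X)
    (f : ∀ j, LinearMap.BilinForm ℂ ((S j).T.V →ₗ[ℝ] ℂ)), (∀ j, IsFrm (S j) (f j)) →
    ∀ (N : Type) [Fintype N] (Kc : N → J) (C : Prd fun k => (S (Kc k)).T) (c : Module.End ℂ (VL S)),
    c ∈ CS S → ∀ (u : Fin 2 → Ub S Kc) (G : ML C.Y (Fin 2)),
    (∀ a, G a = FRM S f (c (qU C (u 0) (a 0))) (qU C (u 1) (a 1))) →
      Nice Q C.Y S (Fin 2) (fun w => ∑ i, w (lb (u i))) G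

/-- **Mon**: products of blocks. PROOF. Induction on `Mono`: constants (`ι = Fin 0`, S_Nre: every class
of degree 0 is algebraic, `HC/B/Pt.lean`), pairs S_Npr, determinants S_Ndt, products S_Nmu + S_Nre. -/
def S_Mon : Prop :=
  S_Nmu → S_Nre → S_Ndt → S_Npr → S_Frm → S_Inv → S_Alm → S_Qal → S_Sub → S_Pol →
    ∀ (Q : (T : AV) → (m : ℕ) → Hlg T m → Prop), Cl Q →
    ∀ (X : GF) (J : Type) [Fintype J] (S : J → Tp X)
    (f : ∀ j, LinearMap.BilinForm ℂ ((S j).T.V →ₗ[ℝ] ℂ)), (∀ j, IsFrm (S j) (f j)) →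
    ∀ (N : Type) [Fintype N] (Kc : N → J) (C : Prd fun k => (S (Kc k)).T) (q : ℕ)
    (M : (Fin q → VL S) → ℂ), Mono (FRM S f) (CS S) (StS S) q M → ∀ u : Fin q → Ub S Kc,
    ∃ G : ML C.Y (Fin q), (∀ a, G a = M fun p => qU C (u p) (a p)) ∧
      Nice Q C.Y S (Fin q) (fun w => ∑ i, w (lb (u i))) G

/-- **THEOREM M**. PROOF. `c = (1/m!) alternation of c.toMultilinearMap = ∑_u c ∘ piU u` (S_Exd, S_Qal).
If `c ∘ piU u ≠ 0`: balanced for all `g` (S_Bal). `c ∘ piU u = (c ∘ inV) ∘ qU u`, S_Kil, S_FFT: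
`c ∘ inV` is a combination of Monos, S_Mon; `Nice` with `R = QA Q` and S_TR: for a generator
`∑_p δ(g s_p) = ∑_p r_p w(s_p)` with `w(l) = δ(g l)/r_l` (odd by S_Odd; `r = 0`: then `δ = 0`) `= 0`, so
the determinants are in `QA` (S_TR), times `G ∈ QA` (S_Qal). -/
def S_M : Prop :=
  S_La → S_Frm → S_Sub → S_KdC → S_Cen → S_FFT → S_Jz → S_Exd → S_Kil → S_Cnj → S_Bal → S_Odd →
  S_Alm → S_Qal → S_Mon → S_Nmu → S_Nre → S_Ndt → S_Npr → S_Inv → S_Pol → S_TR →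
    ∀ (Q : (T : AV) → (m : ℕ) → Hlg T m → Prop), Cl Q →
    ∀ (X : GF) (J : Type) [Fintype J] (S : J → Tp X), (∀ j, Nonempty (DA Q (S j))) →
    ∀ (N : Type) [Fintype N] (Kc : N → J) (C : Prd fun k => (S (Kc k)).T) (m : ℕ) (c : Hlg C.Y m),
    IsHodge C.Y m c → KdY C c → Q C.Y m c

/-! ## The Lie algebra step -/

/-- **Lie**. `Z`, `E` as in `ThmB` (only what is needed). PROOF. `M_A` = the rational span of the set of
S_Lc2 for `A` (commuting rational endomorphisms, `mulI A` in the real span). `M` = the endomorphisms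
`X` of `T.V` with `ψ (X v) = (x (ψ v).1, (P (j n) ((ψ v).2 n))_n)`, `x ∈ M_A`, `P` a tuple of rational
endomorphisms: rational (S_IsoInv for the lattice in the other direction), and `mulI T ∈ span_ℝ M`
(S_Lc1 for the `J i`). S_La, S_Lb: `mulI T = ∑ ρ_s X_s`, `X_s ∈ M` kills `c` (`lieAct` is `SE.dact`).
`h` = the tuples `P` of rational endomorphisms such that some `(x, P)`, `x ∈ M_A`, kills `c`: closed
under commutators (S_La', the `A`-component of the commutator is `0`), `i` in the real span. `Big`: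
`P Q - Q P` is a real combination of commutators `X Y - Y X`, `X, Y ∈ h`, and `(0, X Y - Y X)` kills
`c`. -/
def S_Lie : Prop :=
  S_La → S_La' → S_Lb → S_Lc1 → S_Lc2 → E.S_IsoInv →
    ∀ (A T : AV) (q N : ℕ) (J : Fin q → AV) (j : Fin N → Fin q)
    (Z : ∀ i, Module.End ℂ (J i).V) (R : ∀ i, (J i).V →ₗ[ℝ] (J i).V →ₗ[ℝ] ℝ)
    (ψ : T.V ≃ₗ[ℂ] A.V × (∀ n, (J (j n)).V)), IsCM A → HC.SE.Big J Z R →
    (∀ v ∈ T.L, ∃ k : ℕ, k ≠ 0 ∧ k • (ψ v).1 ∈ A.L ∧ ∀ n, k • (ψ v).2 n ∈ (J (j n)).L) →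
    ∀ (d : ℕ) (c : Hlg T d), IsHodge T d c → HC.SE.SUK Z R ψ c

/-- **TB**. PROOF. S_Lie; `IsProdE` gives `ψ`. -/
theorem thmB_of (hK : HC.SE.ThmK) (hL : ∀ (A T : AV) (q N : ℕ) (J : Fin q → AV)
    (j : Fin N → Fin q) (Z : ∀ i, Module.End ℂ (J i).V)
    (R : ∀ i, (J i).V →ₗ[ℝ] (J i).V →ₗ[ℝ] ℝ)
    (ψ : T.V ≃ₗ[ℂ] A.V × (∀ n, (J (j n)).V)), IsCM A → HC.SE.Big J Z R →
    (∀ v ∈ T.L, ∃ k : ℕ, k ≠ 0 ∧ k • (ψ v).1 ∈ A.L ∧ ∀ n, k • (ψ v).2 n ∈ (J (j n)).L) →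
    ∀ (d : ℕ) (c : Hlg T d), IsHodge T d c → HC.SE.SUK Z R ψ c) : HC.SE.ThmB := by
  intro A T q N J j m r s b D E hA hc hP hB hT d c hcc
  obtain ⟨ψ, hψ⟩ := hT
  exact hK A T q N J j m r s b D E ψ hA hc hP hψ d c hcc
    (hL A T q N J j (fun i => (D i).Z) E ψ hA hB hψ d c hcc)

/-- **Kf**: THEOREM K for abstract types. `JT i` are the types of the factors `J i`. PROOF. S_Acm for
`A`, `X` must contain its fields; `SA`; `S = Sum.elim SA t` on `Fin n ⊕ Fin q`, copies `Fin n ⊕ Fin N`,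
`Kc = Sum.map id j`; `C` an exact product (S_Pex); `T → C.Y` an isogeny `φ` with `φ L ⊂ L` and an
isogeny back `φ'`, `φ' φ = k` (`S_IsoInv`, finitely generated lattices); `push φ c` is a Hodge class
(`tPushH`), `KdY`: for linear skew families `U`, `U'` of `S` the components at `Fin n` commute (rank 1:
they act by scalars on the one dimensional `W_φ`), the components at `Fin q` are in `Lef`; so by `SUK`
the diagonal commutator kills `c`, and `push φ c`. S_M for `Q`; `push φ' (push φ c) = k^d c`. -/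
def S_Kf : Prop :=
  ∀ (Q : (T : AV) → (m : ℕ) → Hlg T m → Prop), Cl Q →
    (∀ (X : GF) (J : Type) [Fintype J] (S : J → Tp X), (∀ j, Nonempty (DA Q (S j))) →
      ∀ (N : Type) [Fintype N] (Kc : N → J) (C : Prd fun k => (S (Kc k)).T) (m : ℕ)
      (c : Hlg C.Y m), IsHodge C.Y m c → KdY C c → Q C.Y m c) →
    (∀ (X : GF) (t : Tp X), IsCM t.T → t.B.Pure → Nonempty (DA Q t)) →
    ∀ (A : AV) (n : ℕ) (X : GF) (SA : Fin n → Tp X),
    (∀ i, (SA i).r = 1 ∧ IsCM (SA i).T ∧ (SA i).B.Pure) →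
    (∀ P : Prd fun i => (SA i).T, ∃ ψ : A.V ≃ₗ[ℂ] P.Y.V, ∀ v ∈ A.L, ∃ N : ℕ, N ≠ 0 ∧
        N • ψ v ∈ P.Y.L) →
    ∀ (T : AV) (q N : ℕ) (t : Fin q → Tp X) (j : Fin N → Fin q)
    (Z : ∀ i, Module.End ℂ (t i).T.V), (∀ i, ∃ ζ, (t i).B.ρ ζ = Z i) →
    (∀ i, Nonempty (DA Q (t i))) → ∀ (ψ : T.V ≃ₗ[ℂ] A.V × (∀ n, (t (j n)).T.V)),
    (∀ v ∈ T.L, ∃ k : ℕ, k ≠ 0 ∧ k • (ψ v).1 ∈ A.L ∧ ∀ n, k • (ψ v).2 n ∈ (t (j n)).T.L) →
    ∀ (d : ℕ) (c : Hlg T d), IsHodge T d c → HC.SE.SUK Z (fun i => (t i).R) ψ c → Q T d c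

/-! ## Existence of the data -/

/-- **Gex**: a Galois number field containing all `E i`. -/
def S_Gex : Prop :=
  ∀ (n : ℕ) (E : Fin n → Type) [∀ i, Field (E i)] [∀ i, NumberField (E i)],
    ∃ X : GF, ∀ i, Nonempty (E i →+* X.K)

/-- **Pex**: products exist; products of CM abelian varieties are CM. PROOF. `V = ∀ k, (T k).V`, `L` the
submodule of the families of lattice vectors, the sum of the Riemann forms; or induction with `Pd`
(S_L0) and S_CMP (`HC/L/E/Cm.lean`). -/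
def S_Pex : Prop :=
  (∀ (ι : Type) [Fintype ι] (T : ι → AV), Nonempty (Prd T)) ∧
  ∀ (ι : Type) [Fintype ι] (T : ι → AV) (P : Prd T), (∀ i, IsCM (T i)) → IsCM P.Y

/-- **Bex**: coordinates exist. PROOF. `H = ℚ L` (rational multiples of lattice vectors) is an `E`-vector
space of dimension `r = 2 dim T / [E:ℚ]`; an `E`-basis `e_1, .., e_r` gives `y : H → E^r`, bijective,
and for a label `φ` the function `τ ∘ φ ∘ y_i` on `H` extends to a real linear `b (φ,i)` (lattice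
basis). They are `2 dim T` functions; linearly independent: for a `ℚ`-basis `β` of `E` the matrix
`(τ φ β_k)_(φ,k)` is invertible (`φ` runs over all `[E:ℚ]` embeddings `E → K`: `K` is Galois and
contains `E`). -/
def S_Bex : Prop :=
  ∀ (X : GF) (T : AV) (E : Type) [Field E] [NumberField E] (ρ : E →+* Module.End ℂ T.V),
    (∀ x, RatEnd T ((ρ x).restrictScalars ℝ)) → Nonempty (E →+* X.K) →
    ∃ (r : ℕ) (B : Blk X T E r), B.ρ = ρ ∧ r * Module.finrank ℚ E = 2 * Module.finrank ℂ T.V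

/-- **Cex**: the CM abelian varieties `ℂ^Φ/Φ(O_E)` as types of rank 1. PROOF. `HC/P/Pol.lean`
(`exists_pol` and its proof: `R(u,v) = ∑_(φ ∈ Φ) 2 Im(φ ξ) Re .. `, which is `tr(ξ u conj v)`, so `adj`),
`HC/C/Main.lean`, `HC/Z` for the basis. `IsCM`: the definition with `n = 1`. -/
def S_Cex : Prop :=
  ∀ (X : GF) (E : Type) [Field E] [NumberField E] [NumberField.IsCMField E],
    Nonempty (E →+* X.K) → ∀ Φ : Set (E →+* ℂ), IsType Φ →
    ∃ t : Tp X, IsCM t.T ∧ t.r = 1 ∧ t.B.Pure ∧ ∃ (e : E ≃+* t.E) (ψ : t.T.V ≃ₗ[ℂ] (Φ → ℂ)),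
      (∀ v, v ∈ t.T.L ↔ ∃ y : E, IsIntegral ℤ y ∧ ∀ φ : Φ, ψ v φ = φ.1 y) ∧
      (∀ (φ : t.E →+* X.K) (i : Fin t.r) (h : (X.τ.comp φ).comp (e : E →+* t.E) ∈ Φ) (v),
        t.B.b (φ, i) v = ψ v ⟨_, h⟩) ∧
      ∀ (φ : t.E →+* X.K) (i : Fin t.r) (h : (X.τ.comp (gl X.c φ)).comp (e : E →+* t.E) ∈ Φ) (v),
        t.B.b (φ, i) v = conj (ψ v ⟨_, h⟩)

/-- **Acm**: a CM abelian variety is isogenous to a product of such. PROOF. The definition of `IsCM`;
`N L` lies in the product of the rings of integers for a suitable `N`. -/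
def S_Acm : Prop :=
  ∀ A : AV, IsCM A → ∃ (n : ℕ) (E : Fin n → Type) (_ : ∀ i, Field (E i))
    (_ : ∀ i, NumberField (E i)), ∀ X : GF, (∀ i, Nonempty (E i →+* X.K)) →
    ∃ SA : Fin n → Tp X, (∀ i, (SA i).r = 1 ∧ IsCM (SA i).T ∧ (SA i).B.Pure) ∧
      ∀ P : Prd fun i => (SA i).T, ∃ ψ : A.V ≃ₗ[ℂ] P.Y.V, ∀ v ∈ A.L, ∃ N : ℕ, N ≠ 0 ∧
        N • ψ v ∈ P.Y.L

/-- **Dcm**: `DA` for pure types of rank 1 (any rank). PROOF. `C = T`, `BC = B`; the tuple
`(φ, i)_i, (c φ, i)_i` is balanced on `T × T` (S_Odd / purity): CMbal of helper96 (from HodgeCM), and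
`Cl.base`. -/
def S_Dcm : Prop :=
  HodgeCM → ∀ (Q : (T : AV) → (m : ℕ) → Hlg T m → Prop), Cl Q → ∀ (X : GF) (t : Tp X), IsCM t.T →
    t.B.Pure → Nonempty (DA Q t)

end SE
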