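import Pool.Agent.Lib.SE.W.Spec

/-! # PROJECT SE, part S7, module Acm: abelian varieties of CM type and types of rank 1 -/

set_option autoImplicit false

open scoped ComplexConjugate
open HC

noncomputable section

namespace SE

namespace Acm_aux

lemma exists_mul (E : Type) [Field E] [NumberField E] (z : E) :
    ∃ N : ℕ, N ≠ 0 ∧ IsIntegral ℤ ((N : E) * z) := by
  have h1 : IsAlgebraic ℤ z :=
    (IsFractionRing.isAlgebraic_iff ℤ ℚ E).2 (Algebra.IsAlgebraic.isAlgebraic z)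
  obtain ⟨y, hy, hz⟩ := h1.exists_integral_multiple
  refine ⟨y.natAbs, Int.natAbs_ne_zero.2 hy, ?_⟩
  rw [zsmul_eq_mul] at hz
  rcases Int.natAbs_eq y with h | h
  · rw [h] at hz
    simpa using hz
  · rw [h] at hz
    have := hz.neg
    simpa using this

lemma exists_mul_fin {n : ℕ} (E : Fin n → Type) [∀ i, Field (E i)] [∀ i, NumberField (E i)]
    (y : ∀ i, E i) : ∃ N : ℕ, N ≠ 0 ∧ ∀ i, IsIntegral ℤ ((N : E i) * y i) := by
  choose N hN hI using fun i => exists_mul (E i) (y i)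
  refine ⟨∏ i, N i, Finset.prod_ne_zero_iff.2 fun i _ => hN i, fun i => ?_⟩
  rw [← Finset.prod_erase_mul _ _ (Finset.mem_univ i), Nat.cast_mul, mul_assoc]
  exact IsIntegral.mul (isIntegral_natCast _) (hI i)

end Acm_aux

theorem tAcm (h : S_Cex) : S_Acm := by
  intro A hA
  obtain ⟨n, E, iF, iN, iC, Φ, hΦ, ψ, hψ⟩ := hA
  refine ⟨n, E, iF, iN, fun X hX => ?_⟩
  choose SA h1 h2 h3 e ψ' hl _ _ using fun i => h X (E i) (hX i) (Φ i) (hΦ i)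
  refine ⟨SA, fun i => ⟨h2 i, h1 i, h3 i⟩, fun P => ?_⟩
  let F : (((s : (i : Fin n) × Φ i) → ℂ)) ≃ₗ[ℂ] (∀ k, (SA k).T.V) :=
    (LinearEquiv.piCurry ℂ (fun (i : Fin n) (_ : Φ i) => ℂ)) ≪≫ₗ
      LinearEquiv.piCongrRight (fun i => (ψ' i).symm)
  refine ⟨(ψ ≪≫ₗ F) ≪≫ₗ P.ψ.symm, fun v hv => ?_⟩
  obtain ⟨y, hy⟩ := hψ v hv
  obtain ⟨N, hN, hI⟩ := Acm_aux.exists_mul_fin E y
  refine ⟨N, hN, (P.lat _).2 fun k => (hl k _).2 ⟨(N : E k) * y k, hI k, fun φ => ?_⟩⟩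
  have h5 : P.ψ (N • (((ψ ≪≫ₗ F) ≪≫ₗ P.ψ.symm) v)) = N • F (ψ v) := by
    rw [map_nsmul]
    simp
  rw [h5, Pi.smul_apply, map_nsmul, Pi.smul_apply]
  have h6 : F (ψ v) k = (ψ' k).symm (fun φ => ψ v ⟨k, φ⟩) := rfl
  rw [h6, LinearEquiv.apply_symm_apply, hy k φ]
  simp

end SE
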