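import Pool.Agent.Lib.SE.W.Spec

/-!
# PROJECT SE, part S7: balancedness (S_Bal)
-/

set_option autoImplicit false

open scoped ComplexConjugate
open HC

noncomputable section

namespace SE

/-- **Bal**. -/
theorem tBal : S_Bal := by
  intro hLa hFrm hSub hKdC hCen hJz hKil hCnj X J _ S N _ Kc C m c hc hk u hu g
  have h1 := hCnj X J S N Kc C m c hc u g hu
  obtain ⟨a, ha⟩ : ∃ a, (c.toMultilinearMap.compLinearMap fun p => piU C (gU g (u p))) a ≠ 0 := by
    by_contra hcon
    push Not at hcon
    exact h1 (MultilinearMap.ext fun a => hcon a)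
  choose f hf using hFrm X
  obtain ⟨hK1, hK2⟩ := hKil X J S N Kc C m c (fun p => (u p).1)
  exact hJz hSub hKdC hCen X J S (fun j => f (S j)) (fun j => hf (S j)) m
    (c.toMultilinearMap.compLinearMap fun p => inV C (u p).1) (hK1 hk)
    (hK2 (hLa C.Y m c hc)) (fun p => lb (gU g (u p)))
    (fun p => outV C (u p).1 (a p)) ha

end SE
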