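import Pool.Agent.Lib.SE.W.Spec

/-!
# PROJECT SE, part S7: the centre of the Lie algebra `InL` (module Cen)
-/

set_option autoImplicit false

open scoped ComplexConjugate
open HC
open Pool.Agent.Lib.MP_640417_ag.Fg (Mono InL)

noncomputable section

namespace SE

namespace Cen_aux

variable {X : GF} {J : Type}

/-- the conjugate label -/
def cj (S : J → Tp X) (l : Lb S) : Lb S := ⟨l.1, gl X.c l.2⟩

lemma c_c (x : X.K) : X.c (X.c x) = x :=
  X.τ.injective (by rw [X.hc, X.hc, Complex.conj_conj])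

lemma gl_gl {E : Type} [Field E] (φ : E →+* X.K) : gl X.c (gl X.c φ) = φ := by
  ext x
  exact c_c (φ x)

lemma cj_cj (S : J → Tp X) (l : Lb S) : cj S (cj S l) = l := by
  obtain ⟨j, φ⟩ := l
  unfold cj
  simp only [gl_gl]

lemma cj_ne (S : J → Tp X) (l : Lb S) : cj S l ≠ l := by
  intro h
  obtain ⟨j, φ⟩ := l
  have h2 : gl X.c φ = φ := by
    unfold cj at h
    simpa using h
  obtain ⟨x, hx⟩ := (S j).tc
  apply hx
  apply φ.injective
  rw [(S j).hinv]
  exact RingHom.congr_fun h2 x

section
variable {T : AV} {E : Type} [Field E] [NumberField E] {r : ℕ} (B : Blk X T E r)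

open Classical in
lemma pr_b (φ ψ : E →+* X.K) (i : Fin r) :
    B.pr φ (B.b (ψ, i)) = if φ = ψ then B.b (ψ, i) else 0 := by
  unfold Blk.pr
  rw [LinearMap.sum_apply]
  simp only [LinearMap.smulRight_apply, Module.Basis.coord_apply, Module.Basis.repr_self,
    Finsupp.single_apply, Prod.mk.injEq]
  by_cases h : φ = ψ
  · subst h
    simp
  · have h' : ¬ ψ = φ := fun e => h e.symm
    simp [h, h']

lemma pr_pr (φ : E →+* X.K) (a : T.V →ₗ[ℝ] ℂ) : B.pr φ (B.pr φ a) = B.pr φ a := by
  have : B.pr φ ∘ₗ B.pr φ = B.pr φ := by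
    refine B.b.ext fun q => ?_
    obtain ⟨ψ, i⟩ := q
    rw [LinearMap.comp_apply, pr_b]
    by_cases h : φ = ψ
    · subst h
      simp [pr_b]
    · simp [h]
  exact LinearMap.congr_fun this a

lemma pr_pr_ne {φ ψ : E →+* X.K} (h : φ ≠ ψ) (a : T.V →ₗ[ℝ] ℂ) : B.pr φ (B.pr ψ a) = 0 := by
  have : B.pr φ ∘ₗ B.pr ψ = 0 := by
    refine B.b.ext fun q => ?_
    obtain ⟨χ, i⟩ := q
    rw [LinearMap.comp_apply, pr_b]
    by_cases h' : ψ = χ
    · subst h'
      simp [pr_b, h]
    · simp [h']
  exact LinearMap.congr_fun this a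

lemma sum_pr (a : T.V →ₗ[ℝ] ℂ) : ∑ φ, B.pr φ a = a := by
  have : ∑ φ, B.pr φ = LinearMap.id := by
    refine B.b.ext fun q => ?_
    obtain ⟨χ, i⟩ := q
    rw [LinearMap.sum_apply, Finset.sum_eq_single χ]
    · rw [pr_b, if_pos rfl, LinearMap.id_apply]
    · intro ψ _ h
      rw [pr_b, if_neg h]
    · intro h
      exact absurd (Finset.mem_univ _) h
  have h2 := LinearMap.congr_fun this a
  rwa [LinearMap.sum_apply, LinearMap.id_apply] at h2

end

section
variable (S : J → Tp X)

open Classical in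
lemma eL_apply (l : Lb S) (a : VL S) :
    eL S l a = Pi.single l.1 ((S l.1).B.pr l.2 (a l.1)) := rfl

lemma eL_eL (l : Lb S) (a : VL S) : eL S l (eL S l a) = eL S l a := by
  classical
  rw [eL_apply, eL_apply, Pi.single_eq_same, pr_pr]

lemma eL_eL_ne {l m : Lb S} (h : l ≠ m) (a : VL S) : eL S l (eL S m a) = 0 := by
  classical
  obtain ⟨j, φ⟩ := l
  obtain ⟨j', ψ⟩ := m
  rw [eL_apply, eL_apply]
  by_cases hj : j = j'
  · subst hj
    have hφ : φ ≠ ψ := fun e => h (by rw [e])
    simp only [Pi.single_eq_same]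
    rw [pr_pr_ne _ hφ, Pi.single_zero]
  · simp only
    rw [Pi.single_eq_of_ne hj, map_zero, Pi.single_zero]

lemma sum_eL [Fintype J] (a : VL S) : ∑ l, eL S l a = a := by
  classical
  rw [Fintype.sum_sigma]
  have : ∀ j, ∑ φ : (S j).E →+* X.K, eL S ⟨j, φ⟩ a = Pi.single j (a j) := by
    intro j
    simp only [eL_apply]
    have h1 := map_sum (LinearMap.single ℂ (fun j => ((S j).T.V →ₗ[ℝ] ℂ)) j)
      (fun φ : (S j).E →+* X.K => (S j).B.pr φ (a j)) Finset.univ
    rw [sum_pr] at h1
    exact h1.symm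
  simp only [this]
  exact Finset.univ_sum_single a

variable [Fintype J] (f : ∀ j, LinearMap.BilinForm ℂ ((S j).T.V →ₗ[ℝ] ℂ))

lemma FRM_apply (a b : VL S) : FRM S f a b = ∑ j, f j (a j) (b j) := by
  unfold FRM
  simp [LinearMap.sum_apply, LinearMap.compl₁₂_apply]

variable {f} (hf : ∀ j, IsFrm (S j) (f j))
include hf

lemma FRM_alt (a b : VL S) : FRM S f a b = - FRM S f b a := by
  rw [FRM_apply, FRM_apply, ← Finset.sum_neg_distrib]
  exact Finset.sum_congr rfl fun j _ => (hf j).alt _ _

lemma FRM_nd (a : VL S) (h : ∀ b, FRM S f a b = 0) : a = 0 := by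
  classical
  funext j
  refine (hf j).nd _ fun b => ?_
  have := h (Pi.single j b)
  rw [FRM_apply, Finset.sum_eq_single j] at this
  · rwa [Pi.single_eq_same] at this
  · intro j' _ hj'
    rw [Pi.single_eq_of_ne hj', map_zero]
  · intro h
    exact absurd (Finset.mem_univ j) h

lemma FRM_eL (l : Lb S) (a b : VL S) : FRM S f (eL S l a) b = FRM S f a (eL S (cj S l) b) := by
  classical
  rw [FRM_apply, FRM_apply, Finset.sum_eq_single l.1, Finset.sum_eq_single l.1]
  · rw [eL_apply, eL_apply, Pi.single_eq_same]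
    have : (cj S l).1 = l.1 := rfl
    unfold cj
    simp only [Pi.single_eq_same]
    exact (hf l.1).pr _ _ _
  · intro j' _ hj'
    rw [eL_apply]
    have : Pi.single (M := fun j => ((S j).T.V →ₗ[ℝ] ℂ)) (cj S l).1
      ((S (cj S l).1).B.pr (cj S l).2 (b (cj S l).1)) j' = 0 := Pi.single_eq_of_ne hj' _
    rw [this, map_zero]
  · intro h
    exact absurd (Finset.mem_univ _) h
  · intro j' _ hj'
    rw [eL_apply, Pi.single_eq_of_ne hj', map_zero, LinearMap.zero_apply]
  · intro h
    exact absurd (Finset.mem_univ _) h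

omit hf in
/-- the operator `z ↦ (y, z) x + (x, z) y` -/
def DD (f : ∀ j, LinearMap.BilinForm ℂ ((S j).T.V →ₗ[ℝ] ℂ)) (x y : VL S) :
    Module.End ℂ (VL S) :=
  (FRM S f y).smulRight x + (FRM S f x).smulRight y

lemma DD_InL (C : Subalgebra ℂ (Module.End ℂ (VL S))) (hC : (C : Set _) = CS S) (l : Lb S)
    (x y : VL S) (hx : eL S l x = x) (hy : eL S (cj S l) y = y) :
    InL (FRM S f) C (DD S f x y) := by
  have key : ∀ m z, eL S m (DD S f x y z) = DD S f x y (eL S m z) := by
    intro m z
    unfold DD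
    simp only [LinearMap.add_apply, LinearMap.smulRight_apply, map_add, map_smul]
    have e1 : FRM S f y (eL S m z) = FRM S f (eL S (cj S m) y) z := by
      rw [FRM_eL S hf, cj_cj]
    have e2 : FRM S f x (eL S m z) = FRM S f (eL S (cj S m) x) z := by
      rw [FRM_eL S hf, cj_cj]
    rw [e1, e2]
    congr 1
    · by_cases h : m = l
      · subst h
        rw [hx, hy]
      · have h1 : eL S m x = 0 := by rw [← hx]; exact eL_eL_ne S h x
        have h2 : eL S (cj S m) y = 0 := by
          rw [← hy]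
          refine eL_eL_ne S (fun e => h ?_) y
          rw [← cj_cj S m, e, cj_cj]
        rw [h1, h2]
        simp
    · by_cases h : m = cj S l
      · subst h
        rw [cj_cj, hx, hy]
      · have h1 : eL S m y = 0 := by rw [← hy]; exact eL_eL_ne S h y
        have h2 : eL S (cj S m) x = 0 := by
          rw [← hx]
          refine eL_eL_ne S (fun e => h ?_) x
          rw [← cj_cj S m, e]
        rw [h1, h2]
        simp
  refine ⟨?_, ?_⟩
  · intro c hc
    have hc' : c ∈ CS S := by rw [← hC]; exact hc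
    obtain ⟨k, rfl⟩ := hc'
    refine LinearMap.ext fun z => ?_
    simp only [Module.End.mul_apply, LinearMap.sum_apply, LinearMap.smul_apply, map_sum,
      map_smul]
    exact Finset.sum_congr rfl fun m _ => by rw [key]
  · intro z w
    unfold DD
    simp only [LinearMap.add_apply, LinearMap.smulRight_apply, map_add, map_smul,
      LinearMap.smul_apply, smul_eq_mul]
    rw [FRM_alt S hf z x, FRM_alt S hf z y]
    ring

end

end Cen_aux

open Cen_aux in
theorem tCen : S_Cen := by
  intro X J _ S f hf C hC Z hZ hcen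
  have hem : ∀ l, eL S l ∈ C := by
    classical
    intro l
    have : eL S l ∈ CS S := ⟨Pi.single l 1, by
      rw [Finset.sum_eq_single l]
      · simp
      · intro m _ hm
        rw [Pi.single_eq_of_ne hm, zero_smul]
      · intro h
        exact absurd (Finset.mem_univ l) h⟩
    rw [← hC] at this
    exact this
  have hZe : ∀ l z, Z (eL S l z) = eL S l (Z z) := by
    intro l z
    have := hZ.1 _ (hem l)
    exact LinearMap.congr_fun this z
  have hsc : ∀ l, ∃ c : ℂ, ∀ z, Z (eL S l z) = c • eL S l z := by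
    intro l
    by_cases h0 : ∀ z, eL S l z = 0
    · exact ⟨0, fun z => by rw [h0 z]; simp⟩
    push Not at h0
    obtain ⟨z0, hz0⟩ := h0
    set w := eL S l z0 with hw
    have hw1 : eL S l w = w := eL_eL S l z0
    obtain ⟨y', hy'⟩ : ∃ y', FRM S f w y' ≠ 0 := by
      by_contra hcon
      push Not at hcon
      exact hz0 (FRM_nd S hf w hcon)
    set y := eL S (cj S l) y' with hy
    have hyy : eL S (cj S l) y = y := eL_eL S _ y'
    have hyw : FRM S f y w ≠ 0 := by
      rw [FRM_alt S hf, hy, ← FRM_eL S hf, hw1]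
      exact neg_ne_zero.2 hy'
    refine ⟨FRM S f y (Z w) / FRM S f y w, fun x' => ?_⟩
    set x := eL S l x' with hx
    have hxx : eL S l x = x := eL_eL S l x'
    have hD := hcen _ (DD_InL S hf C hC l x y hxx hyy)
    have hDw := LinearMap.congr_fun hD w
    simp only [Module.End.mul_apply, DD, LinearMap.add_apply, LinearMap.smulRight_apply,
      map_add, map_smul] at hDw
    have hne : cj S l ≠ l := cj_ne S l
    have q1 : FRM S f x w = 0 := by
      rw [← hxx, FRM_eL S hf, ← hw1, eL_eL_ne S hne, map_zero]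
    have q2 : FRM S f x (Z w) = 0 := by
      rw [← hxx, FRM_eL S hf, ← hw1, hZe, eL_eL_ne S hne, map_zero]
    rw [q1, q2, zero_smul, zero_smul, add_zero, add_zero] at hDw
    rw [div_eq_inv_mul, mul_smul, ← hDw, smul_smul, inv_mul_cancel₀ hyw, one_smul]
  choose c hc using hsc
  have hZC : Z ∈ CS S := by
    refine ⟨c, LinearMap.ext fun z => ?_⟩
    rw [LinearMap.sum_apply]
    calc Z z = Z (∑ l, eL S l z) := by rw [sum_eL]
      _ = ∑ l, c l • eL S l z := by
        rw [map_sum]
        exact Finset.sum_congr rfl fun l _ => hc l z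
      _ = ∑ l, (c l • eL S l) z := rfl
  rw [← hC] at hZC
  exact hZC

end SE
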