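import Pool.Agent.Lib.SE.W.Spec
import Pool.Agent.Lib.SE.S5.CmB

/-!
# PROJECT SE, part W, module Cex (helper12): `ℂ^Φ / Φ(O_E)` as a `Tp` of rank 1
-/

set_option autoImplicit false

open scoped ComplexConjugate
open NumberField

noncomputable section

namespace SE
namespace Cex_aux

open HC HC.SE S5

variable {E : Type} [Field E] {Φ : Set (E →+* ℂ)}

section
variable [NumberField E]

/-- The Riemann form. -/
def RF (T : Cm1 E Φ) (y : Φ → ℝ) : T.T.V →ₗ[ℝ] T.T.V →ₗ[ℝ] ℝ :=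
  LinearMap.mk₂ ℝ (fun u v => ∑ s : Φ, 2 * (y s * ((T.ψ u s).re * (T.ψ v s).im -
      (T.ψ u s).im * (T.ψ v s).re)))
    (fun u u' v => by
      rw [← Finset.sum_add_distrib]
      refine Finset.sum_congr rfl fun s _ => ?_
      rw [map_add, Pi.add_apply, Complex.add_re, Complex.add_im]
      ring)
    (fun c u v => by
      rw [smul_eq_mul, Finset.mul_sum]
      refine Finset.sum_congr rfl fun s _ => ?_
      have h : T.ψ (c • u) = c • T.ψ u := T.ψ.map_smul_of_tower c u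
      rw [h, Pi.smul_apply, Complex.smul_re, Complex.smul_im, smul_eq_mul, smul_eq_mul]
      ring)
    (fun u v v' => by
      rw [← Finset.sum_add_distrib]
      refine Finset.sum_congr rfl fun s _ => ?_
      rw [map_add, Pi.add_apply, Complex.add_re, Complex.add_im]
      ring)
    (fun c u v => by
      rw [smul_eq_mul, Finset.mul_sum]
      refine Finset.sum_congr rfl fun s _ => ?_
      have h : T.ψ (c • v) = c • T.ψ v := T.ψ.map_smul_of_tower c v
      rw [h, Pi.smul_apply, Complex.smul_re, Complex.smul_im, smul_eq_mul, smul_eq_mul]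
      ring)

theorem RF_apply (T : Cm1 E Φ) (y : Φ → ℝ) (u v : T.T.V) : RF T y u v =
    ∑ s : Φ, 2 * (y s * ((T.ψ u s).re * (T.ψ v s).im - (T.ψ u s).im * (T.ψ v s).re)) := rfl

theorem RF_alt (T : Cm1 E Φ) (y : Φ → ℝ) (u v : T.T.V) : RF T y u v = -RF T y v u := by
  rw [RF_apply, RF_apply, ← Finset.sum_neg_distrib]
  refine Finset.sum_congr rfl fun s _ => ?_
  ring

theorem RF_herm (T : Cm1 E Φ) (y : Φ → ℝ) (u v : T.T.V) :
    RF T y (Complex.I • u) (Complex.I • v) = RF T y u v := by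
  rw [RF_apply, RF_apply]
  refine Finset.sum_congr rfl fun s _ => ?_
  rw [map_smul, map_smul, Pi.smul_apply, Pi.smul_apply, smul_eq_mul, smul_eq_mul]
  simp only [Complex.mul_re, Complex.mul_im, Complex.I_re, Complex.I_im]
  ring

theorem RF_pos (T : Cm1 E Φ) (y : Φ → ℝ) (hy : ∀ s, y s < 0) (v : T.T.V) (hv : v ≠ 0) :
    0 < RF T y (Complex.I • v) v := by
  rw [RF_apply]
  have h1 : ∀ s : Φ, 2 * (y s * ((T.ψ (Complex.I • v) s).re * (T.ψ v s).im -
      (T.ψ (Complex.I • v) s).im * (T.ψ v s).re)) = 2 * (-y s) * Complex.normSq (T.ψ v s) := by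
    intro s
    rw [map_smul, Pi.smul_apply, smul_eq_mul, Complex.normSq_apply]
    simp only [Complex.mul_re, Complex.mul_im, Complex.I_re, Complex.I_im]
    ring
  rw [Finset.sum_congr rfl fun s _ => h1 s]
  have hv2 : T.ψ v ≠ 0 := fun h => hv (T.ψ.map_eq_zero_iff.1 h)
  obtain ⟨s, hs⟩ := Function.ne_iff.mp hv2
  refine Finset.sum_pos' (fun s _ => ?_) ⟨s, Finset.mem_univ s, ?_⟩
  · have := hy s
    exact mul_nonneg (by linarith) (Complex.normSq_nonneg _)
  · have := hy s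
    exact mul_pos (by linarith) (Complex.normSq_pos.2 hs)

theorem RF_adj [IsCMField E] (T : Cm1 E Φ) (y : Φ → ℝ) (x : E) (u v : T.T.V) :
    RF T y (rhoC T x u) v = RF T y u (rhoC T (IsCMField.complexConj E x) v) := by
  rw [RF_apply, RF_apply]
  refine Finset.sum_congr rfl fun s _ => ?_
  rw [psi_rho, psi_rho, emb_cconj]
  simp only [Complex.mul_re, Complex.mul_im, Complex.conj_re, Complex.conj_im]
  ring

theorem RF_rat [IsCMField E] (T : Cm1 E Φ) (y : Φ → ℝ)
    (hy : ∀ x x' : E, IsIntegral ℤ x → IsIntegral ℤ x' → ∃ m : ℤ,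
        ∑ s : Φ, 2 * (y s * ((s.1 x).re * (s.1 x').im - (s.1 x).im * (s.1 x').re)) = m)
    (u : T.T.V) (hu : u ∈ T.T.L) (v : T.T.V) (hv : v ∈ T.T.L) : ∃ n : ℤ, RF T y u v = n := by
  obtain ⟨x, hx, hxu⟩ := (T.lat u).1 hu
  obtain ⟨x', hx', hxv⟩ := (T.lat v).1 hv
  obtain ⟨m, hm⟩ := hy x x' hx hx'
  refine ⟨m, ?_⟩
  rw [← hm, RF_apply]
  refine Finset.sum_congr rfl fun s _ => ?_
  rw [hxu, hxv]

end

/-- `ℂ^Φ / Φ(O_E)` is of CM type. -/
theorem cm_isCM [NumberField E] [IsCMField E] (hΦ : IsType Φ) (T : Cm1 E Φ) : IsCM T.T := by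
  refine ⟨1, fun _ => E, fun _ => inferInstance, fun _ => inferInstance, fun _ => inferInstance,
    fun _ => Φ, fun _ => hΦ, T.ψ ≪≫ₗ LinearEquiv.funCongrLeft ℂ ℂ
      (Equiv.uniqueSigma (fun _ : Fin 1 => Φ)), ?_⟩
  intro v hv
  obtain ⟨y, -, hy⟩ := (T.lat v).1 hv
  refine ⟨fun _ => y, fun i φ => ?_⟩
  have h : i = 0 := Subsingleton.elim _ _
  subst h
  exact hy φ

end Cex_aux

open HC HC.SE S5 Cex_aux

theorem tCex : S_Cex := by
  intro X E _ _ _ hE Φ hΦ
  obtain ⟨T⟩ := cm1 E Φ hΦ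
  obtain ⟨B, hB, hρ⟩ := blk1 T X hE hΦ
  obtain ⟨y, hy0, hy⟩ := exists_ty Φ hΦ
  have hinv : ∀ (φ : E →+* X.K) (x : E), φ (IsCMField.complexConj E x) = X.c (φ x) := by
    intro φ x
    apply X.τ.injective
    rw [X.hc]
    exact IsCMField.complexEmbedding_complexConj E (X.τ.comp φ) x
  let t : Tp X :=
    { T := T.T
      E := E
      r := 1
      B := B
      inv := (IsCMField.complexConj E).toRingEquiv
      hinv := hinv
      tc := by
        by_contra h
        push Not at h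
        exact IsCMField.complexConj_ne_one E (AlgEquiv.ext h)
      R := RF T y
      rat := RF_rat T y hy
      alt := RF_alt T y
      herm := RF_herm T y
      pos := RF_pos T y hy0
      adj := fun x u v => by
        rw [hρ]
        exact RF_adj T y x u v }
  refine ⟨t, cm_isCM hΦ T, rfl, ?_, RingEquiv.refl E, T.ψ, T.lat, ?_, ?_⟩
  · intro φ i
    classical
    refine ⟨if X.τ.comp φ ∈ Φ then Complex.I else -Complex.I, ?_, fun v => ?_⟩
    · split_ifs
      · exact Or.inl rfl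
      · exact Or.inr rfl
    · show B.b (φ, i) (Complex.I • v) = _ * B.b (φ, i) v
      rw [hB, w_I T hΦ]
  · intro φ i h v
    show B.b (φ, i) v = _
    rw [hB]
    exact w_mem T h v
  · intro φ i h v
    show B.b (φ, i) v = _
    rw [hB]
    have h2 : ComplexEmbedding.conjugate (X.τ.comp φ) ∈ Φ := by
      rw [← lab_conj]
      exact h
    have h3 : X.τ.comp φ ∉ Φ := fun h4 => (hΦ _).1 h4 h2
    have h5 : (⟨ComplexEmbedding.conjugate (X.τ.comp φ), type_not E hΦ h3⟩ : Φ) = ⟨_, h⟩ :=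
      Subtype.ext (lab_conj X E φ).symm
    rw [w_not T hΦ h3, h5]

end SE
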