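import Pool.Agent.Lib.SE.W.Spec

/-!
# PROJECT SE, part S7: Galois conjugation of the components of a rational class (helper2)
-/

set_option autoImplicit false

open scoped ComplexConjugate
open HC

noncomputable section

namespace SE

namespace Cnj_aux

/-- A basis of the lattice and the dual rational 1-forms. -/
theorem lat_basis (T : AV) : ∃ (ι : Type) (_ : Fintype ι) (ξ : ι → T.V)
    (w : ι → (T.V →ₗ[ℝ] ℂ)), (∀ j, ξ j ∈ T.L) ∧ (∀ j, ∀ v ∈ T.L, ∃ x : ℚ, w j v = x) ∧
    ∀ a : T.V →ₗ[ℝ] ℂ, a = ∑ j, a (ξ j) • w j := by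
  classical
  have := ZLattice.module_free ℝ T.L
  have := ZLattice.module_finite ℝ T.L
  let b0 := Module.Free.chooseBasis ℤ T.L
  let b := b0.ofZLatticeBasis ℝ T.L
  refine ⟨Module.Free.ChooseBasisIndex ℤ T.L, inferInstance, fun j => b j,
    fun j => Complex.ofRealCLM.toLinearMap ∘ₗ b.coord j, ?_, ?_, ?_⟩
  · intro j
    have h : b j = b0 j := b0.ofZLatticeBasis_apply ℝ T.L j
    change b j ∈ T.L
    rw [h]
    exact (b0 j).2
  · intro j v hv
    refine ⟨(b0.repr ⟨v, hv⟩ j : ℚ), ?_⟩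
    have h := b0.ofZLatticeBasis_repr_apply ℝ T.L ⟨v, hv⟩ j
    change ((b.repr v j : ℝ) : ℂ) = _
    rw [h]
    push_cast
    rfl
  · intro a
    refine b.ext fun i => ?_
    rw [LinearMap.sum_apply, Finset.sum_eq_single i]
    · change a (b i) = a (b i) • ((b.repr (b i) i : ℝ) : ℂ)
      rw [b.repr_self, Finsupp.single_eq_same, Complex.ofReal_one, smul_eq_mul, mul_one]
    · intro j _ hj
      change a (b j) • ((b.repr (b i) j : ℝ) : ℂ) = 0
      rw [b.repr_self, Finsupp.single_eq_of_ne (by exact hj), Complex.ofReal_zero, smul_zero]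
    · intro h
      exact absurd (Finset.mem_univ i) h

/-- The expansion of `c` with respect to the rational forms. -/
theorem expand {T : AV} {m : ℕ} (c : Hlg T m) {ι : Type} [Fintype ι] (ξ : ι → T.V)
    (w : ι → (T.V →ₗ[ℝ] ℂ)) (h : ∀ a : T.V →ₗ[ℝ] ℂ, a = ∑ j, a (ξ j) • w j)
    (β : Fin m → (T.V →ₗ[ℝ] ℂ)) :
    c β = ∑ a : Fin m → ι, (∏ p, β p (ξ (a p))) * c fun p => w (a p) := by
  classical
  have h1 : β = fun p => ∑ j, β p (ξ j) • w j := funext fun p => h (β p)
  have h2 : c β = c.toMultilinearMap fun p => ∑ j, β p (ξ j) • w j := congrArg c h1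
  rw [h2, MultilinearMap.map_sum]
  refine Finset.sum_congr rfl fun a _ => ?_
  exact (c.toMultilinearMap.map_smul_univ (fun p => β p (ξ (a p))) fun p => w (a p)).trans
    (smul_eq_mul _ _)

variable {X : GF} {J : Type} {S : J → Tp X} {N : Type} [Fintype N] {Kc : N → J}
  (C : Prd fun k => (S (Kc k)).T)

/-- The form with label `u` and index `i`. -/
def bt (u : Ub S Kc) (i : Fin (S (Kc u.1)).r) : C.Y.V →ₗ[ℝ] ℂ :=
  pull ((LinearMap.proj u.1 : (∀ k, (S (Kc k)).T.V) →ₗ[ℂ] _) ∘ₗ C.ψ.toLinearMap)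
    ((S (Kc u.1)).B.b (u.2, i))

theorem bt_apply (u : Ub S Kc) (i : Fin (S (Kc u.1)).r) (v : C.Y.V) :
    bt C u i v = (S (Kc u.1)).B.b (u.2, i) (C.ψ v u.1) := rfl

/-- The coordinate with label `u` and index `i`. -/
def xt (u : Ub S Kc) (i : Fin (S (Kc u.1)).r) : (C.Y.V →ₗ[ℝ] ℂ) →ₗ[ℂ] ℂ :=
  (S (Kc u.1)).B.b.coord (u.2, i) ∘ₗ pull (emb C u.1 (Kc u.1))

theorem piU_apply (u : Ub S Kc) (a : C.Y.V →ₗ[ℝ] ℂ) :
    piU C u a = ∑ i, xt C u i a • bt C u i := by
  classical
  have h1 : (eL S (lb u) (outV C u.1 a)) (Kc u.1) =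
      (S (Kc u.1)).B.pr u.2 (outV C u.1 a (Kc u.1)) := by
    unfold eL lb
    simp only [LinearMap.comp_apply, LinearMap.single_apply, LinearMap.proj_apply]
    exact Pi.single_eq_same _ _
  change pull _ ((eL S (lb u) (outV C u.1 a)) (Kc u.1)) = _
  rw [h1]
  unfold Blk.pr
  rw [LinearMap.sum_apply, map_sum]
  refine Finset.sum_congr rfl fun i _ => ?_
  rw [LinearMap.smulRight_apply, map_smul]
  rfl

theorem xt_bt (u : Ub S Kc) (i j : Fin (S (Kc u.1)).r) :
    xt C u j (bt C u i) = if j = i then 1 else 0 := by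
  classical
  have h1 : pull (emb C u.1 (Kc u.1)) (bt C u i) = (S (Kc u.1)).B.b (u.2, i) := by
    refine LinearMap.ext fun v => ?_
    change (S (Kc u.1)).B.b (u.2, i) (C.ψ (emb C u.1 (Kc u.1) v) u.1) = _
    refine congrArg _ ?_
    unfold emb
    simp only [LinearMap.comp_apply, LinearEquiv.coe_coe, LinearEquiv.apply_symm_apply,
      LinearMap.single_apply, LinearMap.proj_apply, Pi.single_eq_same]
  change (S (Kc u.1)).B.b.coord (u.2, j) (pull (emb C u.1 (Kc u.1)) (bt C u i)) = _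
  rw [h1, Module.Basis.coord_apply, Module.Basis.repr_self, Finsupp.single_apply]
  by_cases h : j = i
  · subst h
    rw [if_pos rfl, if_pos rfl]
  · rw [if_neg h, if_neg]
    intro h2
    exact h (Prod.ext_iff.1 h2).2.symm

theorem piU_bt (u : Ub S Kc) (i : Fin (S (Kc u.1)).r) : piU C u (bt C u i) = bt C u i := by
  classical
  rw [piU_apply, Finset.sum_eq_single i]
  · rw [xt_bt, if_pos rfl, one_smul]
  · intro j _ hj
    rw [xt_bt, if_neg hj, zero_smul]
  · intro h
    exact absurd (Finset.mem_univ i) h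

/-- The values of a rational class at the forms `bt`. -/
theorem val {m : ℕ} (c : Hlg C.Y m)
    (hc : ∀ a : Fin m → (C.Y.V →ₗ[ℝ] ℂ), (∀ i, ∀ v ∈ C.Y.L, ∃ x : ℚ, a i v = x) →
      ∃ x : ℚ, c a = x) (u : Fin m → Ub S Kc) (i : ∀ p, Fin (S (Kc (u p).1)).r) :
    ∃ κ : X.K, c (fun p => bt C (u p) (i p)) = X.τ κ ∧
      ∀ g : X.G, c (fun p => bt C (gU g (u p)) (i p)) = X.τ (g κ) := by
  classical
  obtain ⟨ι, _, ξ, w, hξ, hw, hexp⟩ := lat_basis C.Y
  have hx : ∀ a : Fin m → ι, ∃ x : ℚ, c (fun p => w (a p)) = x := fun a =>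
    hc _ fun p v hv => hw (a p) v hv
  choose x hx using hx
  have hy : ∀ (k : N) (j : ι), ∃ y : Fin (S (Kc k)).r → (S (Kc k)).E, ∀ φ i,
      (S (Kc k)).B.b (φ, i) (C.ψ (ξ j) k) = X.τ (φ (y i)) := fun k j =>
    (S (Kc k)).B.lat _ ((C.lat (ξ j)).1 (hξ j) k)
  choose y hy using hy
  refine ⟨∑ a : Fin m → ι, (∏ p, (u p).2 (y (u p).1 (a p) (i p))) * algebraMap ℚ X.K (x a),
    ?_, fun g => ?_⟩
  · rw [expand c ξ w hexp, map_sum]
    refine Finset.sum_congr rfl fun a _ => ?_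
    rw [map_mul, map_prod, hx a]
    refine congrArg₂ (· * ·) (Finset.prod_congr rfl fun p _ => ?_) ?_
    · rw [bt_apply]
      exact hy _ _ _ _
    · exact (map_ratCast (X.τ.comp (algebraMap ℚ X.K)) (x a)).symm.trans (by simp)
  · rw [expand c ξ w hexp, map_sum, map_sum]
    refine Finset.sum_congr rfl fun a _ => ?_
    rw [map_mul, map_mul, map_prod, map_prod, hx a]
    refine congrArg₂ (· * ·) (Finset.prod_congr rfl fun p _ => ?_) ?_
    · rw [bt_apply]
      exact hy _ _ _ _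
    · rw [AlgEquiv.commutes]
      exact (map_ratCast (X.τ.comp (algebraMap ℚ X.K)) (x a)).symm.trans (by simp)

end Cnj_aux

open Cnj_aux in
theorem tCnj : S_Cnj := by
  classical
  intro X J S N _ Kc C m c hc u g hne
  -- some value is not zero
  have h1 : ∃ i : ∀ p, Fin (S (Kc (u p).1)).r, c (fun p => bt C (u p) (i p)) ≠ 0 := by
    by_contra hcon
    push Not at hcon
    refine hne (MultilinearMap.ext fun a => ?_)
    change c.toMultilinearMap (fun p => piU C (u p) (a p)) = 0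
    have h2 : (fun p => piU C (u p) (a p)) =
        fun p => ∑ i, xt C (u p) i (a p) • bt C (u p) i := funext fun p => piU_apply C (u p) (a p)
    rw [h2, MultilinearMap.map_sum]
    refine Finset.sum_eq_zero fun i _ => ?_
    have h3 := c.toMultilinearMap.map_smul_univ (fun p => xt C (u p) (i p) (a p))
      fun p => bt C (u p) (i p)
    refine h3.trans ?_
    change _ • c (fun p => bt C (u p) (i p)) = 0
    rw [hcon i, smul_zero]
  obtain ⟨i, hi⟩ := h1
  obtain ⟨κ, hκ, hg⟩ := val C c hc.1 u i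
  intro h0
  have h4 := congrArg (fun F : MultilinearMap ℂ (fun _ : Fin m => (C.Y.V →ₗ[ℝ] ℂ)) ℂ =>
    F fun p => bt C (gU g (u p)) (i p)) h0
  have h5 : c (fun p => piU C (gU g (u p)) (bt C (gU g (u p)) (i p))) = 0 := h4
  have h6 : (fun p => piU C (gU g (u p)) (bt C (gU g (u p)) (i p))) =
      fun p => bt C (gU g (u p)) (i p) := funext fun p => piU_bt C (gU g (u p)) (i p)
  rw [h6, hg g] at h5
  have h7 : g κ = 0 := X.τ.injective (h5.trans (map_zero _).symm)
  have h8 : κ = 0 := g.injective (h7.trans (map_zero _).symm)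
  exact hi (by rw [hκ, h8, map_zero])

end SE
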