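import Pool.Agent.Lib.SE.W.Spec

/-!
# PROJECT SE, module W/Exd: expansion over the labels of the copies
-/

set_option autoImplicit false

open scoped ComplexConjugate
open HC

noncomputable section

namespace SE

namespace Exd_aux

variable {X : GF} {J : Type}

lemma sum_pr {T : AV} {E : Type} [Field E] [NumberField E] {r : ℕ} (B : Blk X T E r)
    (a : T.V →ₗ[ℝ] ℂ) : ∑ φ, B.pr φ a = a := by
  have h := B.b.sum_repr a
  rw [Fintype.sum_prod_type] at h
  conv_rhs => rw [← h]
  refine Finset.sum_congr rfl fun φ _ => ?_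
  simp only [Blk.pr, LinearMap.sum_apply, LinearMap.smulRight_apply, Module.Basis.coord_apply]

lemma eL_self (S : J → Tp X) (l : Lb S) (a : VL S) :
    eL S l a l.1 = (S l.1).B.pr l.2 (a l.1) := by
  classical
  simp only [eL, LinearMap.comp_apply, LinearMap.single_apply, LinearMap.proj_apply,
    Pi.single_eq_same]

variable {N : Type} [Fintype N] {S : J → Tp X} {Kc : N → J} (C : Prd fun k => (S (Kc k)).T)

open Classical in
lemma emb_self (k : N) (v : (S (Kc k)).T.V) :
    emb C k (Kc k) v = C.ψ.symm (Pi.single k v) := by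
  classical
  simp only [emb, LinearMap.comp_apply, LinearMap.single_apply, LinearMap.proj_apply,
    Pi.single_eq_same]
  rfl

lemma sum_piU_apply (a : C.Y.V →ₗ[ℝ] ℂ) (v : C.Y.V) : (∑ u : Ub S Kc, piU C u a) v = a v := by
  classical
  have h1 : ∑ u : Ub S Kc, piU C u a = ∑ k : N, inV C k (outV C k a) := by
    rw [Fintype.sum_sigma]
    refine Finset.sum_congr rfl fun k _ => ?_
    have h2 : ∀ φ : (S (Kc k)).E →+* X.K, piU C (⟨k, φ⟩ : Ub S Kc) a =
        pull ((LinearMap.proj k : (∀ k, (S (Kc k)).T.V) →ₗ[ℂ] _) ∘ₗ C.ψ.toLinearMap)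
          ((S (Kc k)).B.pr φ (outV C k a (Kc k))) := by
      intro φ
      change inV C k (eL S ⟨Kc k, φ⟩ (outV C k a)) = _
      change pull _ (eL S ⟨Kc k, φ⟩ (outV C k a) (Kc k)) = _
      rw [show eL S ⟨Kc k, φ⟩ (outV C k a) (Kc k) = (S (Kc k)).B.pr φ (outV C k a (Kc k)) from
        eL_self S ⟨Kc k, φ⟩ (outV C k a)]
    rw [Finset.sum_congr rfl fun φ _ => h2 φ, ← map_sum, sum_pr]
    rfl
  rw [h1, LinearMap.sum_apply]
  have h3 : ∀ k : N, (inV C k (outV C k a)) v = a (C.ψ.symm (Pi.single k (C.ψ v k))) := by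
    intro k
    rw [← emb_self C k (C.ψ v k)]
    rfl
  rw [Finset.sum_congr rfl fun k _ => h3 k, ← map_sum, ← map_sum]
  congr 1
  rw [Finset.univ_sum_single, LinearEquiv.symm_apply_apply]

end Exd_aux

open Exd_aux in
theorem tExd : S_Exd := by
  intro X J S N _ Kc C
  have h : ∑ u : Ub S Kc, piU C u = 1 := by
    ext a v
    rw [LinearMap.sum_apply]
    exact sum_piU_apply C a v
  refine ⟨h, fun m c => ?_⟩
  ext a
  rw [sum_apply]
  simp only [MultilinearMap.compLinearMap_apply]
  have h2 : a = fun p => ∑ u : Ub S Kc, piU C u (a p) := by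
    funext p
    rw [← LinearMap.sum_apply, h]
    rfl
  conv_lhs => rw [h2]
  exact MultilinearMap.map_sum c.toMultilinearMap (fun p u => piU C u (a p))

end SE
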