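import Pool.Agent.Lib.SE.W.Spec
import Pool.Agent.Lib.MP_640417_ag.Fg.FftM
import Pool.Agent.Lib.MP_640417_ag.Fg.Eig

/-!
# PROJECT SE, part W, module FFT: the first fundamental theorem for the invariants of `su`
-/

set_option autoImplicit false

open scoped ComplexConjugate
open HC
open Pool.Agent.Lib.MP_640417_ag.Fg (Mono InL RegC AdjCl Kd Gen fft_gen gen_mono)
open Pool.Agent.Lib.MP_640417_ag.Orth (Dm Dm_apply)

noncomputable section

namespace SE

namespace FFT_aux

variable {X : GF} {J : Type} [Fintype J]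

theorem form_apply (S : J → Tp X) (f : ∀ j, LinearMap.BilinForm ℂ ((S j).T.V →ₗ[ℝ] ℂ))
    (x y : VL S) : FRM S f x y = ∑ j, f j (x j) (y j) := by
  simp [FRM, LinearMap.sum_apply, LinearMap.compl₁₂_apply]

open Classical in
omit [Fintype J] in
theorem eL_apply (S : J → Tp X) (l : Lb S) (x : VL S) :
    eL S l x = Pi.single l.1 ((S l.1).B.pr l.2 (x l.1)) := rfl

theorem finDim (S : J → Tp X) : FiniteDimensional ℂ (VL S) := by
  have : ∀ j, FiniteDimensional ℂ ((S j).T.V →ₗ[ℝ] ℂ) := fun j =>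
    Module.Finite.of_basis (S j).B.b
  infer_instance

theorem nondeg (S : J → Tp X) (f : ∀ j, LinearMap.BilinForm ℂ ((S j).T.V →ₗ[ℝ] ℂ))
    (hf : ∀ j, IsFrm (S j) (f j)) (x : VL S) (h : ∀ y, FRM S f x y = 0) : x = 0 := by
  classical
  funext j
  refine (hf j).nd _ fun b => ?_
  have h1 := h (Pi.single j b)
  rw [form_apply, Finset.sum_eq_single j] at h1
  · rwa [Pi.single_eq_same] at h1
  · intro i _ hi
    rw [Pi.single_eq_of_ne hi, map_zero]
  · intro hj
    exact absurd (Finset.mem_univ j) hj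

theorem sym (S : J → Tp X) (f : ∀ j, LinearMap.BilinForm ℂ ((S j).T.V →ₗ[ℝ] ℂ))
    (hf : ∀ j, IsFrm (S j) (f j)) (x y : VL S) : FRM S f x y = -1 * FRM S f y x := by
  rw [form_apply, form_apply, Finset.mul_sum]
  refine Finset.sum_congr rfl fun j _ => ?_
  rw [(hf j).alt, neg_one_mul]

/-- the conjugate label -/
def cj {S : J → Tp X} (l : Lb S) : Lb S := ⟨l.1, gl X.c l.2⟩

theorem adj (S : J → Tp X) (f : ∀ j, LinearMap.BilinForm ℂ ((S j).T.V →ₗ[ℝ] ℂ))
    (hf : ∀ j, IsFrm (S j) (f j)) (l : Lb S) (x y : VL S) :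
    FRM S f (eL S l x) y = FRM S f x (eL S (cj l) y) := by
  classical
  rw [form_apply, form_apply, Finset.sum_eq_single l.1, Finset.sum_eq_single l.1]
  · rw [eL_apply, eL_apply, Pi.single_eq_same, cj]
    rw [Pi.single_eq_same]
    exact (hf l.1).pr _ _ _
  · intro i _ hi
    rw [eL_apply, cj, Pi.single_eq_of_ne hi, map_zero]
  · intro hj
    exact absurd (Finset.mem_univ _) hj
  · intro i _ hi
    rw [eL_apply, Pi.single_eq_of_ne hi, map_zero, LinearMap.zero_apply]
  · intro hj
    exact absurd (Finset.mem_univ _) hj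

/-- products of combinations of the projections -/
theorem mul_comb (S : J → Tp X) (h1 : ∀ l, eL S l * eL S l = eL S l)
    (h2 : ∀ l l', l ≠ l' → eL S l * eL S l' = 0) (c d : Lb S → ℂ) :
    (∑ l, c l • eL S l) * (∑ l, d l • eL S l) = ∑ l, (c l * d l) • eL S l := by
  classical
  rw [Finset.sum_mul]
  refine Finset.sum_congr rfl fun l _ => ?_
  rw [Finset.mul_sum, Finset.sum_eq_single l]
  · rw [smul_mul_smul_comm, h1]
  · intro l' _ hl
    rw [smul_mul_smul_comm, h2 l l' hl.symm, smul_zero]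
  · intro hj
    exact absurd (Finset.mem_univ _) hj

theorem single_comb (S : J → Tp X) (l : Lb S) :
    ∃ c : Lb S → ℂ, eL S l = ∑ l, c l • eL S l := by
  classical
  refine ⟨Pi.single l 1, ?_⟩
  rw [Finset.sum_eq_single l]
  · rw [Pi.single_eq_same, one_smul]
  · intro l' _ hl
    rw [Pi.single_eq_of_ne hl, zero_smul]
  · intro hj
    exact absurd (Finset.mem_univ _) hj

end FFT_aux

open FFT_aux in
theorem tFFT : S_FFT := by
  intro hSub hKdC hCen X J _ S f hf q F hF
  classical
  obtain ⟨hid, horth, hone, C, hC⟩ := hSub X J S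
  have := finDim S
  have hmem : ∀ Y, Y ∈ C ↔ Y ∈ CS S := fun Y => by
    rw [← hC]
    rfl
  have heL : ∀ l, eL S l ∈ C := fun l => (hmem _).2 (single_comb S l)
  have hreg : RegC C := by
    intro c hc
    obtain ⟨a, rfl⟩ := (hmem c).1 hc
    refine ⟨∑ l, (a l)⁻¹ • eL S l, (hmem _).2 ⟨_, rfl⟩, ?_⟩
    rw [mul_comb S hid horth, mul_comb S hid horth]
    refine Finset.sum_congr rfl fun l _ => ?_
    by_cases h : a l = 0
    · rw [h]; simp
    · rw [mul_inv_cancel₀ h, one_mul]
  have hadj : AdjCl (FRM S f) C := by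
    intro c hc
    obtain ⟨a, rfl⟩ := (hmem c).1 hc
    refine ⟨∑ l, a l • eL S (cj l), Subalgebra.sum_mem _ fun l _ => Subalgebra.smul_mem _ (heL _) _,
      fun x y => ?_⟩
    rw [LinearMap.sum_apply, LinearMap.sum_apply, map_sum, map_sum, LinearMap.sum_apply]
    refine Finset.sum_congr rfl fun l _ => ?_
    rw [LinearMap.smul_apply, LinearMap.smul_apply, map_smul, map_smul, LinearMap.smul_apply,
      adj S f hf]
  have hSt : ∀ p ∈ C, p ≠ 0 → p * p = p → (∀ c ∈ C, ∃ t : ℂ, p * c * p = t • p) →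
      StS S (LinearMap.range p) := by
    intro p hp hp0 hpp hmin
    obtain ⟨a, rfl⟩ := (hmem p).1 hp
    obtain ⟨l, -, hl⟩ := Finset.exists_ne_zero_of_sum_ne_zero hp0
    have hal : a l ≠ 0 := fun h => hl (by rw [h, zero_smul])
    have hel : eL S l ≠ 0 := fun h => hl (by rw [h, smul_zero])
    have hpe : (∑ l, a l • eL S l) * eL S l = a l • eL S l := by
      rw [Finset.sum_mul, Finset.sum_eq_single l]
      · rw [smul_mul_assoc, hid]
      · intro l' _ hl'
        rw [smul_mul_assoc, horth l' l hl', smul_zero]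
      · intro hj
        exact absurd (Finset.mem_univ _) hj
    have hep : eL S l * (∑ l, a l • eL S l) = a l • eL S l := by
      rw [Finset.mul_sum, Finset.sum_eq_single l]
      · rw [mul_smul_comm, hid]
      · intro l' _ hl'
        rw [mul_smul_comm, horth l l' hl'.symm, smul_zero]
      · intro hj
        exact absurd (Finset.mem_univ _) hj
    obtain ⟨t, ht⟩ := hmin (eL S l) (heL l)
    rw [hpe, smul_mul_assoc, hep, smul_smul] at ht
    have haa : a l * a l ≠ 0 := mul_ne_zero hal hal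
    have ht0 : t ≠ 0 := by
      intro h
      rw [h, zero_smul] at ht
      exact (smul_ne_zero haa hel) ht
    refine ⟨l, ?_⟩
    have h3 : (∑ l, a l • eL S l) = (t⁻¹ * (a l * a l)) • eL S l := by
      rw [mul_smul, ht, smul_smul, inv_mul_cancel₀ ht0, one_smul]
    rw [h3]
    exact LinearMap.range_smul _ _ (mul_ne_zero (inv_ne_zero ht0) haa)
  have hKd : Kd (FRM S f) C F := by
    intro P Q hP hQ
    refine MultilinearMap.ext fun v => ?_
    rw [Dm_apply]
    exact hKdC X J S f hf C hC q F hF P Q hP hQ v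
  have hG := fft_gen (form := FRM S f) (-1) (by norm_num) (sym S f hf) (nondeg S f hf) hreg hadj
    (hCen X J S f hf C hC) hSt q F hKd
  have := gen_mono hG
  rw [hC] at this
  exact this

end SE
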