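import Pool.Agent.Lib.SE.W.Spec

/-!
# PROJECT SE, part S7, module Frm: the dual of the Riemann form
-/

set_option autoImplicit false

open scoped ComplexConjugate
open HC

noncomputable section

namespace SE

namespace Frm_aux

variable {X : GF} (t : Tp X)

theorem R_inj : Function.Injective t.R := by
  rw [injective_iff_map_eq_zero]
  intro v hv
  by_contra h
  have h1 := t.pos v h
  rw [t.alt, hv] at h1
  simp at h1

/-- `v ↦ R(v, ·)` -/
def eR : t.T.V ≃ₗ[ℝ] (t.T.V →ₗ[ℝ] ℝ) :=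
  LinearMap.linearEquivOfInjective t.R (R_inj t) (Subspace.dual_finrank_eq (K := ℝ)).symm

theorem eR_apply (v : t.T.V) : eR t v = t.R v := rfl

/-- the vector of the real part -/
def xa (a : t.T.V →ₗ[ℝ] ℂ) : t.T.V := (eR t).symm (Complex.reLm ∘ₗ a)

/-- the vector of the imaginary part -/
def ya (a : t.T.V →ₗ[ℝ] ℂ) : t.T.V := (eR t).symm (Complex.imLm ∘ₗ a)

theorem R_xa (a : t.T.V →ₗ[ℝ] ℂ) (w : t.T.V) : t.R (xa t a) w = (a w).re := by
  rw [← eR_apply, xa, LinearEquiv.apply_symm_apply]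
  rfl

theorem R_ya (a : t.T.V →ₗ[ℝ] ℂ) (w : t.T.V) : t.R (ya t a) w = (a w).im := by
  rw [← eR_apply, ya, LinearEquiv.apply_symm_apply]
  rfl

theorem R_ext {u v : t.T.V} (h : ∀ w, t.R u w = t.R v w) : u = v :=
  R_inj t (LinearMap.ext h)

theorem xa_add (a a' : t.T.V →ₗ[ℝ] ℂ) : xa t (a + a') = xa t a + xa t a' := by
  refine R_ext t fun w => ?_
  simp only [R_xa, map_add, LinearMap.add_apply, Complex.add_re]

theorem ya_add (a a' : t.T.V →ₗ[ℝ] ℂ) : ya t (a + a') = ya t a + ya t a' := by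
  refine R_ext t fun w => ?_
  simp only [R_ya, map_add, LinearMap.add_apply, Complex.add_im]

theorem xa_smul (c : ℂ) (a : t.T.V →ₗ[ℝ] ℂ) :
    xa t (c • a) = c.re • xa t a - c.im • ya t a := by
  refine R_ext t fun w => ?_
  simp only [R_xa, R_ya, map_sub, map_smul, LinearMap.sub_apply, LinearMap.smul_apply,
    smul_eq_mul, Complex.mul_re]

theorem ya_smul (c : ℂ) (a : t.T.V →ₗ[ℝ] ℂ) :
    ya t (c • a) = c.re • ya t a + c.im • xa t a := by
  refine R_ext t fun w => ?_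
  simp only [R_xa, R_ya, map_add, map_smul, LinearMap.add_apply, LinearMap.smul_apply,
    smul_eq_mul, Complex.mul_im]

theorem map_rsmul (b : t.T.V →ₗ[ℝ] ℂ) (r : ℝ) (v : t.T.V) : b (r • v) = (r : ℂ) * b v := by
  rw [map_smul, Complex.real_smul]

theorem rf_apply (v w : t.T.V) : rf t v w = ((t.R v w : ℝ) : ℂ) := rfl

/-- the form -/
def fR : LinearMap.BilinForm ℂ (t.T.V →ₗ[ℝ] ℂ) :=
  LinearMap.mk₂ ℂ (fun a b => b (xa t a) + Complex.I * b (ya t a))
    (fun a a' b => by rw [xa_add, ya_add, map_add, map_add]; ring)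
    (fun c a b => by
      rw [xa_smul, ya_smul, map_sub, map_add, map_rsmul, map_rsmul, map_rsmul, map_rsmul,
        smul_eq_mul]
      have hc : c = (c.re : ℂ) + (c.im : ℂ) * Complex.I := (Complex.re_add_im c).symm
      have h2 : Complex.I * Complex.I = -1 := Complex.I_mul_I
      conv_rhs => rw [hc]
      linear_combination (-(c.im : ℂ) * b (ya t a)) * h2)
    (fun a b b' => by rw [LinearMap.add_apply, LinearMap.add_apply]; ring)
    (fun c a b => by
      rw [LinearMap.smul_apply, LinearMap.smul_apply, smul_eq_mul, smul_eq_mul, smul_eq_mul]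
      ring)

theorem fR_apply (a b : t.T.V →ₗ[ℝ] ℂ) :
    fR t a b = b (xa t a) + Complex.I * b (ya t a) := rfl

theorem xa_rf (v : t.T.V) : xa t (rf t v) = v := by
  refine R_ext t fun w => ?_
  rw [R_xa, rf_apply, Complex.ofReal_re]

theorem ya_rf (v : t.T.V) : ya t (rf t v) = 0 := by
  refine R_ext t fun w => ?_
  rw [R_ya, rf_apply, Complex.ofReal_im, map_zero, LinearMap.zero_apply]

theorem dec (a : t.T.V →ₗ[ℝ] ℂ) : a = rf t (xa t a) + Complex.I • rf t (ya t a) := by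
  refine LinearMap.ext fun w => ?_
  rw [LinearMap.add_apply, LinearMap.smul_apply, rf_apply, rf_apply, R_xa, R_ya, smul_eq_mul,
    mul_comm, Complex.re_add_im]

theorem val (v : t.T.V) (b : t.T.V →ₗ[ℝ] ℂ) : fR t (rf t v) b = b v := by
  rw [fR_apply, xa_rf, ya_rf, map_zero, mul_zero, add_zero]

/-- a linear property holds for all forms if it holds for the `rf t v` -/
theorem ind (Φ : (t.T.V →ₗ[ℝ] ℂ) →ₗ[ℂ] ℂ) (h : ∀ v, Φ (rf t v) = 0) (a : t.T.V →ₗ[ℝ] ℂ) :
    Φ a = 0 := by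
  rw [dec t a, map_add, map_smul, h, h, smul_zero, add_zero]

theorem alt (a b : t.T.V →ₗ[ℝ] ℂ) : fR t a b = -fR t b a := by
  have h1 : ∀ v, fR t (rf t v) b = -fR t b (rf t v) := by
    intro v
    rw [val, fR_apply, rf_apply, rf_apply, t.alt v, t.alt v, R_xa, R_ya]
    rw [Complex.ofReal_neg, Complex.ofReal_neg]
    have h2 := Complex.re_add_im (b v)
    linear_combination -h2
  have h2 := ind t (LinearMap.flip (fR t) b + fR t b) (fun v => by
    rw [LinearMap.add_apply, LinearMap.flip_apply, h1, neg_add_cancel]) a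
  rw [LinearMap.add_apply, LinearMap.flip_apply] at h2
  exact eq_neg_of_add_eq_zero_left h2

theorem nd (a : t.T.V →ₗ[ℝ] ℂ) (h : ∀ b, fR t a b = 0) : a = 0 := by
  have key : ∀ w, ((t.R w (xa t a) : ℝ) : ℂ) + Complex.I * ((t.R w (ya t a) : ℝ) : ℂ) = 0 :=
    fun w => h (rf t w)
  have hx : xa t a = 0 := by
    by_contra hx
    have h1 := congrArg Complex.re (key (Complex.I • xa t a))
    simp at h1
    exact absurd h1 (t.pos _ hx).ne'
  have hy : ya t a = 0 := by
    by_contra hy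
    have h1 := congrArg Complex.im (key (Complex.I • ya t a))
    simp at h1
    exact absurd h1 (t.pos _ hy).ne'
  rw [dec t a, hx, hy]
  have h0 : rf t 0 = 0 := by
    refine LinearMap.ext fun w => ?_
    rw [rf_apply, map_zero, LinearMap.zero_apply, Complex.ofReal_zero, LinearMap.zero_apply]
  rw [h0, smul_zero, add_zero]

/-- composition with a real endomorphism -/
def cmp (U : Module.End ℝ t.T.V) : (t.T.V →ₗ[ℝ] ℂ) →ₗ[ℂ] (t.T.V →ₗ[ℝ] ℂ) where
  toFun a := a ∘ₗ U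
  map_add' _ _ := rfl
  map_smul' _ _ := rfl

theorem cmp_apply (U : Module.End ℝ t.T.V) (a : t.T.V →ₗ[ℝ] ℂ) : cmp t U a = a ∘ₗ U := rfl

/-- adjoints -/
theorem adj (U U' : Module.End ℝ t.T.V) (h : ∀ v w, t.R v (U w) = t.R (U' v) w)
    (a b : t.T.V →ₗ[ℝ] ℂ) : fR t (a ∘ₗ U) b = fR t a (b ∘ₗ U') := by
  have h1 : ∀ v, fR t (rf t v ∘ₗ U) b = fR t (rf t v) (b ∘ₗ U') := by
    intro v
    have h2 : rf t v ∘ₗ U = rf t (U' v) := by
      refine LinearMap.ext fun w => ?_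
      rw [LinearMap.comp_apply, rf_apply, rf_apply, h]
    rw [h2, val, val, LinearMap.comp_apply]
  have h2 := ind t (LinearMap.flip (fR t) b ∘ₗ cmp t U - LinearMap.flip (fR t) (b ∘ₗ U')) (fun v => by
    rw [LinearMap.sub_apply, LinearMap.comp_apply, cmp_apply, LinearMap.flip_apply,
      LinearMap.flip_apply, h1, sub_self]) a
  rw [LinearMap.sub_apply, LinearMap.comp_apply, cmp_apply, LinearMap.flip_apply,
    LinearMap.flip_apply] at h2
  exact sub_eq_zero.1 h2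

theorem skew (U : Module.End ℝ t.T.V) (h : ∀ u v, t.R (U u) v + t.R u (U v) = 0)
    (a b : t.T.V →ₗ[ℝ] ℂ) : fR t (a ∘ₗ U) b + fR t a (b ∘ₗ U) = 0 := by
  rw [adj t U (-U) (fun v w => by
    rw [LinearMap.neg_apply, map_neg, LinearMap.neg_apply]
    linarith [h v w]) a b]
  have h1 : b ∘ₗ (-U) = -(b ∘ₗ U) := by
    refine LinearMap.ext fun w => ?_
    rw [LinearMap.comp_apply, LinearMap.neg_apply, map_neg, LinearMap.neg_apply,
      LinearMap.comp_apply]
  rw [h1, map_neg, neg_add_cancel]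

/-! ### the projections -/

theorem pr_apply (φ : t.E →+* X.K) (a : t.T.V →ₗ[ℝ] ℂ) :
    t.B.pr φ a = ∑ i, t.B.b.coord (φ, i) a • t.B.b (φ, i) := by
  unfold Blk.pr
  rw [LinearMap.sum_apply]
  rfl

theorem comp_rho (a : t.T.V →ₗ[ℝ] ℂ) (x : t.E) :
    a ∘ₗ (t.B.ρ x).restrictScalars ℝ = ∑ φ, X.τ (φ x) • t.B.pr φ a := by
  have h1 : a ∘ₗ (t.B.ρ x).restrictScalars ℝ =
      ∑ q : (t.E →+* X.K) × Fin t.r, t.B.b.coord q a • (X.τ (q.1 x) • t.B.b q) := by
    refine LinearMap.ext fun v => ?_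
    have h2 := congrArg (fun c : t.T.V →ₗ[ℝ] ℂ => c (t.B.ρ x v)) (t.B.b.sum_repr a)
    simp only [LinearMap.sum_apply, LinearMap.smul_apply] at h2
    rw [LinearMap.sum_apply]
    change a (t.B.ρ x v) = _
    rw [← h2]
    refine Finset.sum_congr rfl fun q _ => ?_
    rw [LinearMap.smul_apply, LinearMap.smul_apply, smul_eq_mul, smul_eq_mul, smul_eq_mul,
      t.B.act q.1 q.2 x v]
    rfl
  rw [h1, Fintype.sum_prod_type]
  refine Finset.sum_congr rfl fun φ _ => ?_
  rw [pr_apply, Finset.smul_sum]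
  refine Finset.sum_congr rfl fun i _ => ?_
  rw [smul_comm]

theorem cc (x : X.K) : X.c (X.c x) = x := by
  apply X.τ.injective
  rw [X.hc, X.hc, Complex.conj_conj]

theorem glgl {E : Type} [Field E] (φ : E →+* X.K) : gl X.c (gl X.c φ) = φ := by
  refine RingHom.ext fun x => ?_
  exact cc (φ x)

theorem pr (φ : t.E →+* X.K) (a b : t.T.V →ₗ[ℝ] ℂ) :
    fR t (t.B.pr φ a) b = fR t a (t.B.pr (gl X.c φ) b) := by
  have h1 : ∀ x : t.E, ∑ φ, X.τ (φ x) * fR t (t.B.pr φ a) b =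
      ∑ φ, X.τ (φ x) * fR t a (t.B.pr (gl X.c φ) b) := by
    intro x
    have h2 := adj t ((t.B.ρ x).restrictScalars ℝ) ((t.B.ρ (t.inv x)).restrictScalars ℝ)
      (fun v w => by
        change t.R v (t.B.ρ x w) = t.R (t.B.ρ (t.inv x) v) w
        rw [t.alt, t.adj, t.alt, neg_neg]) a b
    rw [comp_rho, comp_rho, map_sum, LinearMap.sum_apply, map_sum] at h2
    have h3 : ∑ φ, X.τ (φ x) * fR t (t.B.pr φ a) b =
        ∑ φ, X.τ (φ (t.inv x)) * fR t a (t.B.pr φ b) := by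
      refine Eq.trans ?_ (h2.trans ?_)
      · refine Finset.sum_congr rfl fun φ _ => ?_
        rw [map_smul, LinearMap.smul_apply, smul_eq_mul]
      · refine Finset.sum_congr rfl fun φ _ => ?_
        rw [map_smul, smul_eq_mul]
    rw [h3]
    refine Fintype.sum_equiv ⟨gl X.c, gl X.c, glgl, glgl⟩ _ _ (fun φ => ?_)
    change _ = X.τ (X.c (φ x)) * fR t a (t.B.pr (gl X.c (gl X.c φ)) b)
    rw [glgl, t.hinv]
  have h4 : LinearIndependent ℂ
      (fun φ : t.E →+* X.K => ((X.τ.comp φ : t.E →+* ℂ) : t.E → ℂ)) := by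
    have h5 := linearIndependent_monoidHom t.E ℂ
    refine h5.comp (fun φ : t.E →+* X.K => ((X.τ.comp φ : t.E →+* ℂ) : t.E →* ℂ)) ?_
    intro φ ψ h
    refine RingHom.ext fun x => ?_
    apply X.τ.injective
    exact DFunLike.congr_fun h x
  have h6 := Fintype.linearIndependent_iff.1 h4
    (fun φ => fR t (t.B.pr φ a) b - fR t a (t.B.pr (gl X.c φ) b)) (by
      funext x
      rw [Finset.sum_apply]
      have h7 : ∀ φ : t.E →+* X.K, ((fR t (t.B.pr φ a) b - fR t a (t.B.pr (gl X.c φ) b)) •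
          ((X.τ.comp φ : t.E →+* ℂ) : t.E → ℂ)) x = X.τ (φ x) * fR t (t.B.pr φ a) b -
            X.τ (φ x) * fR t a (t.B.pr (gl X.c φ) b) := by
        intro φ
        rw [Pi.smul_apply, smul_eq_mul, mul_comm, mul_sub]
        rfl
      rw [Finset.sum_congr rfl fun φ _ => h7 φ, Finset.sum_sub_distrib, h1 x, sub_self]
      rfl) φ
  exact sub_eq_zero.1 h6

end Frm_aux

/-- **Frm** -/
theorem tFrm : S_Frm := fun _ t =>
  ⟨Frm_aux.fR t, Frm_aux.val t, Frm_aux.alt t, Frm_aux.nd t, Frm_aux.skew t, Frm_aux.pr t⟩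

end SE
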