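import Pool.Agent.Lib.SE.W.Spec

/-!
# PROJECT SE, part W: a Galois number field containing finitely many number fields
-/

set_option autoImplicit false

open scoped ComplexConjugate
open HC

noncomputable section

namespace SE

theorem tGex : S_Gex := by
  intro n E _ _
  have halg : Algebra.IsAlgebraic ℚ (AlgebraicClosure ℚ) := by
    have h := AlgebraicClosure.isAlgebraic ℚ
    have e : (DivisionRing.toRatAlgebra : Algebra ℚ (AlgebraicClosure ℚ)) =
        AlgebraicClosure.instAlgebra ℚ := Subsingleton.elim _ _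
    rw [e]
    exact h
  have hcl : IsAlgClosure ℚ (AlgebraicClosure ℚ) := ⟨inferInstance, halg⟩
  have hnor : Normal ℚ (AlgebraicClosure ℚ) := IsAlgClosure.normal ℚ (AlgebraicClosure ℚ)
  -- embeddings in the algebraic closure
  let σ : ∀ i, E i →ₐ[ℚ] AlgebraicClosure ℚ := fun i => IsAlgClosed.lift
  let L : IntermediateField ℚ (AlgebraicClosure ℚ) := ⨆ i, (σ i).fieldRange
  have hfin : ∀ i, FiniteDimensional ℚ (σ i).fieldRange := fun i =>
    LinearMap.finiteDimensional_range (σ i).toLinearMap
  have hL : FiniteDimensional ℚ L := IntermediateField.finiteDimensional_iSup_of_finite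
  let K : IntermediateField ℚ (AlgebraicClosure ℚ) :=
    IntermediateField.normalClosure ℚ L (AlgebraicClosure ℚ)
  have hK : FiniteDimensional ℚ K := normalClosure.is_finiteDimensional ℚ L (AlgebraicClosure ℚ)
  have hN : Normal ℚ K := normalClosure.normal ℚ L (AlgebraicClosure ℚ)
  have hLK : L ≤ K := IntermediateField.le_normalClosure L
  have nfK : NumberField K := { to_charZero := inferInstance, to_finiteDimensional := hK }
  have galK : IsGalois ℚ K := { }
  let τ₀ : AlgebraicClosure ℚ →ₐ[ℚ] ℂ := IsAlgClosed.lift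
  let τ : K →ₐ[ℚ] ℂ := τ₀.comp K.val
  let _ : Algebra K ℂ := τ.toRingHom.toAlgebra
  have _ : IsScalarTower ℚ K ℂ := IsScalarTower.of_algebraMap_eq fun x => (τ.commutes x).symm
  let cc : ℂ ≃ₐ[ℚ] ℂ := Complex.conjAe.restrictScalars ℚ
  let c : K ≃ₐ[ℚ] K := cc.restrictNormal K
  have hc : ∀ x, τ.toRingHom (c x) = conj (τ.toRingHom x) := fun x =>
    AlgEquiv.restrictNormal_commutes cc K x
  refine ⟨{ K := K, τ := τ.toRingHom, c := c, hc := hc }, fun i => ⟨?_⟩⟩
  exact ((IntermediateField.inclusion ((le_iSup (fun i => (σ i).fieldRange) i).trans hLK)).comp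
    (σ i).rangeRestrict).toRingHom

end SE
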