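import Pool.Agent.Lib.SE.W.Spec

/-! # PROJECT SE, Sub: the projections `eL` (helper26) -/

set_option autoImplicit false

open HC

noncomputable section

namespace SE

namespace Sub_aux

variable {X : GF} {T : AV} {E : Type} [Field E] [NumberField E] {r : ℕ}

lemma pr_apply (B : Blk X T E r) (φ : E →+* X.K) (a : T.V →ₗ[ℝ] ℂ) :
    B.pr φ a = ∑ i, B.b.coord (φ, i) a • B.b (φ, i) := by
  simp only [Blk.pr, LinearMap.sum_apply, LinearMap.smulRight_apply]

lemma pr_basis_self (B : Blk X T E r) (φ : E →+* X.K) (i : Fin r) :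
    B.pr φ (B.b (φ, i)) = B.b (φ, i) := by
  classical
  rw [pr_apply, Finset.sum_eq_single i]
  · simp
  · intro j _ hj
    have : B.b.coord (φ, j) (B.b (φ, i)) = 0 := by
      rw [Module.Basis.coord_apply, Module.Basis.repr_self, Finsupp.single_apply, if_neg]
      intro h
      exact hj (Prod.mk.inj h).2.symm
    rw [this, zero_smul]
  · intro h
    exact absurd (Finset.mem_univ i) h

lemma pr_basis_ne (B : Blk X T E r) (φ φ' : E →+* X.K) (h : φ ≠ φ') (i : Fin r) :
    B.pr φ (B.b (φ', i)) = 0 := by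
  classical
  rw [pr_apply]
  refine Finset.sum_eq_zero fun j _ => ?_
  have : B.b.coord (φ, j) (B.b (φ', i)) = 0 := by
    rw [Module.Basis.coord_apply, Module.Basis.repr_self, Finsupp.single_apply, if_neg]
    intro h'
    exact h (Prod.mk.inj h').1.symm
  rw [this, zero_smul]

lemma pr_pr (B : Blk X T E r) (φ : E →+* X.K) (a : T.V →ₗ[ℝ] ℂ) :
    B.pr φ (B.pr φ a) = B.pr φ a := by
  rw [pr_apply B φ a, map_sum]
  refine Finset.sum_congr rfl fun i _ => ?_
  rw [map_smul, pr_basis_self]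

lemma pr_pr_ne (B : Blk X T E r) (φ φ' : E →+* X.K) (h : φ ≠ φ') (a : T.V →ₗ[ℝ] ℂ) :
    B.pr φ (B.pr φ' a) = 0 := by
  rw [pr_apply B φ' a, map_sum]
  refine Finset.sum_eq_zero fun i _ => ?_
  rw [map_smul, pr_basis_ne B φ φ' h, smul_zero]

lemma sum_pr (B : Blk X T E r) (a : T.V →ₗ[ℝ] ℂ) : ∑ φ, B.pr φ a = a := by
  conv_rhs => rw [← B.b.sum_repr a]
  rw [Fintype.sum_prod_type]
  refine Finset.sum_congr rfl fun φ _ => ?_
  rw [pr_apply]
  rfl

variable {J : Type}

open Classical in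
lemma eL_apply (S : J → Tp X) (l : Lb S) (v : VL S) :
    eL S l v = Pi.single (M := fun j => ((S j).T.V →ₗ[ℝ] ℂ)) l.1 ((S l.1).B.pr l.2 (v l.1)) := rfl

lemma eL_idem (S : J → Tp X) (l : Lb S) : eL S l * eL S l = eL S l := by
  classical
  refine LinearMap.ext fun v => ?_
  rw [Module.End.mul_apply, eL_apply S l v, eL_apply, Pi.single_eq_same, pr_pr]

lemma eL_orth (S : J → Tp X) (l l' : Lb S) (h : l ≠ l') : eL S l * eL S l' = 0 := by
  classical
  refine LinearMap.ext fun v => ?_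
  rw [Module.End.mul_apply, eL_apply S l' v, eL_apply, LinearMap.zero_apply]
  obtain ⟨j, φ⟩ := l
  obtain ⟨j', φ'⟩ := l'
  by_cases hj : j = j'
  · subst hj
    have hφ : φ ≠ φ' := fun e => h (by rw [e])
    dsimp only
    rw [Pi.single_eq_same, pr_pr_ne _ φ φ' hφ, Pi.single_zero]
  · dsimp only
    rw [Pi.single_eq_of_ne hj, map_zero, Pi.single_zero]

open Classical in
lemma sum_comp [Fintype J] (S : J → Tp X) (j : J) (v : VL S) :
    ∑ φ, eL S ⟨j, φ⟩ v = Pi.single (M := fun j => ((S j).T.V →ₗ[ℝ] ℂ)) j (v j) := by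
  have h1 : ∀ φ : (S j).E →+* X.K, eL S ⟨j, φ⟩ v =
      LinearMap.single ℂ (fun j => ((S j).T.V →ₗ[ℝ] ℂ)) j ((S j).B.pr φ (v j)) := fun φ => rfl
  rw [Finset.sum_congr rfl fun φ _ => h1 φ, ← map_sum, sum_pr]
  rfl

lemma eL_sum [Fintype J] (S : J → Tp X) : ∑ l, eL S l = 1 := by
  classical
  refine LinearMap.ext fun v => ?_
  rw [LinearMap.sum_apply, Fintype.sum_sigma, Finset.sum_congr rfl fun j _ => sum_comp S j v]
  exact Finset.univ_sum_single v

lemma CS_mul [Fintype J] (S : J → Tp X) (c d : Lb S → ℂ) :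
    (∑ l, c l • eL S l) * (∑ l, d l • eL S l) = ∑ l, (c l * d l) • eL S l := by
  rw [Finset.sum_mul]
  refine Finset.sum_congr rfl fun l _ => ?_
  rw [Finset.mul_sum, Finset.sum_eq_single l]
  · rw [smul_mul_smul_comm, eL_idem]
  · intro l' _ h
    rw [smul_mul_smul_comm, eL_orth S l l' h.symm, smul_zero]
  · intro h
    exact absurd (Finset.mem_univ l) h

end Sub_aux

theorem tSub : S_Sub := by
  intro X J _ S
  refine ⟨Sub_aux.eL_idem S, Sub_aux.eL_orth S, Sub_aux.eL_sum S, ?_⟩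
  refine ⟨{ carrier := CS S
            mul_mem' := ?_
            add_mem' := ?_
            algebraMap_mem' := ?_ }, rfl⟩
  · rintro _ _ ⟨c, rfl⟩ ⟨d, rfl⟩
    exact ⟨fun l => c l * d l, Sub_aux.CS_mul S c d⟩
  · rintro _ _ ⟨c, rfl⟩ ⟨d, rfl⟩
    refine ⟨fun l => c l + d l, ?_⟩
    rw [← Finset.sum_add_distrib]
    exact Finset.sum_congr rfl fun l _ => (add_smul _ _ _).symm
  · intro x
    refine ⟨fun _ => x, ?_⟩
    rw [← Finset.smul_sum, Sub_aux.eL_sum, Algebra.algebraMap_eq_smul_one]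

end SE
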