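import Pool.Agent.Lib.SE.W.Spec
import Pool.Agent.Lib.SE.W.Sub

/-! # PROJECT SE, KdC: complexification of `KdR` (helper26) -/

set_option autoImplicit false

open HC
open Pool.Agent.Lib.MP_640417_ag.Fg (Mono InL)

noncomputable section

namespace SE

namespace KdC_aux

section real

variable {V : Type} [AddCommGroup V] [Module ℝ V]

/-- a real functional as a complex valued one -/
def cf (l : V →ₗ[ℝ] ℝ) : V →ₗ[ℝ] ℂ := Complex.ofRealCLM.toLinearMap ∘ₗ l

lemma cf_apply (l : V →ₗ[ℝ] ℝ) (v : V) : cf l v = (l v : ℂ) := rfl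

lemma cf_add (l l' : V →ₗ[ℝ] ℝ) : cf (l + l') = cf l + cf l' := by
  refine LinearMap.ext fun v => ?_
  simp [cf_apply]

lemma cf_smul (x : ℝ) (l : V →ₗ[ℝ] ℝ) : cf (x • l) = (x : ℂ) • cf l := by
  refine LinearMap.ext fun v => ?_
  simp [cf_apply]

/-- real part -/
def rp (a : V →ₗ[ℝ] ℂ) : V →ₗ[ℝ] ℝ := Complex.reLm ∘ₗ a

/-- imaginary part -/
def ip (a : V →ₗ[ℝ] ℂ) : V →ₗ[ℝ] ℝ := Complex.imLm ∘ₗ a

lemma rp_apply (a : V →ₗ[ℝ] ℂ) (v : V) : rp a v = (a v).re := rfl

lemma ip_apply (a : V →ₗ[ℝ] ℂ) (v : V) : ip a v = (a v).im := rfl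

lemma dec (a : V →ₗ[ℝ] ℂ) : a = cf (rp a) + Complex.I • cf (ip a) := by
  refine LinearMap.ext fun v => ?_
  rw [LinearMap.add_apply, LinearMap.smul_apply, cf_apply, cf_apply, rp_apply, ip_apply, smul_eq_mul,
    mul_comm]
  exact (Complex.re_add_im _).symm

variable [FiniteDimensional ℝ V]

/-- an endomorphism of the dual is a transpose -/
lemma transp (α : (V →ₗ[ℝ] ℝ) →ₗ[ℝ] (V →ₗ[ℝ] ℝ)) :
    ∃ A : Module.End ℝ V, ∀ l v, α l v = l (A v) := by
  refine ⟨(Module.evalEquiv ℝ V).symm.toLinearMap ∘ₗ (Module.Dual.transpose (R := ℝ) α) ∘ₗ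
    (Module.evalEquiv ℝ V).toLinearMap, fun l v => ?_⟩
  have h1 : ∀ (ξ : Module.Dual ℝ (Module.Dual ℝ V)), l ((Module.evalEquiv ℝ V).symm ξ) = ξ l := by
    intro ξ
    exact Module.apply_evalEquiv_symm_apply ℝ V l ξ
  rw [LinearMap.comp_apply, LinearMap.comp_apply]
  erw [h1]
  rfl

/-- a complex linear endomorphism of the complex valued functionals -/
lemma real_form (D : Module.End ℂ (V →ₗ[ℝ] ℂ)) :
    ∃ A B : Module.End ℝ V, ∀ a, D a = a ∘ₗ A + Complex.I • (a ∘ₗ B) := by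
  obtain ⟨A, hA⟩ := transp (V := V)
    { toFun := fun l => rp (D (cf l))
      map_add' := fun l l' => by
        rw [cf_add, map_add]
        rfl
      map_smul' := fun x l => by
        rw [cf_smul, map_smul]
        refine LinearMap.ext fun v => ?_
        simp [rp_apply] }
  obtain ⟨B, hB⟩ := transp (V := V)
    { toFun := fun l => ip (D (cf l))
      map_add' := fun l l' => by
        rw [cf_add, map_add]
        rfl
      map_smul' := fun x l => by
        rw [cf_smul, map_smul]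
        refine LinearMap.ext fun v => ?_
        simp [ip_apply] }
  have hA' : ∀ l v, ((D (cf l)) v).re = l (A v) := hA
  have hB' : ∀ l v, ((D (cf l)) v).im = l (B v) := hB
  have h1 : ∀ l v, D (cf l) v = (l (A v) : ℂ) + Complex.I * (l (B v) : ℂ) := by
    intro l v
    rw [← hA' l v, ← hB' l v, mul_comm]
    exact (Complex.re_add_im _).symm
  refine ⟨A, B, fun a => ?_⟩
  refine LinearMap.ext fun v => ?_
  have h2 : D a = D (cf (rp a)) + Complex.I • D (cf (ip a)) := by
    conv_lhs => rw [dec a]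
    rw [map_add, map_smul]
  have hv : ∀ w, a w = ((a w).re : ℂ) + ((a w).im : ℂ) * Complex.I := fun w => (Complex.re_add_im _).symm
  rw [h2, LinearMap.add_apply, LinearMap.smul_apply, h1, h1, LinearMap.add_apply, LinearMap.smul_apply,
    LinearMap.comp_apply, LinearMap.comp_apply, hv (A v), hv (B v)]
  simp only [rp_apply, ip_apply, smul_eq_mul]
  ring

omit [FiniteDimensional ℝ V] in
lemma real_uniq (A B A' B' : Module.End ℝ V)
    (h : ∀ a : V →ₗ[ℝ] ℂ, ∀ v, a (A v) + Complex.I * a (B v) = a (A' v) + Complex.I * a (B' v)) :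
    A = A' ∧ B = B' := by
  have hl : ∀ l : V →ₗ[ℝ] ℝ, ∀ v, l (A v) = l (A' v) ∧ l (B v) = l (B' v) := by
    intro l v
    have h1 := h (cf l) v
    simp only [cf_apply] at h1
    have h2 := congrArg Complex.re h1
    have h3 := congrArg Complex.im h1
    simp at h2 h3
    exact ⟨h2, h3⟩
  constructor
  · refine LinearMap.ext fun v => ?_
    exact (Module.forall_dual_apply_eq_zero_iff ℝ (A v - A' v)).1 (fun l => by
      rw [map_sub, (hl l v).1, sub_self]) |> sub_eq_zero.1
  · refine LinearMap.ext fun v => ?_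
    exact (Module.forall_dual_apply_eq_zero_iff ℝ (B v - B' v)).1 (fun l => by
      rw [map_sub, (hl l v).2, sub_self]) |> sub_eq_zero.1

end real

variable {X : GF}

/-- composition with `ρ x` -/
lemma comp_rho (t : Tp X) (x : t.E) (a : t.T.V →ₗ[ℝ] ℂ) (v : t.T.V) :
    a (t.B.ρ x v) = (∑ φ, X.τ (φ x) • t.B.pr φ a) v := by
  have h1 : ∀ a : t.T.V →ₗ[ℝ] ℂ, pull (t.B.ρ x) a = (∑ φ, X.τ (φ x) • t.B.pr φ) a := by
    intro a
    have h2 : pull (t.B.ρ x) = ∑ φ, X.τ (φ x) • t.B.pr φ := by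
      refine t.B.b.ext fun ⟨φ, i⟩ => ?_
      rw [LinearMap.sum_apply, Finset.sum_eq_single φ]
      · rw [LinearMap.smul_apply, Sub_aux.pr_basis_self]
        refine LinearMap.ext fun v => ?_
        exact t.B.act φ i x v
      · intro φ' _ h
        rw [LinearMap.smul_apply, Sub_aux.pr_basis_ne _ _ _ h, smul_zero]
      · intro h
        exact absurd (Finset.mem_univ φ) h
    rw [h2]
  have h3 := LinearMap.congr_fun (h1 a) v
  rw [LinearMap.sum_apply] at h3
  exact h3

/-- one type: an endomorphism of `H^1` commuting with the projections and skew comes from linear skew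
endomorphisms -/
lemma one (t : Tp X) (f : LinearMap.BilinForm ℂ (t.T.V →ₗ[ℝ] ℂ)) (hf : IsFrm t f)
    (D : Module.End ℂ (t.T.V →ₗ[ℝ] ℂ)) (hD : ∀ φ a, D (t.B.pr φ a) = t.B.pr φ (D a))
    (hs : ∀ a b, f (D a) b + f a (D b) = 0) :
    ∃ A B : Module.End ℝ t.T.V, (∀ a, D a = a ∘ₗ A + Complex.I • (a ∘ₗ B)) ∧
      ((∀ x v, A (t.B.ρ x v) = t.B.ρ x (A v)) ∧ ∀ u v, t.R (A u) v + t.R u (A v) = 0) ∧
      ((∀ x v, B (t.B.ρ x v) = t.B.ρ x (B v)) ∧ ∀ u v, t.R (B u) v + t.R u (B v) = 0) := by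
  have : FiniteDimensional ℝ t.T.V := FiniteDimensional.complexToReal t.T.V
  obtain ⟨A, B, hAB⟩ := real_form D
  have hDv : ∀ a v, D a v = a (A v) + Complex.I * a (B v) := fun a v => by
    rw [hAB]; rfl
  have hcomm : ∀ x, (t.B.ρ x).restrictScalars ℝ * A = A * (t.B.ρ x).restrictScalars ℝ ∧
      (t.B.ρ x).restrictScalars ℝ * B = B * (t.B.ρ x).restrictScalars ℝ := by
    intro x
    refine real_uniq _ _ _ _ fun a v => ?_
    have h1 : D (pull (t.B.ρ x) a) = pull (t.B.ρ x) (D a) := by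
      have h2 : ∀ a : t.T.V →ₗ[ℝ] ℂ, pull (t.B.ρ x) a = ∑ φ, X.τ (φ x) • t.B.pr φ a := fun a =>
        LinearMap.ext fun v => comp_rho t x a v
      rw [h2, h2, map_sum]
      refine Finset.sum_congr rfl fun φ _ => ?_
      rw [map_smul, hD]
    have h3 := LinearMap.congr_fun h1 v
    rw [hDv] at h3
    have h4 : pull (t.B.ρ x) (D a) v = D a (t.B.ρ x v) := rfl
    rw [h4, hDv] at h3
    exact h3
  have hskew : ∀ u v, (t.R (A u) v + t.R u (A v) = 0) ∧ (t.R (B u) v + t.R u (B v) = 0) := by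
    intro u v
    have h1 := hs (rf t u) (rf t v)
    rw [hf.alt (D (rf t u)) (rf t v), hf.val, hf.val, hDv, hDv] at h1
    have hr : ∀ w w', rf t w w' = (t.R w w' : ℂ) := fun w w' => rfl
    rw [hr, hr, hr, hr] at h1
    have h2 := congrArg Complex.re h1
    have h3 := congrArg Complex.im h1
    simp at h2 h3
    rw [t.alt (A u) v, t.alt (B u) v]
    constructor <;> linarith
  exact ⟨A, B, hAB, ⟨fun x v => (LinearMap.congr_fun (hcomm x).1 v).symm, fun u v => (hskew u v).1⟩,
    ⟨fun x v => (LinearMap.congr_fun (hcomm x).2 v).symm, fun u v => (hskew u v).2⟩⟩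

variable {J : Type} [Fintype J]

/-- all types -/
lemma all (S : J → Tp X) (f : ∀ j, LinearMap.BilinForm ℂ ((S j).T.V →ₗ[ℝ] ℂ))
    (hf : ∀ j, IsFrm (S j) (f j)) (C : Subalgebra ℂ (Module.End ℂ (VL S))) (hC : (C : Set _) = CS S)
    (P : Module.End ℂ (VL S)) (hP : InL (FRM S f) C P) :
    ∃ A B : ∀ j, Module.End ℝ (S j).T.V, LinSkew S A ∧ LinSkew S B ∧
      ∀ (a : VL S) j, P a j = a j ∘ₗ A j + Complex.I • (a j ∘ₗ B j) := by
  classical
  obtain ⟨hcom, hsk⟩ := hP
  -- the projections are in `C`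
  have heL : ∀ l, eL S l ∈ C := by
    intro l
    have : eL S l ∈ (C : Set _) := by
      rw [hC]
      refine ⟨fun l' => if l' = l then 1 else 0, ?_⟩
      rw [Finset.sum_eq_single l]
      · dsimp only
        rw [if_pos rfl, one_smul]
      · intro l' _ h
        dsimp only
        rw [if_neg h, zero_smul]
      · intro h
        exact absurd (Finset.mem_univ l) h
    exact this
  have hcomv : ∀ l v, P (eL S l v) = eL S l (P v) := fun l v => LinearMap.congr_fun (hcom _ (heL l)) v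
  -- block diagonal
  have hblk : ∀ (v : VL S) j, P (Pi.single (M := fun j => ((S j).T.V →ₗ[ℝ] ℂ)) j (v j)) =
      Pi.single (M := fun j => ((S j).T.V →ₗ[ℝ] ℂ)) j (P v j) := by
    intro v j
    rw [← Sub_aux.sum_comp S j v, map_sum, ← Sub_aux.sum_comp S j (P v)]
    exact Finset.sum_congr rfl fun φ _ => hcomv _ _
  let D : ∀ j, Module.End ℂ ((S j).T.V →ₗ[ℝ] ℂ) := fun j =>
    LinearMap.proj j ∘ₗ P ∘ₗ LinearMap.single ℂ (fun j => ((S j).T.V →ₗ[ℝ] ℂ)) j
  have hDdef : ∀ j a, D j a = P (Pi.single (M := fun j => ((S j).T.V →ₗ[ℝ] ℂ)) j a) j := fun j a => rfl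
  have hPD : ∀ (v : VL S) j, P v j = D j (v j) := by
    intro v j
    rw [hDdef, hblk, Pi.single_eq_same]
  have hPs : ∀ j a, P (Pi.single (M := fun j => ((S j).T.V →ₗ[ℝ] ℂ)) j a) =
      Pi.single (M := fun j => ((S j).T.V →ₗ[ℝ] ℂ)) j (D j a) := by
    intro j a
    have h1 := hblk (Pi.single (M := fun j => ((S j).T.V →ₗ[ℝ] ℂ)) j a) j
    rw [Pi.single_eq_same] at h1
    exact h1
  have hpr : ∀ j φ a, D j ((S j).B.pr φ a) = (S j).B.pr φ (D j a) := by
    intro j φ a
    have h1 := hcomv ⟨j, φ⟩ (Pi.single (M := fun j => ((S j).T.V →ₗ[ℝ] ℂ)) j a)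
    rw [Sub_aux.eL_apply, Sub_aux.eL_apply, hPs, Pi.single_eq_same] at h1
    dsimp only at h1
    rw [hPs, Pi.single_eq_same] at h1
    have h2 := congrFun h1 j
    rwa [Pi.single_eq_same, Pi.single_eq_same] at h2
  have hFR : ∀ x y : VL S, FRM S f x y = ∑ j, f j (x j) (y j) := by
    intro x y
    rw [FRM, LinearMap.sum_apply, LinearMap.sum_apply]
    rfl
  have hsj : ∀ j a b, f j (D j a) b + f j a (D j b) = 0 := by
    intro j a b
    have h1 := hsk (Pi.single (M := fun j => ((S j).T.V →ₗ[ℝ] ℂ)) j a)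
      (Pi.single (M := fun j => ((S j).T.V →ₗ[ℝ] ℂ)) j b)
    rw [hPs, hPs, hFR, hFR, Finset.sum_eq_single j, Finset.sum_eq_single j] at h1
    · simpa only [Pi.single_eq_same] using h1
    · intro j' _ h
      rw [Pi.single_eq_of_ne h, map_zero, LinearMap.zero_apply]
    · intro h
      exact absurd (Finset.mem_univ j) h
    · intro j' _ h
      rw [Pi.single_eq_of_ne h, map_zero, LinearMap.zero_apply]
    · intro h
      exact absurd (Finset.mem_univ j) h
  choose A B hAB hA hB using fun j => one (S j) (f j) (hf j) (D j) (hpr j) (hsj j)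
  exact ⟨A, B, hA, hB, fun a j => by rw [hPD, hAB]⟩

end KdC_aux

theorem tKdC : S_KdC := by
  intro X J _ S f hf C hC q F hF P Q hP hQ a
  obtain ⟨A, B, hA, hB, hAB⟩ := KdC_aux.all S f hf C hC P hP
  obtain ⟨A', B', hA', hB', hAB'⟩ := KdC_aux.all S f hf C hC Q hQ
  have hbr : ∀ v : VL S, (P * Q - Q * P) v =
      (fun j => v j ∘ₗ brF A' A j) + Complex.I • (fun j => v j ∘ₗ brF B' A j) +
        Complex.I • (fun j => v j ∘ₗ brF A' B j) + (-1 : ℂ) • (fun j => v j ∘ₗ brF B' B j) := by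
    intro v
    funext j
    refine LinearMap.ext fun w => ?_
    have h1 : (P * Q - Q * P) v j = P (Q v) j - Q (P v) j := rfl
    rw [h1, hAB, hAB', hAB', hAB]
    simp only [brF, LinearMap.sub_apply, LinearMap.add_apply, LinearMap.smul_apply, LinearMap.comp_apply,
      Pi.add_apply, Pi.smul_apply, Module.End.mul_apply, smul_eq_mul, map_sub]
    linear_combination (v j (B' j (B j w)) - v j (B j (B' j w))) * Complex.I_mul_I
  have hsum : ∀ p, F (Function.update a p ((P * Q - Q * P) (a p))) =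
      F (Function.update a p (fun j => a p j ∘ₗ brF A' A j)) +
        Complex.I * F (Function.update a p (fun j => a p j ∘ₗ brF B' A j)) +
        Complex.I * F (Function.update a p (fun j => a p j ∘ₗ brF A' B j)) +
        (-1) * F (Function.update a p (fun j => a p j ∘ₗ brF B' B j)) := by
    intro p
    rw [hbr, F.map_update_add, F.map_update_add, F.map_update_add, F.map_update_smul, F.map_update_smul,
      F.map_update_smul]
    rfl
  rw [Finset.sum_congr rfl fun p _ => hsum p, Finset.sum_add_distrib, Finset.sum_add_distrib,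
    Finset.sum_add_distrib, ← Finset.mul_sum, ← Finset.mul_sum, ← Finset.mul_sum, hF A' A hA' hA a,
    hF B' A hB' hA a, hF A' B hA' hB a, hF B' B hB' hB a]
  ring

end SE
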