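import Pool.Agent.Lib.SE.W.Spec
import Pool.Agent.Lib.HC.B.Main
import Pool.Agent.Lib.HC.L.Lf

/-!
# PROJECT SE, part W, module Kf (helper63)

`tKf : S_Kf`: THEOREM K for abstract types from THEOREM M (isogenies, products).
-/

set_option autoImplicit false

open scoped ComplexConjugate
open HC

noncomputable section

namespace SE

namespace Kf_aux

/-! ## Products exist -/

section prd

variable {ι : Type} (T : ι → AV)

/-- the product lattice -/
def lt : Submodule ℤ (∀ k, (T k).V) := Submodule.pi Set.univ fun k => (T k).L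

theorem mem_lt (v : ∀ k, (T k).V) : v ∈ lt T ↔ ∀ k, v k ∈ (T k).L := by
  unfold lt
  rw [Submodule.mem_pi]
  exact ⟨fun h k => h k (Set.mem_univ k), fun h k _ => h k⟩

variable [Fintype ι]

theorem disc : DiscreteTopology (lt T) := by
  have e : Topology.IsEmbedding (fun x : lt T => ((fun k => ⟨x.1 k, (mem_lt T x.1).1 x.2 k⟩) :
      ∀ k, (T k).L)) := by
    refine ⟨?_, ?_⟩
    · refine ⟨?_⟩
      have h1 : Topology.IsInducing (fun p : ∀ k, (T k).L => ((fun k => (p k).1) : ∀ k, (T k).V)) :=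
        Topology.IsInducing.piMap fun k => Topology.IsInducing.subtypeVal
      have h2 : Topology.IsInducing ((fun p : ∀ k, (T k).L => ((fun k => (p k).1) : ∀ k, (T k).V)) ∘
          (fun x : lt T => ((fun k => ⟨x.1 k, (mem_lt T x.1).1 x.2 k⟩) : ∀ k, (T k).L))) :=
        Topology.IsInducing.subtypeVal
      exact (h1.of_comp_iff.1 h2).eq_induced
    · intro x y hxy
      apply Subtype.ext
      funext k
      exact congrArg (fun p : ∀ k, (T k).L => ((p k).1 : (T k).V)) hxy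
  exact e.discreteTopology

open Classical in
theorem span : Submodule.span ℝ ((lt T : Submodule ℤ (∀ k, (T k).V)) : Set (∀ k, (T k).V)) = ⊤ := by
  rw [eq_top_iff]
  rintro v -
  have h0 : v = ∑ k, Pi.single k (v k) := (Finset.univ_sum_single v).symm
  rw [h0]
  refine Submodule.sum_mem _ fun k _ => ?_
  have hk : v k ∈ Submodule.span ℝ ((T k).L : Set (T k).V) := by
    rw [(T k).latt.span_top]
    exact Submodule.mem_top
  obtain ⟨y, hy⟩ : ∃ y, y = v k := ⟨_, rfl⟩
  rw [← hy] at hk ⊢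
  clear hy h0
  induction hk using Submodule.span_induction with
  | mem x hx =>
    refine Submodule.subset_span ((mem_lt T _).2 fun l => ?_)
    by_cases h : l = k
    · subst h
      rw [Pi.single_eq_same]
      exact hx
    · rw [Pi.single_eq_of_ne h]
      exact (T l).L.zero_mem
  | zero =>
    rw [Pi.single_zero]
    exact Submodule.zero_mem _
  | add x y _ _ hx hy =>
    rw [Pi.single_add]
    exact Submodule.add_mem _ hx hy
  | smul r x _ hx =>
    rw [Pi.single_smul]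
    exact Submodule.smul_mem _ _ hx

theorem ex_prd : Nonempty (Prd T) := by
  have hd : DiscreteTopology (lt T) := disc T
  have hl : IsZLattice ℝ (lt T) := ⟨span T⟩
  choose E h1 h2 h3 h4 using fun k => (T k).pol
  have hsum : ∀ u v : ∀ k, (T k).V,
      (∑ k, (E k).compl₁₂ (LinearMap.proj k : (∀ k, (T k).V) →ₗ[ℝ] (T k).V)
        (LinearMap.proj k : (∀ k, (T k).V) →ₗ[ℝ] (T k).V)) u v = ∑ k, E k (u k) (v k) := by
    intro u v
    rw [LinearMap.sum_apply, LinearMap.sum_apply]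
    rfl
  refine ⟨{ Y := { V := ∀ k, (T k).V, L := lt T, pol := ?_ },
            ψ := LinearEquiv.refl ℂ (∀ k, (T k).V), lat := fun v => mem_lt T v }⟩
  refine ⟨∑ k, (E k).compl₁₂ (LinearMap.proj k : (∀ k, (T k).V) →ₗ[ℝ] (T k).V)
        (LinearMap.proj k : (∀ k, (T k).V) →ₗ[ℝ] (T k).V), ?_, ?_, ?_, ?_⟩
  · intro u hu v hv
    choose n hn using fun k => h1 k (u k) ((mem_lt T u).1 hu k) (v k) ((mem_lt T v).1 hv k)
    refine ⟨∑ k, n k, ?_⟩
    rw [hsum]
    push_cast
    exact Finset.sum_congr rfl fun k _ => hn k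
  · intro u v
    rw [hsum, hsum, ← Finset.sum_neg_distrib]
    exact Finset.sum_congr rfl fun k _ => h2 k _ _
  · intro u v
    rw [hsum, hsum]
    exact Finset.sum_congr rfl fun k _ => h3 k _ _
  · intro v hv
    rw [hsum]
    obtain ⟨k, hk⟩ : ∃ k, v k ≠ 0 := by
      by_contra h
      push Not at h
      exact hv (funext h)
    refine Finset.sum_pos' (fun l _ => ?_) ⟨k, Finset.mem_univ k, h4 k _ hk⟩
    by_cases hl0 : v l = 0
    · rw [hl0]; simp
    · exact (h4 l _ hl0).le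

end prd

/-! ## Rank one -/

variable {X : GF}

/-- The functions `b (φ, i)` are eigenvectors. -/
theorem eig (t : Tp X) (hr : t.r = 1) (U : Module.End ℝ t.T.V)
    (hU : ∀ x v, U (t.B.ρ x v) = t.B.ρ x (U v)) (φ : t.E →+* X.K) (i : Fin t.r) :
    ∃ c : ℂ, ∀ v, t.B.b (φ, i) (U v) = c * t.B.b (φ, i) v := by
  have : Subsingleton (Fin t.r) := by rw [hr]; infer_instance
  obtain ⟨w, hw⟩ : ∃ w : t.T.V →ₗ[ℝ] ℂ, w = t.B.b (φ, i) ∘ₗ U := ⟨_, rfl⟩
  have hwa : ∀ v, w v = t.B.b (φ, i) (U v) := fun v => by rw [hw]; rfl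
  have : Fintype (t.E →+* X.K) := Fintype.ofFinite _
  have hex : w = ∑ s, t.B.b.repr w s • t.B.b s := (t.B.b.sum_repr w).symm
  have hzero : ∀ s : (t.E →+* X.K) × Fin t.r, s ≠ (φ, i) → t.B.b.repr w s = 0 := by
    intro s hs
    have hne : s.1 ≠ φ := by
      intro h
      apply hs
      exact Prod.ext h (Subsingleton.elim _ _)
    obtain ⟨x, hx⟩ : ∃ x, s.1 x ≠ φ x := by
      by_contra h
      push Not at h
      exact hne (RingHom.ext h)
    -- compare the coordinates of w ∘ ρ x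
    have e1 : ∀ v, w (t.B.ρ x v) = X.τ (φ x) * w v := by
      intro v
      rw [hwa, hwa, hU, t.B.act]
    have e2 : ∑ s, (t.B.b.repr w s * (X.τ (s.1 x) - X.τ (φ x))) • t.B.b s = 0 := by
      refine LinearMap.ext fun v => ?_
      rw [LinearMap.sum_apply, LinearMap.zero_apply]
      have e3 : w (t.B.ρ x v) = ∑ s, t.B.b.repr w s * (X.τ (s.1 x) * t.B.b s v) := by
        conv_lhs => rw [hex]
        rw [LinearMap.sum_apply]
        refine Finset.sum_congr rfl fun s _ => ?_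
        rw [LinearMap.smul_apply, smul_eq_mul]
        rw [show t.B.b s (t.B.ρ x v) = X.τ (s.1 x) * t.B.b s v from t.B.act s.1 s.2 x v]
      have e4 : w v = ∑ s, t.B.b.repr w s * t.B.b s v := by
        conv_lhs => rw [hex]
        rw [LinearMap.sum_apply]
        rfl
      have e5 := e1 v
      rw [e3, e4, Finset.mul_sum] at e5
      have e6 : ∑ s, (t.B.b.repr w s * (X.τ (s.1 x) * t.B.b s v) -
          X.τ (φ x) * (t.B.b.repr w s * t.B.b s v)) = 0 := by
        rw [Finset.sum_sub_distrib, e5, sub_self]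
      rw [← e6]
      refine Finset.sum_congr rfl fun s _ => ?_
      rw [LinearMap.smul_apply, smul_eq_mul]
      ring
    have e7 := Fintype.linearIndependent_iff.1 t.B.b.linearIndependent _ e2 s
    rcases mul_eq_zero.1 e7 with h | h
    · exact h
    · exact absurd (X.τ.injective (sub_eq_zero.1 h)) hx
  refine ⟨t.B.b.repr w (φ, i), fun v => ?_⟩
  rw [← hwa]
  conv_lhs => rw [hex]
  rw [LinearMap.sum_apply, Finset.sum_eq_single (φ, i)]
  · rfl
  · intro s _ hs
    rw [hzero s hs, zero_smul]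
    rfl
  · intro h
    exact absurd (Finset.mem_univ _) h

/-- The commutator of linear endomorphisms of a type of rank one is zero. -/
theorem comm (t : Tp X) (hr : t.r = 1) (U U' : Module.End ℝ t.T.V)
    (hU : ∀ x v, U (t.B.ρ x v) = t.B.ρ x (U v))
    (hU' : ∀ x v, U' (t.B.ρ x v) = t.B.ρ x (U' v)) (v : t.T.V) :
    (U * U' - U' * U) v = 0 := by
  have h1 : ∀ s, t.B.b s ((U * U' - U' * U) v) = 0 := by
    rintro ⟨φ, i⟩
    obtain ⟨c, hc⟩ := eig t hr U hU φ i
    obtain ⟨c', hc'⟩ := eig t hr U' hU' φ i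
    rw [LinearMap.sub_apply, Module.End.mul_apply, Module.End.mul_apply, map_sub, hc, hc', hc', hc]
    ring
  have h2 : ∀ a : t.T.V →ₗ[ℝ] ℂ, a ((U * U' - U' * U) v) = 0 := by
    intro a
    have : Fintype (t.E →+* X.K) := Fintype.ofFinite _
    rw [← t.B.b.sum_repr a, LinearMap.sum_apply]
    refine Finset.sum_eq_zero fun s _ => ?_
    rw [LinearMap.smul_apply, h1, smul_zero]
  by_contra hne
  obtain ⟨g, hg⟩ : ∃ g : Module.Dual ℝ t.T.V, g ((U * U' - U' * U) v) ≠ 0 := by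
    by_contra h
    push Not at h
    exact hne ((Module.forall_dual_apply_eq_zero_iff ℝ _).1 h)
  apply hg
  have := h2 (Complex.ofRealCLM.toLinearMap ∘ₗ g)
  have h3 : ((g ((U * U' - U' * U) v) : ℝ) : ℂ) = 0 := this
  exact_mod_cast h3

end Kf_aux

open Kf_aux in
/-- **Kf**: THEOREM K for abstract types from THEOREM M. -/
theorem tKf : S_Kf := by
  intro Q hQ hM hD A n X SA hSA hA T q N t j Z hZ hDA ψ hψ d c hc hcc
  obtain ⟨P⟩ := ex_prd fun i => (SA i).T
  obtain ⟨ψA, hψA⟩ := hA P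
  obtain ⟨S, hS⟩ : ∃ S : Fin n ⊕ Fin q → Tp X, S = Sum.elim SA t := ⟨_, rfl⟩
  obtain ⟨Kc, hKc⟩ : ∃ Kc : Fin n ⊕ Fin N → Fin n ⊕ Fin q, Kc = Sum.map id j := ⟨_, rfl⟩
  subst hS
  subst hKc
  obtain ⟨C⟩ := ex_prd (fun k : Fin n ⊕ Fin N =>
    ((Sum.elim SA t : Fin n ⊕ Fin q → Tp X) (Sum.map id j k)).T)
  -- the isogeny
  obtain ⟨Φ, h1, h2⟩ : ∃ Φ : T.V ≃ₗ[ℂ] C.Y.V, (∀ v i, C.ψ (Φ v) (Sum.inl i) = P.ψ (ψA (ψ v).1) i) ∧
      ∀ v m, C.ψ (Φ v) (Sum.inr m) = (ψ v).2 m := by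
    refine ⟨ψ.trans (((ψA.trans P.ψ).prodCongr (LinearEquiv.refl ℂ _)).trans
      ((LinearEquiv.sumPiEquivProdPi ℂ (Fin n) (Fin N) (fun k : Fin n ⊕ Fin N =>
        ((Sum.elim SA t : Fin n ⊕ Fin q → Tp X) (Sum.map id j k)).T.V)).symm.trans C.ψ.symm)),
      fun v i => ?_, fun v m => ?_⟩
    · exact congrFun (LinearEquiv.apply_symm_apply C.ψ _) (Sum.inl i)
    · exact congrFun (LinearEquiv.apply_symm_apply C.ψ _) (Sum.inr m)
  have hΦ : ∀ v ∈ T.L, ∃ K : ℕ, K ≠ 0 ∧ K • Φ v ∈ C.Y.L := by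
    intro v hv
    obtain ⟨k, hk0, hk1, hk2⟩ := hψ v hv
    obtain ⟨l, hl0, hl⟩ := hψA _ hk1
    refine ⟨l * k, mul_ne_zero hl0 hk0, ?_⟩
    rw [C.lat]
    rintro (i | m)
    · rw [map_nsmul, Pi.smul_apply, h1]
      have h3 := (P.lat _).1 hl i
      rw [map_nsmul, map_nsmul, map_nsmul, ← mul_smul] at h3
      exact h3
    · rw [map_nsmul, Pi.smul_apply, h2]
      change (l * k) • ((ψ v).2 m : (t (j m)).T.V) ∈ (t (j m)).T.L
      rw [mul_smul]
      exact (t (j m)).T.L.smul_of_tower_mem l (hk2 m)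
  obtain ⟨M0, hM0, hM1⟩ := LfAux.unif Φ.toLinearMap hΦ
  have hMC : (M0 : ℂ) ≠ 0 := Nat.cast_ne_zero.2 hM0
  obtain ⟨f, hfa⟩ : ∃ f : T.V ≃ₗ[ℂ] C.Y.V, ∀ v, f v = (M0 : ℂ) • Φ v :=
    ⟨Φ.trans (LinearEquiv.smulOfNeZero ℂ C.Y.V (M0 : ℂ) hMC), fun v => rfl⟩
  have hf : ∀ v ∈ T.L, f v ∈ C.Y.L := by
    intro v hv
    rw [hfa, Nat.cast_smul_eq_nsmul]
    exact hM1 v hv
  obtain ⟨M, hM2, hM3⟩ := LfAux.inv f hf
  have hMC2 : (M : ℂ) ≠ 0 := Nat.cast_ne_zero.2 hM2
  obtain ⟨e, hea⟩ : ∃ e : C.Y.V →ₗ[ℂ] T.V, ∀ v, e v = (M : ℂ) • f.symm v :=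
    ⟨(M : ℂ) • f.symm.toLinearMap, fun v => rfl⟩
  have he : ∀ v ∈ C.Y.L, e v ∈ T.L := by
    intro v hv
    obtain ⟨w, hw, hfw⟩ := hM3 v hv
    have h3 : e v = w := by
      rw [hea, ← map_smul, Nat.cast_smul_eq_nsmul, ← hfw, LinearEquiv.symm_apply_apply]
    rw [h3]
    exact hw
  -- the image of the class
  have hc' : IsHodge C.Y d (push f.toLinearMap c) := tPushH.1 T C.Y f.toLinearMap hf d c hc
  have hK : KdY C (push f.toLinearMap c) := by
    intro U U' hU hU' W hW a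
    obtain ⟨Y, hY⟩ : ∃ Y : Module.End ℝ T.V, ∀ v, f (Y v) = W (f v) :=
      ⟨(f.symm.toLinearMap.restrictScalars ℝ) ∘ₗ W ∘ₗ (f.toLinearMap.restrictScalars ℝ),
        fun v => f.apply_symm_apply _⟩
    have h3 : ∀ v, ψ (Y v) = (0, fun n => ((fun i => U (Sum.inr i)) * (fun i => U' (Sum.inr i)) -
        (fun i => U' (Sum.inr i)) * (fun i => U (Sum.inr i)) : ∀ i, Module.End ℝ (t i).T.V) (j n)
          ((ψ v).2 n)) := by
      intro v
      have h4 : ∀ k, C.ψ (Φ (Y v)) k = brF U U' (Sum.map id j k) (C.ψ (Φ v) k) := by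
        intro k
        have h5 := hW (f v) k
        rw [← hY, hfa, hfa, map_smul, map_smul, Pi.smul_apply, Pi.smul_apply] at h5
        have h6 : brF U U' (Sum.map id j k) ((M0 : ℂ) • C.ψ (Φ v) k) =
            (M0 : ℂ) • brF U U' (Sum.map id j k) (C.ψ (Φ v) k) := by
          rw [Nat.cast_smul_eq_nsmul, Nat.cast_smul_eq_nsmul, map_nsmul]
        rw [h6] at h5
        exact smul_right_injective _ hMC h5
      refine Prod.ext ?_ ?_
      · apply ψA.injective
        apply P.ψ.injective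
        rw [map_zero, map_zero]
        funext i
        have h5 := h4 (Sum.inl i)
        rw [h1] at h5
        rw [h5]
        exact comm (SA i) (hSA i).1 _ _ (hU (Sum.inl i)).1 (hU' (Sum.inl i)).1 _
      · funext m
        have h5 := h4 (Sum.inr m)
        rw [h2, h2] at h5
        exact h5
    have h7 := hcc (fun i => U (Sum.inr i)) (fun i => U' (Sum.inr i)) (fun i => by
      obtain ⟨ζ, hζ⟩ := hZ i
      refine ⟨fun v => ?_, (hU (Sum.inr i)).2⟩
      rw [← hζ]
      exact (hU (Sum.inr i)).1 ζ v) (fun i => by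
      obtain ⟨ζ, hζ⟩ := hZ i
      refine ⟨fun v => ?_, (hU' (Sum.inr i)).2⟩
      rw [← hζ]
      exact (hU' (Sum.inr i)).1 ζ v) Y h3 (fun p => pull f.toLinearMap (a p))
    rw [← h7]
    unfold lieAct HC.SE.dact
    refine Finset.sum_congr rfl fun i _ => ?_
    show c (fun p => pull f.toLinearMap (Function.update a i (a i ∘ₗ W) p)) = _
    congr 1
    funext p
    by_cases hp : p = i
    · subst hp
      rw [Function.update_self, Function.update_self]
      refine LinearMap.ext fun v => ?_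
      show a p (W (f v)) = a p (f (Y v))
      rw [hY]
    · rw [Function.update_of_ne hp, Function.update_of_ne hp]
  have hDAS : ∀ s, Nonempty (DA Q ((Sum.elim SA t : Fin n ⊕ Fin q → Tp X) s)) := by
    rintro (i | i)
    · exact hD X (SA i) (hSA i).2.1 (hSA i).2.2
    · exact hDA i
  have h8 := hM X (Fin n ⊕ Fin q) (Sum.elim SA t) hDAS (Fin n ⊕ Fin N) (Sum.map id j) C d
    (push f.toLinearMap c) hc' hK
  have h9 := hQ.push e he h8
  have h10 : push e (push (T' := C.Y) f.toLinearMap c) = ((M : ℂ) ^ d) • c := by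
    refine tPushH.2 T C.Y f.toLinearMap e M (fun v => ?_) d c
    rw [hea]
    show (M : ℂ) • f.symm (f v) = _
    rw [LinearEquiv.symm_apply_apply]
  have h11 : c = ((M : ℂ) ^ d)⁻¹ • push e (push (T' := C.Y) f.toLinearMap c) := by
    rw [h10, smul_smul, inv_mul_cancel₀ (pow_ne_zero _ hMC2), one_smul]
  rw [h11]
  exact hQ.smul _ h9

end SE
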