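import Pool.Agent.Lib.SE.W.Spec

/-!
# PROJECT SE, part S7, module Kil: from `H^1(Y)` to `VL` (helper52)
-/

set_option autoImplicit false

open HC

noncomputable section

namespace SE

namespace Kil_aux

variable {X : GF} {J : Type} {S : J → Tp X} {N : Type} [Fintype N] {Kc : N → J}
  (C : Prd fun k => (S (Kc k)).T)

/-- the value of the form `inV C k b` -/
theorem inV_apply (k : N) (b : VL S) (v : C.Y.V) : inV C k b v = b (Kc k) (C.ψ v k) := rfl

/-- the action of a diagonal endomorphism -/
theorem key (Z : Module.End ℝ C.Y.V) (W : ∀ j, Module.End ℝ (S j).T.V)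
    (h : ∀ v k, C.ψ (Z v) k = W (Kc k) (C.ψ v k)) (m : ℕ) (c : Hlg C.Y m) (k : Fin m → N)
    (a : Fin m → VL S) :
    ∑ p, (c.toMultilinearMap.compLinearMap fun p => inV C (k p))
      (Function.update a p fun j => a p j ∘ₗ W j) =
      lieAct Z c (fun p => inV C (k p) (a p)) := by
  unfold lieAct
  refine Finset.sum_congr rfl fun p _ => ?_
  rw [MultilinearMap.compLinearMap_apply]
  change c _ = c _
  congr 1
  funext p'
  by_cases hp : p' = p
  · subst hp
    rw [Function.update_self, Function.update_self]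
    refine LinearMap.ext fun v => ?_
    rw [inV_apply, LinearMap.comp_apply, LinearMap.comp_apply, inV_apply, h]
  · rw [Function.update_of_ne hp, Function.update_of_ne hp]

/-- the diagonal endomorphism -/
def diagZ (W : ∀ j, Module.End ℝ (S j).T.V) : Module.End ℝ C.Y.V :=
  (C.ψ.symm.toLinearMap.restrictScalars ℝ) ∘ₗ
    (LinearMap.pi fun k => W (Kc k) ∘ₗ
      (LinearMap.proj k : (∀ k, (S (Kc k)).T.V) →ₗ[ℝ] (S (Kc k)).T.V)) ∘ₗ
    (C.ψ.toLinearMap.restrictScalars ℝ)

theorem diagZ_apply (W : ∀ j, Module.End ℝ (S j).T.V) (v : C.Y.V) (k : N) :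
    C.ψ (diagZ C W v) k = W (Kc k) (C.ψ v k) := by
  unfold diagZ
  simp only [LinearMap.comp_apply, LinearMap.restrictScalars_apply, LinearEquiv.coe_coe,
    LinearEquiv.apply_symm_apply, LinearMap.pi_apply, LinearMap.proj_apply]

end Kil_aux

open Kil_aux in
theorem tKil : S_Kil := by
  intro X J S N _ Kc C m c k
  refine ⟨?_, ?_⟩
  · intro hc U U' hU hU' a
    rw [key C (diagZ C (brF U U')) (brF U U') (diagZ_apply C (brF U U')) m c k a]
    exact hc U U' hU hU' _ (diagZ_apply C (brF U U')) _
  · intro hc a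
    rw [key C (mulI C.Y) (fun j => mulI (S j).T) ?_ m c k a]
    · exact hc _
    · intro v k
      change C.ψ (Complex.I • v) k = Complex.I • C.ψ v k
      rw [map_smul]
      rfl

end SE
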