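import Pool.Agent.Lib.SE.W.Spec

/-!
# PROJECT SE, part S7: THEOREM M (helper42)
-/

set_option autoImplicit false

open HC
open Pool.Agent.Lib.MP_640417_ag.Fg (Mono InL)

noncomputable section

namespace SE

namespace M_aux

theorem gl_comm {X : GF} (t : Tp X) (g : X.G) (φ : t.E →+* X.K) :
    gl g (gl X.c φ) = gl X.c (gl g φ) := by
  ext x
  show g (X.c (φ x)) = X.c (g (φ x))
  rw [← t.hinv φ x]
  exact t.hinv (gl g φ) x

/-- the weight of the labels -/
def wg {X : GF} {J : Type} (S : J → Tp X) (g : X.G) (l : Lb S) : ℂ :=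
  (S l.1).B.δ (gl g l.2) / ((S l.1).r : ℂ)

theorem wg_odd (hOdd : S_Odd) {X : GF} {J : Type} (S : J → Tp X) (g : X.G) (l : Lb S) :
    wg S g ⟨l.1, gl X.c l.2⟩ = -wg S g l := by
  show (S l.1).B.δ (gl g (gl X.c l.2)) / ((S l.1).r : ℂ) = -((S l.1).B.δ (gl g l.2) / _)
  rw [gl_comm, hOdd X (S l.1) (gl g l.2), neg_div]

theorem r_wg {X : GF} {J : Type} (S : J → Tp X) (g : X.G) (l : Lb S) :
    ((S l.1).r : ℂ) * wg S g l = (S l.1).B.δ (gl g l.2) := by
  by_cases hr : (S l.1).r = 0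
  · have h : (S l.1).B.δ (gl g l.2) = 0 := by
      have : IsEmpty (Fin (S l.1).r) := by
        rw [hr]
        infer_instance
      rw [Blk.δ]
      exact Fintype.sum_empty _
    rw [h, hr]
    simp
  · have hr' : ((S l.1).r : ℂ) ≠ 0 := Nat.cast_ne_zero.2 hr
    rw [wg, mul_div_assoc']
    exact mul_div_cancel_left₀ _ hr'

end M_aux

open M_aux in
theorem tM : S_M := by
  intro hLa hFrm hSub hKdC hCen hFFT hJz hExd hKil hCnj hBal hOdd hAlm hQal hMon hNmu hNre hNdt
    hNpr hInv hPol hTR Q hQ X J _ S hDA N _ Kc C m c hc hK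
  obtain ⟨q0, qadd, qsmul, qeq, qmul, qpush, qto, qfrom⟩ := hQal Q hQ
  apply qfrom
  rw [(hExd X J S N Kc C).2 m c]
  refine Finset.sum_induction _ (QA Q C.Y (Fin m)) (fun a b => qadd _ _ a b) (q0 _ _) fun u _ => ?_
  by_cases h0 : (c.toMultilinearMap.compLinearMap fun p => piU C (u p)) = 0
  · rw [h0]
    exact q0 _ _
  have hb := hBal hLa hFrm hSub hKdC hCen hJz hKil hCnj X J S N Kc C m c hc hK u h0
  choose f hf using fun j => hFrm X (S j)
  obtain ⟨F, hFd⟩ : ∃ F : MultilinearMap ℂ (fun _ : Fin m => VL S) ℂ,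
    F = c.toMultilinearMap.compLinearMap (fun p => inV C (u p).1) := ⟨_, rfl⟩
  have hF : KdR S F := by
    rw [hFd]
    exact (hKil X J S N Kc C m c (fun p => (u p).1)).1 hK
  have hspan := hFFT hSub hKdC hCen X J S f hf m F hF
  have key : ∀ g ∈ Submodule.span ℂ {M : (Fin m → VL S) → ℂ | Mono (FRM S f) (CS S) (StS S) m M},
      ∃ G : ML C.Y (Fin m), (∀ a, G a = g fun p => qU C (u p) (a p)) ∧ QA Q C.Y (Fin m) G := by
    intro g hg
    induction hg using Submodule.span_induction with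
    | mem M hM =>
      obtain ⟨G, hG, hN⟩ := hMon hNmu hNre hNdt hNpr hFrm hInv hAlm hQal hSub hPol Q hQ X J S f hf
        N Kc C m M hM u
      refine ⟨G, hG, hN (QA Q C.Y (Fin m)) (q0 _ _) (fun F G => qadd _ _ F G)
        (fun x F => qsmul _ _ x F) ?_ ?_⟩
      · intro F G hFG hF m' e
        rw [← hFG]
        exact hF m' e
      · intro σ _ s κ ι' _ G' hκ hG' hw e
        refine qeq _ _ _ e _ (qmul _ _ _ _ _ ?_ hG')
        refine hTR Q hQ X J S hDA C.Y σ s κ hκ fun g => ?_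
        have h1 := hw (wg S g) (wg_odd hOdd S g)
        have h2 : ∑ p, ((S (s p).1).r : ℂ) * wg S g (s p) = 0 := by
          rw [← h1]
          exact hb g
        rw [← h2]
        exact Finset.sum_congr rfl fun p _ => (r_wg S g (s p)).symm
    | zero => exact ⟨0, fun a => rfl, q0 _ _⟩
    | add g g' _ _ h1 h2 =>
      obtain ⟨G, hG, hG2⟩ := h1
      obtain ⟨G', hG', hG2'⟩ := h2
      refine ⟨G + G', fun a => ?_, qadd _ _ _ _ hG2 hG2'⟩
      show G a + G' a = _
      rw [hG, hG']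
      rfl
    | smul x g _ h1 =>
      obtain ⟨G, hG, hG2⟩ := h1
      refine ⟨x • G, fun a => ?_, qsmul _ _ _ _ hG2⟩
      show x • G a = _
      rw [hG]
      rfl
  obtain ⟨G, hG, hG2⟩ := key _ hspan
  have hGc : (c.toMultilinearMap.compLinearMap fun p => piU C (u p)) = G := by
    ext a
    rw [hG, hFd]
    rfl
  rw [hGc]
  exact hG2

end SE
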