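import Pool.Agent.Lib.SE.W.Spec
import Pool.Agent.Lib.HC.B.Pt

/-!
# PROJECT SE, part S7, module Mon: products of blocks
-/

set_option autoImplicit false

open scoped ComplexConjugate
open HC
open Pool.Agent.Lib.MP_640417_ag.Fg (Mono InL)

noncomputable section

namespace SE

namespace Mon_aux

/-- a bilinear form as a multilinear function of two variables -/
private def bil {V : Type} [AddCommGroup V] [Module ℂ V] {W : Type} [AddCommGroup W] [Module ℂ W]
    (B : LinearMap.BilinForm ℂ V) (p q : W →ₗ[ℂ] V) :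
    MultilinearMap ℂ (fun _ : Fin 2 => W) ℂ where
  toFun a := B (p (a 0)) (q (a 1))
  map_update_add' := by
    intro inst m i x y
    rw [Subsingleton.elim inst (fun a b => instDecidableEqFin 2 a b)]
    fin_cases i
    · simp
    · simp
  map_update_smul' := by
    intro inst m i x y
    rw [Subsingleton.elim inst (fun a b => instDecidableEqFin 2 a b)]
    fin_cases i
    · simp
    · simp

private lemma bil_apply {V : Type} [AddCommGroup V] [Module ℂ V] {W : Type} [AddCommGroup W]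
    [Module ℂ W] (B : LinearMap.BilinForm ℂ V) (p q : W →ₗ[ℂ] V) (a : Fin 2 → W) :
    bil B p q a = B (p (a 0)) (q (a 1)) := rfl

end Mon_aux

theorem tMon : S_Mon := by
  intro hNmu hNre hNdt hNpr hFrm hInv hAlm hQal hSub hPol Q hQ X J _ S f hf N _ Kc C q M hM
  induction hM with
  | const a =>
    intro u
    refine ⟨(AlternatingMap.constOfIsEmpty ℂ (C.Y.V →ₗ[ℝ] ℂ) (Fin 0) a).toMultilinearMap,
      fun _ => rfl, ?_⟩
    refine (hNre hAlm hQal Q hQ X J S C.Y (Fin 0)).2 _ _ ?_ ?_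
    · exact (hQal Q hQ).2.2.2.2.2.2.1 C.Y 0 _ (hQ.base (alg_zero_deg C.Y _))
    · intro w _
      exact Finset.sum_eq_zero fun i _ => Fin.elim0 i
  | pair c hc =>
    intro u
    refine ⟨Mon_aux.bil (FRM S f) (c ∘ₗ qU C (u 0)) (qU C (u 1)), fun _ => rfl, ?_⟩
    exact hNpr hFrm hInv hAlm hQal hNre hSub Q hQ X J S f hf N Kc C c hc u _ fun _ => rfl
  | det d W hW b p hp =>
    intro u
    refine ⟨b.det.toMultilinearMap.compLinearMap fun i => p i ∘ₗ qU C (u i), fun _ => rfl, ?_⟩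
    exact hNdt hPol hQal hSub Q hQ X J S N Kc C d W hW b p hp u _ fun _ => rfl
  | mul a b k e g h _ _ ihg ihh =>
    intro u
    obtain ⟨G₁, hG₁, n₁⟩ := ihg fun i => u (e (Sum.inl i))
    obtain ⟨G₂, hG₂, n₂⟩ := ihh fun i => u (e (Sum.inr i))
    refine ⟨(mulML G₁ G₂).domDomCongr e, fun x => ?_, ?_⟩
    · have h1 : (mulML G₁ G₂).domDomCongr e x =
          G₁ (fun i => x (e (Sum.inl i))) * G₂ (fun i => x (e (Sum.inr i))) := rfl
      rw [h1, hG₁, hG₂]
    · have h2 := hNmu hAlm hQal Q hQ X J S C.Y (Fin a) (Fin b) _ _ G₁ G₂ n₁ n₂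
      have h3 := (hNre hAlm hQal Q hQ X J S C.Y (Fin a ⊕ Fin b)).1 (Fin k) _ _ e h2
      have h4 : (((fun w : Lb S → ℂ => ∑ i : Fin a, w (lb (u (e (Sum.inl i))))) +
          fun w : Lb S → ℂ => ∑ i : Fin b, w (lb (u (e (Sum.inr i))))) : (Lb S → ℂ) → ℂ) =
          fun w : Lb S → ℂ => ∑ i : Fin k, w (lb (u i)) := by
        funext w
        rw [Pi.add_apply, ← Equiv.sum_comp e, Fintype.sum_sum_type]
      rw [h4] at h3
      exact h3

end SE
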