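import Pool.Agent.Lib.SE.W.Spec
import Pool.Agent.Lib.HC.B.Pt

/-!
# PROJECT SE, part S7, module Ndt: a determinant block
-/

set_option autoImplicit false

open HC

noncomputable section

namespace SE

namespace Ndt_aux

variable {X : GF} {J : Type}

open Classical in
theorem eL_apply (S : J → Tp X) (l : Lb S) (x : VL S) :
    eL S l x = Pi.single l.1 ((S l.1).B.pr l.2 (x l.1)) := rfl

theorem pr_apply {T : AV} {E : Type} [Field E] [NumberField E] {r : ℕ} (B : Blk X T E r)
    (φ : E →+* X.K) (a : T.V →ₗ[ℝ] ℂ) :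
    B.pr φ a = ∑ i, B.b.coord (φ, i) a • B.b (φ, i) := by
  rw [Blk.pr, LinearMap.sum_apply]
  rfl

theorem coord_pr {T : AV} {E : Type} [Field E] [NumberField E] {r : ℕ} (B : Blk X T E r)
    (φ : E →+* X.K) (i : Fin r) (a : T.V →ₗ[ℝ] ℂ) :
    B.b.coord (φ, i) (B.pr φ a) = B.b.coord (φ, i) a := by
  rw [pr_apply, map_sum, Finset.sum_eq_single i]
  · rw [map_smul, Module.Basis.coord_apply, Module.Basis.coord_apply, Module.Basis.repr_self,
      Finsupp.single_eq_same, smul_eq_mul, mul_one]
  · intro k _ hk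
    rw [map_smul, Module.Basis.coord_apply _ _ (B.b (φ, k)), Module.Basis.repr_self,
      Finsupp.single_eq_of_ne (by
        intro h
        exact hk (Prod.ext_iff.1 h).2.symm), smul_zero]
  · intro h
    exact absurd (Finset.mem_univ i) h

/-- Coordinates on the range of a projection. -/
def crd (S : J → Tp X) (l : Lb S) :
    LinearMap.range (eL S l) →ₗ[ℂ] (Fin (S l.1).r → ℂ) :=
  LinearMap.pi fun i => (S l.1).B.b.coord (l.2, i) ∘ₗ
    (LinearMap.proj l.1 : VL S →ₗ[ℂ] _) ∘ₗ Submodule.subtype _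

theorem crd_apply (S : J → Tp X) (l : Lb S) (x : LinearMap.range (eL S l))
    (i : Fin (S l.1).r) : crd S l x i = (S l.1).B.b.coord (l.2, i) ((x : VL S) l.1) := rfl

theorem eL_coord (S : J → Tp X) (l : Lb S) (x : VL S) (i : Fin (S l.1).r) :
    (S l.1).B.b.coord (l.2, i) (eL S l x l.1) = (S l.1).B.b.coord (l.2, i) (x l.1) := by
  classical
  rw [eL_apply]
  rw [← coord_pr (S l.1).B l.2 i (x l.1)]
  congr 1
  exact Pi.single_eq_same _ _

theorem crd_bij (S : J → Tp X) (l : Lb S) : Function.Bijective (crd S l) := by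
  classical
  constructor
  · refine (injective_iff_map_eq_zero _).2 ?_
    rintro ⟨x, y, rfl⟩ h
    refine Subtype.ext ?_
    have h1 : ∀ i, (S l.1).B.b.coord (l.2, i) (y l.1) = 0 := by
      intro i
      have h2 := congrFun h i
      rw [crd_apply] at h2
      rw [← eL_coord]
      exact h2
    change eL S l y = 0
    rw [eL_apply, pr_apply]
    simp_rw [h1, zero_smul, Finset.sum_const_zero]
    exact Pi.single_zero _
  · intro z
    refine ⟨⟨eL S l (Pi.single l.1 (∑ k, z k • (S l.1).B.b (l.2, k))), ⟨_, rfl⟩⟩, ?_⟩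
    funext i
    rw [crd_apply]
    change (S l.1).B.b.coord (l.2, i) (eL S l _ l.1) = _
    rw [eL_coord, Pi.single_eq_same, map_sum, Finset.sum_eq_single i]
    · rw [map_smul, Module.Basis.coord_apply, Module.Basis.repr_self, Finsupp.single_eq_same,
        smul_eq_mul, mul_one]
    · intro k _ hk
      rw [map_smul, Module.Basis.coord_apply, Module.Basis.repr_self,
        Finsupp.single_eq_of_ne (by
          intro h
          exact hk (Prod.ext_iff.1 h).2.symm), smul_zero]
    · intro h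
      exact absurd (Finset.mem_univ i) h

/-- The basis of the range of a projection. -/
def bas (S : J → Tp X) (l : Lb S) : Module.Basis (Fin (S l.1).r) ℂ (LinearMap.range (eL S l)) :=
  Module.Basis.ofEquivFun (LinearEquiv.ofBijective (crd S l) (crd_bij S l))

theorem bas_repr (S : J → Tp X) (l : Lb S) (x : LinearMap.range (eL S l))
    (i : Fin (S l.1).r) : (bas S l).repr x i = (S l.1).B.b.coord (l.2, i) ((x : VL S) l.1) := by
  rw [bas, Module.Basis.ofEquivFun_repr_apply]
  rfl

/-- The determinant in the coordinates. -/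
def dF {T Y : AV} {r : ℕ} (y : Fin r → ((T.V →ₗ[ℝ] ℂ) →ₗ[ℂ] ℂ)) (κ : Fin r → (T.V →ₗ[ℂ] Y.V)) :
    ML Y (Fin r) :=
  (Matrix.detRowAlternating : (Fin r → ℂ) [⋀^Fin r]→ₗ[ℂ] ℂ).toMultilinearMap.compLinearMap
    fun i => LinearMap.pi fun l => y l ∘ₗ pull (κ i)

theorem dF_apply {T Y : AV} {r : ℕ} (y : Fin r → ((T.V →ₗ[ℝ] ℂ) →ₗ[ℂ] ℂ))
    (κ : Fin r → (T.V →ₗ[ℂ] Y.V)) (a : Fin r → (Y.V →ₗ[ℝ] ℂ)) :
    dF y κ a = Matrix.det (Matrix.of fun i l => y l (pull (κ i) (a i))) := rfl

theorem qa_const (Q : (T : AV) → (m : ℕ) → Hlg T m → Prop) (hQ : Cl Q) (Y : AV) :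
    QA Q Y Empty (MultilinearMap.constOfIsEmpty ℂ _ 1) := by
  intro m e
  obtain rfl : m = 0 := by
    have h := Fintype.card_congr e
    simpa using h.symm
  exact hQ.base (alg_zero_deg _ _)

/-- The reindexing. -/
def eqv (r : ℕ) : ((_p : Unit) × Fin r) ⊕ Empty ≃ Fin r where
  toFun := Sum.elim (fun q => q.2) Empty.elim
  invFun i := Sum.inl ⟨(), i⟩
  left_inv := by
    rintro (⟨⟨⟩, i⟩ | h)
    · rfl
    · exact h.elim
  right_inv i := rfl

theorem emb_mem {N : Type} [Fintype N] {S : J → Tp X} {Kc : N → J}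
    (C : Prd fun k => (S (Kc k)).T) (k : N) (j : J) (v : (S j).T.V) (hv : v ∈ (S j).T.L) :
    emb C k j v ∈ C.Y.L := by
  classical
  rw [C.lat]
  intro k'
  have h1 : C.ψ (emb C k j v) = Pi.single k ((Pi.single j v : ∀ j, (S j).T.V) (Kc k)) := by
    unfold emb
    simp only [LinearMap.comp_apply, LinearEquiv.coe_coe, LinearEquiv.apply_symm_apply]
    rw [LinearMap.coe_single, LinearMap.coe_single, LinearMap.proj_apply]
  rw [h1]
  by_cases h2 : k' = k
  · subst h2
    rw [Pi.single_eq_same]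
    by_cases h3 : Kc k' = j
    · subst h3
      rw [Pi.single_eq_same]
      exact hv
    · rw [Pi.single_eq_of_ne h3]
      exact Submodule.zero_mem _
  · rw [Pi.single_eq_of_ne h2]
    exact Submodule.zero_mem _

end Ndt_aux

open Ndt_aux

/-- **Ndt**. -/
theorem tNdt : S_Ndt := by
  classical
  intro hPol hQal hSub Q hQ X J _ S N _ Kc C d W hW b p hp u G hG
  obtain ⟨hid, hor, hone, _⟩ := hSub X J S
  obtain ⟨l, rfl⟩ := hW
  have hpi : ∀ i, ∃ γ : ℂ, ∀ x, ((p i x : LinearMap.range (eL S l)) : VL S) = γ • eL S l x := by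
    intro i
    obtain ⟨c, hc⟩ := hp i
    refine ⟨c l, fun x => ?_⟩
    have h1 : ((p i x : LinearMap.range (eL S l)) : VL S) = ∑ l', c l' • eL S l' x := by
      have h2 := LinearMap.congr_fun hc x
      rw [LinearMap.sum_apply] at h2
      exact h2
    have h3 : eL S l ((p i x : LinearMap.range (eL S l)) : VL S) =
        ((p i x : LinearMap.range (eL S l)) : VL S) := by
      obtain ⟨y, hy⟩ := (p i x).2
      rw [← hy]
      exact LinearMap.congr_fun (hid l) y
    rw [← h3, h1, map_sum, Finset.sum_eq_single l]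
    · rw [map_smul]
      congr 1
      exact LinearMap.congr_fun (hid l) x
    · intro l' _ hl'
      rw [map_smul]
      have h4 : eL S l (eL S l' x) = 0 := LinearMap.congr_fun (hor l l' (Ne.symm hl')) x
      rw [h4, smul_zero]
    · intro h
      exact absurd (Finset.mem_univ l) h
  choose γ hγ using hpi
  by_cases hu : ∀ i, lb (u i) = l
  · obtain rfl : d = (S l.1).r := by
      have h := Fintype.card_congr (b.indexEquiv (bas S l))
      simpa using h
    set y : Fin (S l.1).r → (((S l.1).T.V →ₗ[ℝ] ℂ) →ₗ[ℂ] ℂ) :=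
      fun l' => (S l.1).B.b.coord (l.2, l') with hy
    set κ : Fin (S l.1).r → ((S l.1).T.V →ₗ[ℂ] C.Y.V) := fun i => emb C (u i).1 l.1 with hκ
    have hG2 : G = (b.det (bas S l) * ∏ i, γ i) • dF y κ := by
      ext a
      rw [hG, _root_.smul_apply, dF_apply, smul_eq_mul]
      have h1 : b.det = b.det (bas S l) • (bas S l).det := AlternatingMap.eq_smul_basis_det _ _
      have h2 : b.det (fun i => p i (qU C (u i) (a i))) =
          b.det (bas S l) * (bas S l).det (fun i => p i (qU C (u i) (a i))) := by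
        conv_lhs => rw [h1]
        rfl
      rw [h2, mul_assoc]
      congr 1
      rw [Module.Basis.det_apply, ← Matrix.det_transpose,
        ← Matrix.det_mul_column γ (Matrix.of fun i l => y l (pull (κ i) (a i)))]
      congr 1
      ext i l'
      rw [Matrix.transpose_apply, Module.Basis.toMatrix_apply, bas_repr, hγ, Matrix.of_apply,
        Matrix.of_apply, Pi.smul_apply, map_smul, smul_eq_mul, eL_coord]
      congr 1
      have h3 : qU C (u i) (a i) = eL S l (outV C (u i).1 (a i)) := by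
        rw [← hu i]
        rfl
      rw [h3, eL_coord]
      rfl
    intro R R0 Radd Rsmul Ralt Rgen
    rw [hG2]
    refine Rsmul _ _ ?_
    have hP := hPol (S l.1).T C.Y (S l.1).r y κ (dF y κ) (fun a => dF_apply y κ a)
    refine Ralt (∑ A : Finset (Fin (S l.1).r), ((-1 : ℂ) ^ ((S l.1).r - A.card)) •
        prodML fun l => y l ∘ₗ pull (∑ i ∈ A, κ i)) (dF y κ) ?_ ?_
    · rw [Subsingleton.elim (fun a b : Fin (S l.1).r => Classical.propDecidable (a = b))
        (instDecidableEqFin (S l.1).r)]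
      exact hP.symm
    · refine Finset.sum_induction _ R Radd R0 fun A _ => Rsmul _ _ ?_
      have h1 := Rgen Unit (fun _ => l) (fun _ => ∑ i ∈ A, κ i) Empty
        (MultilinearMap.constOfIsEmpty ℂ _ 1) (fun _ v hv => ?_) (qa_const Q hQ C.Y) (fun w _ => ?_)
        (eqv (S l.1).r)
      · have h2 : (mulML (prodML fun q : (_p : Unit) × Fin (S l.1).r =>
            (S l.1).B.b.coord (l.2, q.2) ∘ₗ pull (∑ i ∈ A, κ i))
            (MultilinearMap.constOfIsEmpty ℂ _ 1 : ML C.Y Empty)).domDomCongr (eqv (S l.1).r) =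
            prodML fun l => y l ∘ₗ pull (∑ i ∈ A, κ i) := by
          ext a
          change (∏ q : (_p : Unit) × Fin (S l.1).r, y q.2 (pull (∑ i ∈ A, κ i) (a q.2))) * 1 =
            ∏ l', y l' (pull (∑ i ∈ A, κ i) (a l'))
          rw [mul_one, Fintype.prod_sigma]
          simp
        rw [← h2]
        exact h1
      · rw [LinearMap.sum_apply]
        exact Submodule.sum_mem _ fun i _ => emb_mem C _ _ v hv
      · simp_rw [hu]
        simp
  · push Not at hu
    obtain ⟨i, hi⟩ := hu
    have h0 : G = 0 := by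
      ext a
      rw [hG]
      refine b.det.map_coord_zero i ?_
      refine Subtype.ext ?_
      rw [hγ]
      have h1 : eL S l (qU C (u i) (a i)) = 0 :=
        LinearMap.congr_fun (hor l (lb (u i)) (Ne.symm hi)) (outV C (u i).1 (a i))
      rw [h1, smul_zero]
      rfl
    intro R R0 _ _ _ _
    rw [h0]
    exact R0

end SE
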