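import Pool.Agent.Lib.SE.W.Spec

/-! # PROJECT SE, part W: products of forms in normal form -/

set_option autoImplicit false

open scoped ComplexConjugate
open HC

noncomputable section

namespace SE

namespace Nmu_aux

theorem mul_apply {T : AV} {ι ι' : Type} (F : ML T ι) (G : ML T ι')
    (a : ι ⊕ ι' → (T.V →ₗ[ℝ] ℂ)) :
    mulML F G a = F (fun i => a (Sum.inl i)) * G (fun i => a (Sum.inr i)) := by
  rw [mulML, LinearMap.compMultilinearMap_apply, MultilinearMap.domCoprod_apply,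
    LinearMap.mul'_apply]

theorem prod_apply {T : AV} {ι : Type} [Fintype ι] (x : ι → ((T.V →ₗ[ℝ] ℂ) →ₗ[ℂ] ℂ))
    (a : ι → (T.V →ₗ[ℝ] ℂ)) : prodML x a = ∏ i, x i (a i) := by
  rw [prodML, MultilinearMap.compLinearMap_apply, MultilinearMap.mkPiAlgebra_apply]

theorem zero_mul' {T : AV} {ι ι' : Type} (G : ML T ι') : mulML (0 : ML T ι) G = 0 := by
  ext a
  rw [mul_apply]
  simp

theorem mul_zero' {T : AV} {ι ι' : Type} (F : ML T ι) : mulML F (0 : ML T ι') = 0 := by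
  ext a
  rw [mul_apply]
  simp

theorem add_mul' {T : AV} {ι ι' : Type} (F F' : ML T ι) (G : ML T ι') :
    mulML (F + F') G = mulML F G + mulML F' G := by
  ext a
  rw [MultilinearMap.add_apply, mul_apply, mul_apply, mul_apply, MultilinearMap.add_apply, add_mul]

theorem mul_add' {T : AV} {ι ι' : Type} (F : ML T ι) (G G' : ML T ι') :
    mulML F (G + G') = mulML F G + mulML F G' := by
  ext a
  rw [MultilinearMap.add_apply, mul_apply, mul_apply, mul_apply, MultilinearMap.add_apply, mul_add]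

theorem smul_mul' {T : AV} {ι ι' : Type} (x : ℂ) (F : ML T ι) (G : ML T ι') :
    mulML (x • F) G = x • mulML F G := by
  ext a
  rw [MultilinearMap.smul_apply, mul_apply, mul_apply, MultilinearMap.smul_apply, smul_eq_mul,
    smul_eq_mul, mul_assoc]

theorem mul_smul' {T : AV} {ι ι' : Type} (x : ℂ) (F : ML T ι) (G : ML T ι') :
    mulML F (x • G) = x • mulML F G := by
  ext a
  rw [MultilinearMap.smul_apply, mul_apply, mul_apply, MultilinearMap.smul_apply, smul_eq_mul,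
    smul_eq_mul]
  ring

section gen

variable {X : GF} {J : Type} {S : J → Tp X} {Y : AV} {ι ι' σ σ' κ₁ κ₂ : Type}

/-- the labels of the product -/
def s2 (s : σ → Lb S) (s' : σ' → Lb S) : σ ⊕ σ' → Lb S
  | Sum.inl p => s p
  | Sum.inr p => s' p

def k2 (s : σ → Lb S) (s' : σ' → Lb S) (κ : ∀ p, (S (s p).1).T.V →ₗ[ℂ] Y.V)
    (κ' : ∀ p, (S (s' p).1).T.V →ₗ[ℂ] Y.V) : ∀ p, (S (s2 s s' p).1).T.V →ₗ[ℂ] Y.V
  | Sum.inl p => κ p
  | Sum.inr p => κ' p

/-- the reindexing -/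
def e2 (s : σ → Lb S) (s' : σ' → Lb S)
    (e : ((p : σ) × Fin (S (s p).1).r) ⊕ κ₁ ≃ ι) (e' : ((p : σ') × Fin (S (s' p).1).r) ⊕ κ₂ ≃ ι') :
    ((p : σ ⊕ σ') × Fin (S (s2 s s' p).1).r) ⊕ (κ₁ ⊕ κ₂) ≃ ι ⊕ ι' :=
  ((Equiv.sumCongr (Equiv.sumSigmaDistrib fun p => Fin (S (s2 s s' p).1).r)
    (Equiv.refl (κ₁ ⊕ κ₂))).trans (Equiv.sumSumSumComm _ _ _ _)).trans (Equiv.sumCongr e e')

theorem gen_mul [Fintype σ] [Fintype σ'] (s : σ → Lb S) (s' : σ' → Lb S)
    (κ : ∀ p, (S (s p).1).T.V →ₗ[ℂ] Y.V) (κ' : ∀ p, (S (s' p).1).T.V →ₗ[ℂ] Y.V)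
    (G : ML Y κ₁) (G' : ML Y κ₂)
    (e : ((p : σ) × Fin (S (s p).1).r) ⊕ κ₁ ≃ ι) (e' : ((p : σ') × Fin (S (s' p).1).r) ⊕ κ₂ ≃ ι') :
    mulML ((mulML (prodML fun q => (S (s q.1).1).B.b.coord ((s q.1).2, q.2) ∘ₗ pull (κ q.1))
        G).domDomCongr e)
      ((mulML (prodML fun q => (S (s' q.1).1).B.b.coord ((s' q.1).2, q.2) ∘ₗ pull (κ' q.1))
        G').domDomCongr e') =
    (mulML (prodML fun q => (S (s2 s s' q.1).1).B.b.coord ((s2 s s' q.1).2, q.2) ∘ₗ
      pull (k2 s s' κ κ' q.1)) (mulML G G')).domDomCongr (e2 s s' e e') := by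
  ext a
  rw [mul_apply, MultilinearMap.domDomCongr_apply, MultilinearMap.domDomCongr_apply,
    MultilinearMap.domDomCongr_apply, mul_apply, mul_apply, mul_apply, mul_apply, prod_apply,
    prod_apply, prod_apply]
  have h : ∀ f : ((p : σ ⊕ σ') × Fin (S (s2 s s' p).1).r) → ℂ,
      ∏ q, f q = (∏ q : (p : σ) × Fin (S (s p).1).r, f ⟨Sum.inl q.1, q.2⟩) *
        ∏ q : (p : σ') × Fin (S (s' p).1).r, f ⟨Sum.inr q.1, q.2⟩ := by
    intro f
    rw [Fintype.prod_sigma, Fintype.prod_sum_type, Fintype.prod_sigma, Fintype.prod_sigma]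
    rfl
  rw [h]
  have h1 : ∀ q : (p : σ) × Fin (S (s p).1).r, e2 s s' e e' (Sum.inl ⟨Sum.inl q.1, q.2⟩) =
      Sum.inl (e (Sum.inl q)) := fun q => rfl
  have h2 : ∀ q : (p : σ') × Fin (S (s' p).1).r, e2 s s' e e' (Sum.inl ⟨Sum.inr q.1, q.2⟩) =
      Sum.inr (e' (Sum.inl q)) := fun q => rfl
  have h3 : ∀ q, e2 s s' e e' (Sum.inr (Sum.inl q)) = Sum.inl (e (Sum.inr q)) := fun q => rfl
  have h4 : ∀ q, e2 s s' e e' (Sum.inr (Sum.inr q)) = Sum.inr (e' (Sum.inr q)) := fun q => rfl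
  simp only [h1, h2, h3, h4]
  show (_ * _) * (_ * _) = (_ * _) * (_ * _)
  exact mul_mul_mul_comm _ _ _ _

end gen

end Nmu_aux

open Nmu_aux

theorem tNmu : S_Nmu := by
  classical
  intro hA hQ Q hC X J _ S Y ι ι' _ _ wt wt' H H' hH hH'
  intro R h0 hadd hsm halt hgen
  refine hH (fun F => R (mulML F H')) ?_ ?_ ?_ ?_ ?_
  · rw [zero_mul']
    exact h0
  · intro F G hF hG
    rw [add_mul']
    exact hadd _ _ hF hG
  · intro x F hF
    rw [smul_mul']
    exact hsm x _ hF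
  · intro F G hFG hF
    refine halt _ _ ?_ hF
    have h := hA.1 Y ι ι' F G H' H' hFG rfl
    rw [Subsingleton.elim (fun a b : ι ⊕ ι' => Classical.propDecidable (a = b))
      (fun a b => instDecidableEqSum a b)]
    exact h
  · intro σ _ s κ κ₁ _ G hκ hG hw e
    let F₀ : ML Y ι := (mulML (prodML fun q : (p : σ) × Fin (S (s p).1).r =>
      (S (s q.1).1).B.b.coord ((s q.1).2, q.2) ∘ₗ pull (κ q.1)) G).domDomCongr e
    refine hH' (fun F' => R (mulML F₀ F')) ?_ ?_ ?_ ?_ ?_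
    · rw [mul_zero']
      exact h0
    · intro F G hF hG
      rw [mul_add']
      exact hadd _ _ hF hG
    · intro x F hF
      rw [mul_smul']
      exact hsm x _ hF
    · intro F F' hFG hF
      refine halt _ _ ?_ hF
      have h := hA.1 Y ι ι' F₀ F₀ F F' rfl hFG
      rw [Subsingleton.elim (fun a b : ι ⊕ ι' => Classical.propDecidable (a = b))
        (fun a b => instDecidableEqSum a b)]
      exact h
    · intro σ' _ s' κ' κ₂ _ G' hκ' hG' hw' e'
      have hm := gen_mul s s' κ κ' G G' e e'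
      show R (mulML F₀ _)
      rw [show mulML F₀ _ = _ from hm]
      refine hgen (σ ⊕ σ') (s2 s s') (k2 s s' κ κ') (κ₁ ⊕ κ₂) (mulML G G') ?_ ?_ ?_ _
      · rintro (p | p) v hv
        · exact hκ p v hv
        · exact hκ' p v hv
      · exact (hQ Q hC).2.2.2.2.1 Y κ₁ κ₂ G G' hG hG'
      · intro w hww
        rw [Pi.add_apply, hw w hww, hw' w hww, Fintype.sum_sum_type]
        rfl

end SE
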