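import Pool.Agent.Lib.SE.W.Spec

/-!
# PROJECT SE, part W, module Nre: reindexing and elements of `QA` (helper94)
-/

set_option autoImplicit false

open scoped ComplexConjugate
open HC

noncomputable section

namespace SE

namespace Nre_aux

private theorem mul_apply {T : AV} {ι ι' : Type} (F : ML T ι) (G : ML T ι')
    (a : ι ⊕ ι' → (T.V →ₗ[ℝ] ℂ)) :
    mulML F G a = F (fun i => a (Sum.inl i)) * G (fun i => a (Sum.inr i)) := rfl

private theorem prod_apply {T : AV} {ι : Type} [Fintype ι]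
    (x : ι → ((T.V →ₗ[ℝ] ℂ) →ₗ[ℂ] ℂ)) (a : ι → (T.V →ₗ[ℝ] ℂ)) :
    prodML x a = ∏ i, x i (a i) := rfl

end Nre_aux

open Nre_aux in
/-- Reindexing, and elements of `QA` without determinants. -/
theorem tNre : S_Nre := by
  classical
  intro hA _ Q _ X J _ S Y ι _
  refine ⟨fun ι' _ wt H e hN => ?_, fun wt H hQ hw => ?_⟩
  · intro R h0 hadd hsmul halt hgen
    refine hN (fun F => R (F.domDomCongr e)) h0 (fun F G hF hG => hadd _ _ hF hG)
      (fun x F hF => hsmul x _ hF) (fun F G hFG hF => ?_) ?_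
    · refine halt _ _ ?_ hF
      exact hA.2.1 Y ι ι' F G e hFG
    · intro σ _ s κ ι₁ _ G hκ hG hwt e0
      exact hgen σ s κ ι₁ G hκ hG hwt (e0.trans e)
  · intro R h0 hadd hsmul halt hgen
    have h1 := hgen Empty (fun p => p.elim) (fun p => p.elim) ι H (fun p => p.elim) hQ
      (fun w hw' => by rw [hw w hw']; simp) (Equiv.emptySum _ _)
    have h2 : ∀ s : Empty → Lb S, ∀ x : ((p : Empty) × Fin (S (s p).1).r) →
        ((Y.V →ₗ[ℝ] ℂ) →ₗ[ℂ] ℂ),
        (mulML (prodML x) H).domDomCongr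
          (Equiv.emptySum ((p : Empty) × Fin (S (s p).1).r) ι) = H := by
      intro s x
      ext a
      rw [MultilinearMap.domDomCongr_apply, mul_apply, prod_apply, Finset.univ_eq_empty,
        Finset.prod_empty, one_mul]
      rfl
    rw [h2] at h1
    exact h1

end SE
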