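import Pool.Agent.Lib.SE.W.Spec
import Pool.Agent.Lib.SE.W.Frm

/-!
# PROJECT SE, part S7, module Odd: `δ` is odd

Proof with the dual `f` of the Riemann form: `a ↦ a ∘ i` is skew for `f`, and `f` is a perfect pairing
of the `φ`-part with the `conj φ`-part.
-/

set_option autoImplicit false

open scoped ComplexConjugate
open HC

noncomputable section

namespace SE

namespace Odd_aux

variable {X : GF} (t : Tp X)

theorem pr_self (φ : t.E →+* X.K) (i : Fin t.r) : t.B.pr φ (t.B.b (φ, i)) = t.B.b (φ, i) := by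
  classical
  rw [Frm_aux.pr_apply, Finset.sum_eq_single i]
  · rw [Module.Basis.coord_apply, Module.Basis.repr_self, Finsupp.single_eq_same, one_smul]
  · intro k _ hk
    rw [Module.Basis.coord_apply, Module.Basis.repr_self, Finsupp.single_apply, if_neg, zero_smul]
    intro h
    exact hk (Prod.mk.inj h).2.symm
  · intro h
    exact absurd (Finset.mem_univ i) h

theorem pr_ne {φ ψ : t.E →+* X.K} (h : ψ ≠ φ) (i : Fin t.r) :
    t.B.pr φ (t.B.b (ψ, i)) = 0 := by
  classical
  rw [Frm_aux.pr_apply]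
  refine Finset.sum_eq_zero fun k _ => ?_
  rw [Module.Basis.coord_apply, Module.Basis.repr_self, Finsupp.single_apply, if_neg, zero_smul]
  intro h'
  exact h (Prod.mk.inj h').1

theorem skewI (u v : t.T.V) : t.R (mulI t.T u) v + t.R u (mulI t.T v) = 0 := by
  have h1 : ∀ w : t.T.V, mulI t.T w = Complex.I • w := fun w => rfl
  rw [h1, h1]
  have h2 := t.herm (Complex.I • u) v
  rw [smul_smul, Complex.I_mul_I, neg_one_smul, map_neg, LinearMap.neg_apply] at h2
  linarith

/-- the matrix of the multiplication by `i` -/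
def M (φ : t.E →+* X.K) : Matrix (Fin t.r) (Fin t.r) ℂ :=
  Matrix.of fun i k => t.B.b.coord (φ, k) (t.B.b (φ, i) ∘ₗ mulI t.T)

theorem delta_eq (φ : t.E →+* X.K) : t.B.δ φ = (M t φ).trace := rfl

theorem pr_M (φ : t.E →+* X.K) (i : Fin t.r) :
    t.B.pr φ (t.B.b (φ, i) ∘ₗ mulI t.T) = ∑ k, M t φ i k • t.B.b (φ, k) := by
  rw [Frm_aux.pr_apply]
  rfl

end Odd_aux

open Odd_aux in
/-- **Odd** -/
theorem tOdd : S_Odd := by
  intro X t φ
  obtain ⟨f, hf⟩ := tFrm X t
  obtain ⟨G, hG⟩ : ∃ G : Matrix (Fin t.r) (Fin t.r) ℂ,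
      G = Matrix.of fun i j => f (t.B.b (φ, i)) (t.B.b (gl X.c φ, j)) := ⟨_, rfl⟩
  have hGa : ∀ i j, G i j = f (t.B.b (φ, i)) (t.B.b (gl X.c φ, j)) := fun i j => by
    rw [hG, Matrix.of_apply]
  -- the pairing is perfect
  have hdet : G.det ≠ 0 := by
    intro h0
    obtain ⟨x, hx0, hx⟩ := Matrix.exists_vecMul_eq_zero_iff.2 h0
    obtain ⟨a, ha⟩ : ∃ a, a = ∑ i, x i • t.B.b (φ, i) := ⟨_, rfl⟩
    have hpa : t.B.pr φ a = a := by
      rw [ha, map_sum]
      exact Finset.sum_congr rfl fun i _ => by rw [map_smul, pr_self]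
    have h1 : ∀ q, f a (t.B.b q) = 0 := by
      rintro ⟨ψ, j⟩
      by_cases hψ : ψ = gl X.c φ
      · subst hψ
        have h2 := congrFun hx j
        rw [ha, map_sum, LinearMap.sum_apply]
        rw [Matrix.vecMul, dotProduct, Pi.zero_apply] at h2
        rw [← h2]
        refine Finset.sum_congr rfl fun i _ => ?_
        rw [map_smul, LinearMap.smul_apply, smul_eq_mul, hGa]
      · rw [← hpa, hf.pr, pr_ne t hψ, map_zero]
    have h3 : a = 0 := hf.nd a fun b => by
      have h4 : f a = 0 := t.B.b.ext fun q => by rw [h1, LinearMap.zero_apply]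
      rw [h4, LinearMap.zero_apply]
    rw [ha] at h3
    have h4 := Fintype.linearIndependent_iff.1
      (t.B.b.linearIndependent.comp (fun i : Fin t.r => (φ, i)) fun i j h => (Prod.mk.inj h).2) x h3
    exact hx0 (funext h4)
  -- skewness
  have hmat : M t φ * G = -(G * (M t (gl X.c φ)).transpose) := by
    ext i j
    rw [Matrix.mul_apply, Matrix.neg_apply, Matrix.mul_apply]
    have h1 : ∑ k, M t φ i k * G k j = f (t.B.b (φ, i) ∘ₗ mulI t.T) (t.B.b (gl X.c φ, j)) := by
      rw [← pr_self t (gl X.c φ) j, ← hf.pr, pr_M, map_sum, LinearMap.sum_apply]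
      refine Finset.sum_congr rfl fun k _ => ?_
      rw [map_smul, LinearMap.smul_apply, smul_eq_mul, hGa]
    have h2 : ∑ k, G i k * (M t (gl X.c φ)).transpose k j =
        f (t.B.b (φ, i)) (t.B.b (gl X.c φ, j) ∘ₗ mulI t.T) := by
      conv_rhs => rw [← pr_self t φ i, hf.pr, pr_M, map_sum]
      refine Finset.sum_congr rfl fun k _ => ?_
      rw [map_smul, smul_eq_mul, hGa, Matrix.transpose_apply, mul_comm]
    rw [h1, h2]
    exact eq_neg_of_add_eq_zero_left (hf.skew (mulI t.T) (skewI t) _ _)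
  have hu : IsUnit G.det := isUnit_iff_ne_zero.2 hdet
  rw [delta_eq, delta_eq]
  have h1 : (M t (gl X.c φ)).transpose = -(G⁻¹ * (M t φ * G)) := by
    rw [hmat, Matrix.mul_neg, neg_neg, ← Matrix.mul_assoc, Matrix.nonsing_inv_mul _ hu,
      Matrix.one_mul]
  rw [← Matrix.trace_transpose, h1, Matrix.trace_neg, Matrix.trace_mul_comm, Matrix.mul_assoc,
    Matrix.mul_nonsing_inv _ hu, Matrix.mul_one]

end SE
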