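import Pool.Agent.Lib.SE.W.Spec

/-! # SE/W Pol: polarisation of determinants (helper8) -/

set_option autoImplicit false

open HC Finset

noncomputable section

namespace SE

namespace Pol_aux

/-- The sign sum over the sets containing the image of `h`. -/
private theorem sgn_sum {r : ℕ} (h : Fin r → Fin r) :
    ∑ A : Finset (Fin r), (if ∀ l, h l ∈ A then (-1 : ℂ) ^ (r - A.card) else 0) =
      if Function.Bijective h then 1 else 0 := by
  classical
  have e1 : ∑ A : Finset (Fin r), (if ∀ l, h l ∈ A then (-1 : ℂ) ^ (r - A.card) else 0) =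
      ∑ B : Finset (Fin r), (if ∀ l, h l ∉ B then (-1 : ℂ) ^ B.card else 0) := by
    refine Fintype.sum_bijective (fun A : Finset (Fin r) => Aᶜ) ?_ _ _ ?_
    · exact compl_involutive.bijective
    · intro A
      have hc : (Aᶜ).card = r - A.card := by rw [card_compl, Fintype.card_fin]
      rw [hc]
      simp only [mem_compl, not_not]
  have e2 : ∑ B : Finset (Fin r), (if ∀ l, h l ∉ B then (-1 : ℂ) ^ B.card else 0) =
      ∑ B ∈ ((univ.image h)ᶜ).powerset, (-1 : ℂ) ^ B.card := by
    rw [← sum_filter]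
    refine sum_congr ?_ fun _ _ => rfl
    ext B
    simp only [mem_filter, mem_univ, true_and, mem_powerset, subset_iff, mem_compl, mem_image,
      not_exists]
    constructor
    · intro hB x hx l hl
      exact hB l (hl ▸ hx)
    · intro hB l hl
      exact hB hl l rfl
  have e3 : ∑ B ∈ ((univ.image h)ᶜ).powerset, (-1 : ℂ) ^ B.card =
      ((∑ B ∈ ((univ.image h)ᶜ).powerset, (-1 : ℤ) ^ B.card : ℤ) : ℂ) := by
    push_cast
    rfl
  rw [e1, e2, e3, sum_powerset_neg_one_pow_card]
  have e4 : (univ.image h)ᶜ = ∅ ↔ Function.Bijective h := by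
    rw [← Finite.surjective_iff_bijective, compl_eq_empty_iff]
    constructor
    · intro hh x
      have hx : x ∈ univ.image h := by rw [hh]; exact mem_univ _
      obtain ⟨l, -, hl⟩ := mem_image.1 hx
      exact ⟨l, hl⟩
    · intro hh
      exact image_univ_of_surjective hh
  by_cases hb : Function.Bijective h
  · rw [if_pos (e4.2 hb), if_pos hb]
    norm_num
  · rw [if_neg (fun x => hb (e4.1 x)), if_neg hb]
    norm_num

/-- Ryser's formula for the permanent. -/
private theorem ryser {r : ℕ} (z : Fin r → Fin r → ℂ) :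
    ∑ A : Finset (Fin r), (-1 : ℂ) ^ (r - A.card) * ∏ l, ∑ i ∈ A, z i l =
      ∑ π : Equiv.Perm (Fin r), ∏ l, z (π l) l := by
  classical
  have e1 : ∀ A : Finset (Fin r), (-1 : ℂ) ^ (r - A.card) * ∏ l, ∑ i ∈ A, z i l =
      ∑ h : Fin r → Fin r, (if ∀ l, h l ∈ A then (-1 : ℂ) ^ (r - A.card) else 0) *
        ∏ l, z (h l) l := by
    intro A
    rw [prod_univ_sum, mul_sum]
    have : Fintype.piFinset (fun _ : Fin r => A) = univ.filter fun h => ∀ l, h l ∈ A := by
      ext h
      simp
    rw [this, sum_filter]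
    refine sum_congr rfl fun h _ => ?_
    split_ifs <;> simp
  rw [sum_congr rfl fun A _ => e1 A, sum_comm]
  have e2 : ∀ h : Fin r → Fin r,
      ∑ A : Finset (Fin r), (if ∀ l, h l ∈ A then (-1 : ℂ) ^ (r - A.card) else 0) *
        ∏ l, z (h l) l = if Function.Bijective h then ∏ l, z (h l) l else 0 := by
    intro h
    rw [← sum_mul, sgn_sum]
    split_ifs <;> simp
  rw [sum_congr rfl fun h _ => e2 h, ← sum_filter]
  refine sum_bij (fun p hp => Equiv.ofBijective p (mem_filter.1 hp).2) ?_ ?_ ?_ ?_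
  · intro p hp
    exact mem_univ _
  · intro p hp q hq hpq
    have := congrArg (fun e : Equiv.Perm (Fin r) => (e : Fin r → Fin r)) hpq
    simpa using this
  · intro π _
    refine ⟨π, ?_, ?_⟩
    · exact mem_filter.2 ⟨mem_univ _, π.bijective⟩
    · ext l
      rfl
  · intro p hp
    rfl

private theorem pull_sum {T Y : AV} {r : ℕ} (κ : Fin r → (T.V →ₗ[ℂ] Y.V)) (A : Finset (Fin r))
    (a : Y.V →ₗ[ℝ] ℂ) : pull (∑ i ∈ A, κ i) a = ∑ i ∈ A, pull (κ i) a := by
  classical
  induction A using Finset.induction_on with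
  | empty =>
    ext v
    simp [pull]
  | insert i A hi ih =>
    rw [sum_insert hi, sum_insert hi, ← ih]
    ext v
    simp [pull]

end Pol_aux

open Pol_aux in
theorem tPol : S_Pol := by
  classical
  intro T Y r y κ F hF
  ext v
  rw [MultilinearMap.alternatization_apply, MultilinearMap.alternatization_apply]
  have hR : ∀ a : Fin r → (Y.V →ₗ[ℝ] ℂ),
      (∑ A : Finset (Fin r), ((-1 : ℂ) ^ (r - A.card)) •
        prodML fun l => y l ∘ₗ pull (∑ i ∈ A, κ i)) a =
      ∑ π : Equiv.Perm (Fin r), ∏ l, y l (pull (κ (π l)) (a l)) := by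
    intro a
    rw [← ryser fun i l => y l (pull (κ i) (a l))]
    simp only [_root_.sum_apply, _root_.smul_apply, prodML,
      MultilinearMap.compLinearMap_apply, MultilinearMap.mkPiAlgebra_apply, LinearMap.comp_apply,
      smul_eq_mul]
    refine sum_congr rfl fun A _ => ?_
    congr 1
    refine prod_congr rfl fun l _ => ?_
    rw [pull_sum, map_sum]
  have hL : ∀ a : Fin r → (Y.V →ₗ[ℝ] ℂ),
      F a = ∑ π : Equiv.Perm (Fin r), ((Equiv.Perm.sign π : ℤ) : ℂ) *
        ∏ l, y l (pull (κ (π l)) (a (π l))) := by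
    intro a
    rw [hF, Matrix.det_apply']
    rfl
  simp only [MultilinearMap.domDomCongr_apply]
  simp only [hL, hR, smul_sum]
  rw [sum_comm, sum_comm (s := univ) (t := univ) (f := fun (σ π : Equiv.Perm (Fin r)) =>
    Equiv.Perm.sign σ • ∏ l, y l (pull (κ (π l)) (v (σ l))))]
  refine sum_congr rfl fun π _ => ?_
  refine Fintype.sum_bijective (fun σ => σ * π) (Group.mulRight_bijective π) _ _ fun σ => ?_
  rw [Equiv.Perm.sign_mul]
  simp only [Equiv.Perm.coe_mul, Function.comp_apply, Units.smul_def, zsmul_eq_mul,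
    Units.val_mul, Int.cast_mul]
  ring

end SE
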