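import Pool.Agent.Lib.SE.W.Spec

/-!
# PROJECT SE/W, module Qal (helper98): rules for `QA`
-/

set_option autoImplicit false

open HC

noncomputable section

namespace SE

namespace Qal_aux

/-- Alternation and reindexing. -/
theorem alt_congr {T : AV} {ι ι' : Type} [Fintype ι] [DecidableEq ι] [Fintype ι']
    [DecidableEq ι'] (F : ML T ι) (e : ι ≃ ι') :
    MultilinearMap.alternatization (F.domDomCongr e) =
      (MultilinearMap.alternatization F).domDomCongr e := by
  ext v
  rw [AlternatingMap.domDomCongr_apply, MultilinearMap.alternatization_apply,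
    MultilinearMap.alternatization_apply]
  refine Fintype.sum_equiv (Equiv.permCongr e.symm) _ _ fun σ => ?_
  have h1 : Equiv.Perm.sign ((Equiv.permCongr e.symm) σ) = Equiv.Perm.sign σ :=
    Equiv.Perm.sign_permCongr e.symm σ
  rw [h1]
  have h2 : (F.domDomCongr e).domDomCongr σ v =
      F.domDomCongr ((Equiv.permCongr e.symm) σ) (v ∘ e) := by
    rw [MultilinearMap.domDomCongr_apply, MultilinearMap.domDomCongr_apply,
      MultilinearMap.domDomCongr_apply]
    refine congrArg F (funext fun i => ?_)
    simp
  rw [h2]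

/-- A permutation of the variables of an alternating map. -/
theorem q_perm {Q : (T : AV) → (m : ℕ) → Hlg T m → Prop} (hQ : Cl Q) {T : AV} {m : ℕ}
    (c : Hlg T m) (h : Q T m c) (σ : Equiv.Perm (Fin m)) : Q T m (c.domDomCongr σ) := by
  rw [AlternatingMap.domDomCongr_perm]
  have h1 : (Equiv.Perm.sign σ) • c = (((Equiv.Perm.sign σ : ℤˣ) : ℤ) : ℂ) • c := by
    ext v
    rw [AlternatingMap.smul_apply, AlternatingMap.smul_apply, Units.smul_def, zsmul_eq_mul,
      smul_eq_mul]
  rw [h1]
  exact hQ.smul _ h

/-- One enumeration of the variables is enough. -/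
theorem q_enum {Q : (T : AV) → (m : ℕ) → Hlg T m → Prop} (hQ : Cl Q) {T : AV} {ι : Type}
    (c : (T.V →ₗ[ℝ] ℂ) [⋀^ι]→ₗ[ℂ] ℂ) (m n : ℕ) (e : ι ≃ Fin m) (e' : ι ≃ Fin n)
    (h : Q T m (c.domDomCongr e)) : Q T n (c.domDomCongr e') := by
  have hmn : m = n := by
    have := Fintype.card_congr (e.symm.trans e')
    simpa using this
  subst hmn
  have h1 : c.domDomCongr e' = (c.domDomCongr e).domDomCongr (e.symm.trans e') := by
    rw [← AlternatingMap.domDomCongr_trans]
    congr 1
    ext x
    simp
  rw [h1]
  exact q_perm hQ _ h _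

theorem qa_iff (Q : (T : AV) → (m : ℕ) → Hlg T m → Prop) (T : AV) (ι : Type)
    [Fintype ι] [inst : DecidableEq ι] (F : ML T ι) :
    QA Q T ι F ↔ ∀ (m : ℕ) (e : ι ≃ Fin m),
      Q T m ((MultilinearMap.alternatization F).domDomCongr e) := by
  have h : inst = fun a b => Classical.propDecidable (a = b) := Subsingleton.elim _ _
  subst h
  exact Iff.rfl

theorem qa_of {Q : (T : AV) → (m : ℕ) → Hlg T m → Prop} (hQ : Cl Q) {T : AV} {ι : Type}
    [Fintype ι] [DecidableEq ι] (F : ML T ι) (m : ℕ) (e : ι ≃ Fin m)
    (h : Q T m ((MultilinearMap.alternatization F).domDomCongr e)) : QA Q T ι F :=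
  (qa_iff Q T ι F).mpr fun n e' => q_enum hQ _ m n e e' h

theorem q_zero {Q : (T : AV) → (m : ℕ) → Hlg T m → Prop} (hQ : Cl Q) (T : AV) (m : ℕ) :
    Q T m 0 := hQ.base Alg.zero

/-- The alternation of a product. -/
theorem alt_mul {T : AV} {ι ι' : Type} [Fintype ι] [DecidableEq ι] [Fintype ι']
    [DecidableEq ι'] (F : ML T ι) (G : ML T ι') :
    MultilinearMap.alternatization (mulML F G) =
      (LinearMap.mul' ℂ ℂ).compAlternatingMap
        ((MultilinearMap.alternatization F).domCoprod (MultilinearMap.alternatization G)) := by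
  unfold mulML
  rw [LinearMap.compMultilinearMap_alternatization, MultilinearMap.domCoprod_alternization]

theorem mul_congr {T : AV} {ι ι' κ κ' : Type} (F : ML T ι) (G : ML T ι') (e : ι ≃ κ)
    (e' : ι' ≃ κ') : (mulML F G).domDomCongr (Equiv.sumCongr e e') =
      mulML (F.domDomCongr e) (G.domDomCongr e') := by
  ext v
  rfl

end Qal_aux

open Qal_aux

theorem tQal : S_Qal := by
  classical
  intro Q hQ
  refine ⟨?_, ?_, ?_, ?_, ?_, ?_, ?_, ?_⟩
  · intro T ι _ m e
    have h1 : (MultilinearMap.alternatization (0 : ML T ι)).domDomCongr e = 0 := by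
      rw [map_zero]
      rfl
    rw [h1]
    exact q_zero hQ T m
  · intro T ι _ F G hF hG m e
    have h1 : (MultilinearMap.alternatization (F + G)).domDomCongr e =
        (MultilinearMap.alternatization F).domDomCongr e +
          (MultilinearMap.alternatization G).domDomCongr e := by
      rw [map_add]
      rfl
    rw [h1]
    exact hQ.add (hF m e) (hG m e)
  · intro T ι _ x F hF m e
    have h0 : MultilinearMap.alternatization (x • F) =
        x • MultilinearMap.alternatization F := by
      ext v
      rw [AlternatingMap.smul_apply, MultilinearMap.alternatization_apply,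
        MultilinearMap.alternatization_apply, Finset.smul_sum]
      refine Finset.sum_congr rfl fun σ _ => ?_
      rw [smul_comm]
      rfl
    have h1 : (MultilinearMap.alternatization (x • F)).domDomCongr e =
        x • (MultilinearMap.alternatization F).domDomCongr e := by
      rw [h0]
      rfl
    rw [h1]
    exact hQ.smul x (hF m e)
  · intro T ι ι' _ _ e F hF m e'
    rw [alt_congr, ← AlternatingMap.domDomCongr_trans]
    exact hF m (e.trans e')
  · intro T ι ι' _ _ F G hF hG
    have e1 := Fintype.equivFin ι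
    have e2 := Fintype.equivFin ι'
    refine qa_of hQ _ (Fintype.card ι + Fintype.card ι') ((Equiv.sumCongr e1 e2).trans
      finSumFinEquiv) ?_
    rw [AlternatingMap.domDomCongr_trans, ← alt_congr, mul_congr, alt_mul, alt_congr, alt_congr]
    exact hQ.pont (hF _ e1) (hG _ e2)
  · intro T T' ι _ φ hφ F hF m e
    have h1 : (MultilinearMap.alternatization (pullML φ F)).domDomCongr e =
        HC.push φ ((MultilinearMap.alternatization F).domDomCongr e) := by
      ext v
      rw [AlternatingMap.domDomCongr_apply, MultilinearMap.alternatization_apply]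
      show _ = (MultilinearMap.alternatization F) ((fun i => pull φ (v i)) ∘ e)
      rw [MultilinearMap.alternatization_apply]
      rfl
    rw [h1]
    exact hQ.push φ hφ (hF m e)
  · intro T m c hc
    refine qa_of hQ _ m (Equiv.refl _) ?_
    have h1 : (MultilinearMap.alternatization c.toMultilinearMap).domDomCongr (Equiv.refl _) =
        ((m.factorial : ℕ) : ℂ) • c := by
      have h2 := AlternatingMap.coe_alternatization c
      rw [AlternatingMap.domDomCongr_refl, h2, Fintype.card_fin, Nat.cast_smul_eq_nsmul]
    rw [h1]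
    exact hQ.smul _ hc
  · intro T m c hc
    have h1 := (qa_iff Q T (Fin m) _).mp hc m (Equiv.refl _)
    have h2 := AlternatingMap.coe_alternatization c
    rw [AlternatingMap.domDomCongr_refl, h2, Fintype.card_fin] at h1
    have h3 := hQ.smul (((m.factorial : ℕ) : ℂ)⁻¹) h1
    rw [← Nat.cast_smul_eq_nsmul ℂ, smul_smul,
      inv_mul_cancel₀ (Nat.cast_ne_zero.mpr (Nat.factorial_ne_zero m)), one_smul] at h3
    exact h3

end SE
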