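import Pool.Agent.Lib.SE.W.Fin
import Pool.Agent.Lib.SE.W.M
import Pool.Agent.Lib.SE.W.Acm
import Pool.Agent.Lib.SE.W.Alm
import Pool.Agent.Lib.SE.W.Bal
import Pool.Agent.Lib.SE.W.Cen
import Pool.Agent.Lib.SE.W.Cex
import Pool.Agent.Lib.SE.W.Cnj
import Pool.Agent.Lib.SE.W.Exd
import Pool.Agent.Lib.SE.W.FFT
import Pool.Agent.Lib.SE.W.Frm
import Pool.Agent.Lib.SE.W.Gex
import Pool.Agent.Lib.SE.W.Inv
import Pool.Agent.Lib.SE.W.Jz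
import Pool.Agent.Lib.SE.W.KdC
import Pool.Agent.Lib.SE.W.Kf
import Pool.Agent.Lib.SE.W.Kil
import Pool.Agent.Lib.SE.W.Lie
import Pool.Agent.Lib.SE.W.Mon
import Pool.Agent.Lib.SE.W.Ndt
import Pool.Agent.Lib.SE.W.Nmu
import Pool.Agent.Lib.SE.W.Npr
import Pool.Agent.Lib.SE.W.Nre
import Pool.Agent.Lib.SE.W.Odd
import Pool.Agent.Lib.SE.W.Pol
import Pool.Agent.Lib.SE.W.Qal
import Pool.Agent.Lib.SE.W.Sub
import Pool.Agent.Lib.SE.S6.All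
import Pool.Agent.Lib.SE.S6.Dcm
import Pool.Agent.Lib.HC.L.La
import Pool.Agent.Lib.HC.L.B
import Pool.Agent.Lib.HC.L.Lc1
import Pool.Agent.Lib.HC.L.Lc2
import Pool.Agent.Lib.HC.L.E.IsoInv

/-!
# PROJECT SE, part W complete (helper42)

* `thmM`: THEOREM M for every class `Q` with the closure properties.
* `HasDA Q m J Z R`: for every large `X`, `J` with `Z` and `R` is a type with determinant classes in
  `Q` (`HasDA_new` from `S_DA` for new Jacobians).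
* `thmKg`, `thmBg`: THEOREMS K and B for `A × ∏_n J_(j n)`, `J_i` with `HasDA`, for every `Q`.
* `thmK`, `thmB`: `S_DA` implies `ThmK` and `ThmB`.
-/

set_option autoImplicit false

open HC

noncomputable section

namespace SE

/-- **THEOREM M.** -/
theorem thmM (Q : (T : AV) → (m : ℕ) → Hlg T m → Prop) (hQ : Cl Q) (X : GF) (J : Type) [Fintype J]
    (S : J → Tp X) (hS : ∀ j, Nonempty (DA Q (S j))) (N : Type) [Fintype N] (Kc : N → J)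
    (C : Prd fun k => (S (Kc k)).T) (m : ℕ) (c : Hlg C.Y m) (hc : IsHodge C.Y m c)
    (hK : KdY C c) : Q C.Y m c :=
  tM L.pLa tFrm tSub tKdC tCen tFFT tJz tExd tKil tCnj tBal tOdd tAlm tQal tMon tNmu tNre tNdt tNpr
    tInv tPol tTR Q hQ X J S hS N Kc C m c hc hK

/-- For every `X` containing a primitive `m`-th root of unity, `J` with `Z` and `R` is a type with
determinant classes in `Q`. -/
def HasDA (Q : (T : AV) → (m : ℕ) → Hlg T m → Prop) (m : ℕ) (J : AV) (Z : Module.End ℂ J.V)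
    (R : J.V →ₗ[ℝ] J.V →ₗ[ℝ] ℝ) : Prop :=
  ∀ X : GF, (∃ ζ : X.K, IsPrimitiveRoot ζ m) → ∃ (t : Tp X) (hT : t.T = J) (ζ : t.E),
    (∀ v, t.B.ρ ζ v = hT ▸ Z (hT ▸ v)) ∧ (∀ u v, t.R u v = R (hT ▸ u) (hT ▸ v)) ∧
      Nonempty (DA Q t)

open Fin_aux in
/-- **THEOREM K for factors with determinant classes.** -/
theorem thmKg (Q : (T : AV) → (m : ℕ) → Hlg T m → Prop) (hQ : Cl Q) (A T : AV) (q N : ℕ)
    (J : Fin q → AV) (j : Fin N → Fin q) (m : Fin q → ℕ) (hm : ∀ i, m i ≠ 0)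
    (Z : ∀ i, Module.End ℂ (J i).V) (R : ∀ i, (J i).V →ₗ[ℝ] (J i).V →ₗ[ℝ] ℝ)
    (hD : ∀ i, HasDA Q (m i) (J i) (Z i) (R i)) (ψ : T.V ≃ₗ[ℂ] A.V × (∀ n, (J (j n)).V))
    (hA : IsCM A)
    (hψ : ∀ v ∈ T.L, ∃ k : ℕ, k ≠ 0 ∧ k • (ψ v).1 ∈ A.L ∧ ∀ n, k • (ψ v).2 n ∈ (J (j n)).L)
    (d : ℕ) (c : Hlg T d) (hc : IsHodge T d c) (hS : HC.SE.SUK Z R ψ c) : Q T d c := by
  obtain ⟨n, EA, f1, f2, hX⟩ := tAcm tCex A hA
  obtain ⟨X, hX1, hX2⟩ := gex tGex n q EA m hm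
  obtain ⟨SA, hSA, hA2⟩ := hX X hX1
  choose t hT ζ hρ hR hDt using fun i => hD i X (hX2 i)
  exact kf' tKf Q hQ (thmM Q hQ) (tDcm hodgeCM Q hQ) A n X SA hSA hA2 T q N J t hT j Z R
    (fun i => ⟨ζ i, hρ i⟩) hR hDt ψ hψ d c hc hS

/-- **THEOREM B for factors with determinant classes.** -/
theorem thmBg (Q : (T : AV) → (m : ℕ) → Hlg T m → Prop) (hQ : Cl Q) (A T : AV) (q N : ℕ)
    (J : Fin q → AV) (j : Fin N → Fin q) (m : Fin q → ℕ) (hm : ∀ i, m i ≠ 0)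
    (Z : ∀ i, Module.End ℂ (J i).V) (R : ∀ i, (J i).V →ₗ[ℝ] (J i).V →ₗ[ℝ] ℝ)
    (hD : ∀ i, HasDA Q (m i) (J i) (Z i) (R i)) (hA : IsCM A) (hB : HC.SE.Big J Z R)
    (hT : IsProdE T A (fun n => J (j n))) (d : ℕ) (c : Hlg T d) (hc : IsHodge T d c) :
    Q T d c := by
  obtain ⟨ψ, hψ⟩ := hT
  exact thmKg Q hQ A T q N J j m hm Z R hD ψ hA hψ d c hc
    (tLie L.pLa L.pLa' tLb L.tLc1 L.tLc2 E.tIsoInv A T q N J j Z R ψ hA hB hψ d c hc)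

/-- New Jacobians have determinant classes in `Alg2`. -/
theorem HasDA_new (hDA : HC.SE.S_DA) {J : AV} {m r : ℕ} {s : Fin (r + 1) → ℂ}
    {b : Fin (r + 1) → ℕ} (hcov : HC.SE.IsCov m s b) (D : HC.SE.New J m s b)
    {R : J.V →ₗ[ℝ] J.V →ₗ[ℝ] ℝ} (hR : HC.SE.IsPol J D.Z R) :
    HasDA (fun T m c => HC.SE.Alg2 T m c) m J D.Z R := by
  intro X hX
  obtain ⟨t, hT, ζ, -, -, h1, h2, h3⟩ := hDA X m r s b hcov hX J D R hR
  exact ⟨t, hT, ζ, h1, h2, h3⟩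

/-- **THEOREM K.** -/
theorem thmK (hDA : HC.SE.S_DA) : HC.SE.ThmK := by
  intro A T q N J j m r s b D E ψ hA hcov hpol hψ d c hc hS
  refine thmKg _ cl_alg2 A T q N J j m (fun i h => ?_) (fun i => (D i).Z) E
    (fun i => HasDA_new hDA (hcov i) (D i) (hpol i)) ψ hA hψ d c hc hS
  have := (hcov i).1
  omega

/-- **THEOREM B.** -/
theorem thmB (hDA : HC.SE.S_DA) : HC.SE.ThmB :=
  thmB_of (thmK hDA) (tLie L.pLa L.pLa' tLb L.tLc1 L.tLc2 E.tIsoInv)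

end SE
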