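import Pool.Agent.Lib.HC.Iface
import Pool.Agent.Lib.HC.L.Defs
import Pool.Agent.Lib.MP_640417_ag.Fg.Stmt

/-!
# PROJECT SE, parts S6 and S7: definitions (helper42)

Independent of cyclic covers and of the final class of algebraic classes `Q`.

* `Cl Q`: closure properties of the classes of algebraic cycles.
* `GF`: a Galois number field `K` with an embedding `τ : K → ℂ`; `c` = complex conjugation.
  A LABEL of `E` is a ring homomorphism `φ : E → K`.
* `Blk X T E r`: `T` has multiplication by `E`, `H_1(T,ℚ)` is an `E`-vector space of dimension `r`;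
  `b (φ,i)` is the basis of `H^1(T,ℂ)`, `b (φ,i) (v) = τ (φ (y_i))` on the lattice.
* `Tp X`: an abelian variety with such a multiplication, `E` with complex conjugation `inv`, and a
  compatible Riemann form `R`.
* `DA Q t`: the determinant classes `det_φ(T) × det_(conj φ)(C)` are in `Q`, `C` of CM type.
* `ML T ι`, `QA Q T ι F`: multilinear functions of 1-forms with the variables `ι`; the alternation of
  `F` is in `Q`.
-/

set_option autoImplicit false

open scoped ComplexConjugate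
open HC

noncomputable section

namespace SE

/-- The closure properties of the classes of algebraic cycles. -/
structure Cl (Q : (T : AV) → (m : ℕ) → Hlg T m → Prop) : Prop where
  base : ∀ {T : AV} {m : ℕ} {c : Hlg T m}, Alg T m c → Q T m c
  push : ∀ {T T' : AV} {m : ℕ} (φ : T.V →ₗ[ℂ] T'.V), (∀ x ∈ T.L, φ x ∈ T'.L) →
    ∀ {c : Hlg T m}, Q T m c → Q T' m (HC.push φ c)
  pont : ∀ {T : AV} {m n : ℕ} {c : Hlg T m} {d : Hlg T n}, Q T m c → Q T n d →
    Q T (m + n) (HC.pont c d)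
  cap : ∀ {T : AV} {m r : ℕ} (p q : Fin r → (T.V →ₗ[ℝ] ℂ)), IsDiv T p q →
    ∀ {c : Hlg T (m + 2)}, Q T (m + 2) c → Q T m (HC.cap p q c)
  add : ∀ {T : AV} {m : ℕ} {c d : Hlg T m}, Q T m c → Q T m d → Q T m (c + d)
  smul : ∀ {T : AV} {m : ℕ} (x : ℂ) {c : Hlg T m}, Q T m c → Q T m (x • c)

/-- A Galois number field with an embedding in `ℂ`; `c` is the complex conjugation. -/
structure GF where
  K : Type
  [fld : Field K]
  [nf : NumberField K]
  [gal : IsGalois ℚ K]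
  τ : K →+* ℂ
  c : K ≃ₐ[ℚ] K
  hc : ∀ x, τ (c x) = conj (τ x)

attribute [instance] GF.fld GF.nf GF.gal

/-- The Galois group. -/
abbrev GF.G (X : GF) : Type := X.K ≃ₐ[ℚ] X.K

variable {X : GF}

/-- The label `g ∘ φ`. -/
def gl {E : Type} [Field E] (g : X.G) (φ : E →+* X.K) : E →+* X.K :=
  ((g : X.K ≃ₐ[ℚ] X.K) : X.K →+* X.K).comp φ

/-- `T` has multiplication by the number field `E`, of rank `r`, with coordinates. -/
structure Blk (X : GF) (T : AV) (E : Type) [Field E] [NumberField E] (r : ℕ) where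
  /-- basis of `H^1(T, ℂ)` adapted to an `E`-basis of `H_1(T, ℚ)` -/
  b : Module.Basis ((E →+* X.K) × Fin r) ℂ (T.V →ₗ[ℝ] ℂ)
  /-- the action of `E` -/
  ρ : E →+* Module.End ℂ T.V
  lat : ∀ v ∈ T.L, ∃ y : Fin r → E, ∀ φ i, b (φ, i) v = X.τ (φ (y i))
  mem : ∀ y : Fin r → E, ∃ N : ℕ, N ≠ 0 ∧ ∃ v ∈ T.L, ∀ φ i, b (φ, i) v = N * X.τ (φ (y i))
  act : ∀ φ i x v, b (φ, i) (ρ x v) = X.τ (φ x) * b (φ, i) v

section
variable {T : AV} {E : Type} [Field E] [NumberField E] {r : ℕ}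

/-- The trace of the multiplication by `i` on the `φ`-part `H^1(T, ℂ)_φ`. -/
def Blk.δ (B : Blk X T E r) (φ : E →+* X.K) : ℂ :=
  ∑ i, B.b.coord (φ, i) (B.b (φ, i) ∘ₗ mulI T)

/-- The projection of `H^1(T, ℂ)` onto the `φ`-part. -/
def Blk.pr (B : Blk X T E r) (φ : E →+* X.K) : Module.End ℂ (T.V →ₗ[ℝ] ℂ) :=
  ∑ i, (B.b.coord (φ, i)).smulRight (B.b (φ, i))

/-- The coordinates are of type `(1,0)` or `(0,1)`. -/
def Blk.Pure (B : Blk X T E r) : Prop :=
  ∀ φ i, ∃ e : ℂ, (e = Complex.I ∨ e = -Complex.I) ∧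
    ∀ v, B.b (φ, i) (Complex.I • v) = e * B.b (φ, i) v

end

/-- An abelian variety with multiplication by a CM field `E` and a compatible Riemann form. -/
structure Tp (X : GF) where
  T : AV
  E : Type
  [fE : Field E]
  [nE : NumberField E]
  r : ℕ
  B : Blk X T E r
  /-- the complex conjugation of `E` -/
  inv : E ≃+* E
  hinv : ∀ (φ : E →+* X.K) (x : E), φ (inv x) = X.c (φ x)
  tc : ∃ x, inv x ≠ x
  /-- the Riemann form -/
  R : T.V →ₗ[ℝ] T.V →ₗ[ℝ] ℝ
  rat : ∀ u ∈ T.L, ∀ v ∈ T.L, ∃ n : ℤ, R u v = n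
  alt : ∀ u v, R u v = -R v u
  herm : ∀ u v, R (Complex.I • u) (Complex.I • v) = R u v
  pos : ∀ v, v ≠ 0 → 0 < R (Complex.I • v) v
  adj : ∀ x u v, R (B.ρ x u) v = R u (B.ρ (inv x) v)

attribute [instance] Tp.fE Tp.nE

/-- A copy of a finite product of abelian varieties. -/
structure Prd {ι : Type} [Fintype ι] (T : ι → AV) where
  Y : AV
  ψ : Y.V ≃ₗ[ℂ] (∀ k, (T k).V)
  lat : ∀ v, v ∈ Y.L ↔ ∀ k, ψ v k ∈ (T k).L

/-- THE OUTPUT OF S5: the determinant classes. `C` is of CM type with multiplication by the same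
field, of the same rank, with the same traces of `i`, and `det_φ(T) × det_(conj φ)(C)` is in `Q`
for every label `φ`. -/
structure DA (Q : (T : AV) → (m : ℕ) → Hlg T m → Prop) (t : Tp X) where
  C : AV
  cm : IsCM C
  BC : Blk X C t.E t.r
  pure : BC.Pure
  type : ∀ φ, t.B.δ φ = BC.δ φ
  alg : ∀ (φ : t.E →+* X.K) (P : Pd t.T C) (i₁ : t.T.V →ₗ[ℂ] P.T.V) (i₂ : C.V →ₗ[ℂ] P.T.V),
    (∀ v, P.ψ (i₁ v) = (v, 0)) → (∀ v, P.ψ (i₂ v) = (0, v)) →
    Q P.T (t.r + t.r) (HC.pont (HC.push i₁ (wdg fun i => t.B.b.coord (φ, i)))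
      (HC.push i₂ (wdg fun i => BC.b.coord (gl X.c φ, i))))

/-! ## Multilinear functions -/

/-- Multilinear functions of 1-forms, variables indexed by `ι`. -/
abbrev ML (T : AV) (ι : Type) : Type := MultilinearMap ℂ (fun _ : ι => (T.V →ₗ[ℝ] ℂ)) ℂ

open Classical in
/-- The alternation of `F` is in `Q` (for all enumerations of the variables). -/
def QA (Q : (T : AV) → (m : ℕ) → Hlg T m → Prop) (T : AV) (ι : Type) [Fintype ι]
    (F : ML T ι) : Prop :=
  ∀ (m : ℕ) (e : ι ≃ Fin m), Q T m ((MultilinearMap.alternatization F).domDomCongr e)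

/-- The product of functions of different variables. -/
def mulML {T : AV} {ι ι' : Type} (F : ML T ι) (G : ML T ι') : ML T (ι ⊕ ι') :=
  (LinearMap.mul' ℂ ℂ).compMultilinearMap (F.domCoprod G)

/-- The image under a homomorphism. -/
def pullML {T T' : AV} {ι : Type} (φ : T.V →ₗ[ℂ] T'.V) (F : ML T ι) : ML T' ι :=
  F.compLinearMap fun _ => pull φ

/-- The product of linear functions. -/
def prodML {T : AV} {ι : Type} [Fintype ι] (x : ι → ((T.V →ₗ[ℝ] ℂ) →ₗ[ℂ] ℂ)) : ML T ι :=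
  (MultilinearMap.mkPiAlgebra ℂ ι ℂ).compLinearMap x

/-- A label of a system of types. -/
abbrev Lb {J : Type} (S : J → Tp X) : Type := (j : J) × ((S j).E →+* X.K)

/-- **TR** (helper96): balanced products of determinants are in `Q`. `s p` are labels, `κ p`
homomorphisms from `T_(s p)` to `Y`. -/
def S_TR : Prop :=
  ∀ (Q : (T : AV) → (m : ℕ) → Hlg T m → Prop), Cl Q → ∀ (X : GF) (J : Type) (S : J → Tp X),
    (∀ j, Nonempty (DA Q (S j))) → ∀ (Y : AV) (σ : Type) [Fintype σ] (s : σ → Lb S)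
    (κ : ∀ p, (S (s p).1).T.V →ₗ[ℂ] Y.V), (∀ p, ∀ v ∈ (S (s p).1).T.L, κ p v ∈ Y.L) →
    (∀ g : X.G, ∑ p, (S (s p).1).B.δ (gl g (s p).2) = 0) →
    QA Q Y ((p : σ) × Fin (S (s p).1).r)
      (prodML fun q => (S (s q.1).1).B.b.coord ((s q.1).2, q.2) ∘ₗ pull (κ q.1))

end SE
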