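import Pool.Agent.Lib.SE.W.Spec
import Pool.Agent.Lib.SE.Iface

/-!
# PROJECT SE: THEOREM K from the modules of part W and `S_DA` (helper42)
-/

set_option autoImplicit false

open HC

noncomputable section

namespace SE

/-- `Alg2` has the closure properties. -/
theorem cl_alg2 : Cl (fun T m c => HC.SE.Alg2 T m c) where
  base := HC.SE.Alg2.base
  push := fun φ hφ _ hc => HC.SE.Alg2.push φ hφ hc
  pont := fun hc hd => HC.SE.Alg2.pont hc hd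
  cap := fun p q h _ hc => HC.SE.Alg2.cap p q h hc
  add := fun hc hd => HC.SE.Alg2.add hc hd
  smul := fun x _ hc => HC.SE.Alg2.smul x hc

namespace Fin_aux

/-- a number field -/
structure NF where
  K : Type
  [fld : Field K]
  [nf : NumberField K]

attribute [instance] NF.fld NF.nf

/-- the cyclotomic field -/
def cyc (m : ℕ) (hm : m ≠ 0) : NF :=
  haveI : NeZero m := ⟨hm⟩
  { K := CyclotomicField m ℚ }

theorem cyc_zeta (m : ℕ) (hm : m ≠ 0) : ∃ ζ : (cyc m hm).K, IsPrimitiveRoot ζ m := by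
  have : NeZero m := ⟨hm⟩
  have : NeZero ((m : ℕ) : ℚ) := ⟨Nat.cast_ne_zero.mpr hm⟩
  obtain ⟨ζ, hζ⟩ := (CyclotomicField.isCyclotomicExtension m ℚ).exists_isPrimitiveRoot
    (Set.mem_singleton m) hm
  exact ⟨ζ, hζ⟩

/-- the fields of `A` and the cyclotomic fields in one Galois field -/
theorem gex (h : S_Gex) (n q : ℕ) (E : Fin n → Type) [∀ i, Field (E i)] [∀ i, NumberField (E i)]
    (m : Fin q → ℕ) (hm : ∀ i, m i ≠ 0) :
    ∃ X : GF, (∀ i, Nonempty (E i →+* X.K)) ∧ ∀ i, ∃ ζ : X.K, IsPrimitiveRoot ζ (m i) := by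
  classical
  obtain ⟨F, hF1, hF2⟩ : ∃ F : Fin n ⊕ Fin q → NF, (∀ i, F (Sum.inl i) = { K := E i }) ∧
      ∀ i, F (Sum.inr i) = cyc (m i) (hm i) :=
    ⟨Sum.elim (fun i => { K := E i }) fun i => cyc (m i) (hm i), fun _ => rfl, fun _ => rfl⟩
  obtain ⟨X, hX⟩ := h (n + q) fun i => (F (finSumFinEquiv.symm i)).K
  have hX' : ∀ i, Nonempty ((F i).K →+* X.K) := by
    intro i
    have := hX (finSumFinEquiv i)
    rwa [Equiv.symm_apply_apply] at this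
  refine ⟨X, fun i => ?_, fun i => ?_⟩
  · have := hX' (Sum.inl i)
    rwa [hF1 i] at this
  · have := hX' (Sum.inr i)
    rw [hF2 i] at this
    obtain ⟨φ⟩ := this
    obtain ⟨ζ, hζ⟩ := cyc_zeta (m i) (hm i)
    exact ⟨φ ζ, hζ.map_of_injective φ.injective⟩

/-- transport of `S_Kf` along `t.T = J` -/
theorem kf' (hKf : S_Kf) (Q : (T : AV) → (m : ℕ) → Hlg T m → Prop) (hQ : Cl Q)
    (hM : ∀ (X : GF) (J : Type) [Fintype J] (S : J → Tp X), (∀ j, Nonempty (DA Q (S j))) →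
      ∀ (N : Type) [Fintype N] (Kc : N → J) (C : Prd fun k => (S (Kc k)).T) (m : ℕ)
      (c : Hlg C.Y m), IsHodge C.Y m c → KdY C c → Q C.Y m c)
    (hD : ∀ (X : GF) (t : Tp X), IsCM t.T → t.B.Pure → Nonempty (DA Q t))
    (A : AV) (n : ℕ) (X : GF) (SA : Fin n → Tp X)
    (hSA : ∀ i, (SA i).r = 1 ∧ IsCM (SA i).T ∧ (SA i).B.Pure)
    (hA : ∀ P : Prd fun i => (SA i).T, ∃ ψ : A.V ≃ₗ[ℂ] P.Y.V, ∀ v ∈ A.L, ∃ N : ℕ, N ≠ 0 ∧
        N • ψ v ∈ P.Y.L)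
    (T : AV) (q N : ℕ) (J : Fin q → AV) (t : Fin q → Tp X) (hT : ∀ i, (t i).T = J i)
    (j : Fin N → Fin q) (Z : ∀ i, Module.End ℂ (J i).V)
    (R : ∀ i, (J i).V →ₗ[ℝ] (J i).V →ₗ[ℝ] ℝ)
    (hZ : ∀ i, ∃ ζ, ∀ v, (t i).B.ρ ζ v = hT i ▸ Z i (hT i ▸ v))
    (hR : ∀ i u v, (t i).R u v = R i (hT i ▸ u) (hT i ▸ v))
    (hDA : ∀ i, Nonempty (DA Q (t i))) (ψ : T.V ≃ₗ[ℂ] A.V × (∀ n, (J (j n)).V))
    (hψ : ∀ v ∈ T.L, ∃ k : ℕ, k ≠ 0 ∧ k • (ψ v).1 ∈ A.L ∧ ∀ n, k • (ψ v).2 n ∈ (J (j n)).L)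
    (d : ℕ) (c : Hlg T d) (hc : IsHodge T d c) (hS : HC.SE.SUK Z R ψ c) : Q T d c := by
  obtain rfl : J = fun i => (t i).T := funext fun i => (hT i).symm
  have hR' : R = fun i => (t i).R := by
    funext i
    ext u v
    exact (hR i u v).symm
  subst hR'
  refine hKf Q hQ hM hD A n X SA hSA hA T q N t j Z (fun i => ?_) hDA ψ hψ d c hc hS
  obtain ⟨ζ, hζ⟩ := hZ i
  exact ⟨ζ, LinearMap.ext fun v => hζ v⟩

end Fin_aux

open Fin_aux in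
/-- THEOREM K. -/
theorem thmK_of (hKf : S_Kf)
    (hM : ∀ (X : GF) (J : Type) [Fintype J] (S : J → Tp X),
      (∀ j, Nonempty (DA (fun T m c => HC.SE.Alg2 T m c) (S j))) →
      ∀ (N : Type) [Fintype N] (Kc : N → J) (C : Prd fun k => (S (Kc k)).T) (m : ℕ)
      (c : Hlg C.Y m), IsHodge C.Y m c → KdY C c → HC.SE.Alg2 C.Y m c)
    (hD : ∀ (X : GF) (t : Tp X), IsCM t.T → t.B.Pure →
      Nonempty (DA (fun T m c => HC.SE.Alg2 T m c) t))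
    (hAcm : S_Acm) (hGex : S_Gex) (hDA : HC.SE.S_DA) : HC.SE.ThmK := by
  intro A T q N J j m r s b D E ψ hA hcov hpol hψ d c hc hS
  obtain ⟨n, EA, f1, f2, hX⟩ := hAcm A hA
  obtain ⟨X, hX1, hX2⟩ := gex hGex n q EA m fun i h => by
    have := (hcov i).1
    omega
  obtain ⟨SA, hSA, hA2⟩ := hX X hX1
  choose t hT ζ hζ hE hρ hR hDt using fun i => hDA X (m i) (r i) (s i) (b i) (hcov i) (hX2 i) (J i)
    (D i) (E i) (hpol i)
  exact kf' hKf (fun T m c => HC.SE.Alg2 T m c) cl_alg2 hM hD A n X SA hSA hA2 T q N J t hT j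
    (fun i => (D i).Z) E (fun i => ⟨ζ i, hρ i⟩) hR hDt ψ hψ d c hc hS

end SE
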