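import Pool.Agent.Lib.SE.W.Spec

/-! # PROJECT SE, part S7, module Bex: coordinates of an abelian variety with multiplication -/

set_option autoImplicit false

open scoped ComplexConjugate
open HC

noncomputable section

namespace SE

namespace Bex_aux

/-- An abelian variety with multiplication by a number field. -/
structure Dat where
  T : AV
  E : Type
  [fE : Field E]
  [nE : NumberField E]
  ρ : E →+* Module.End ℂ T.V
  h : ∀ x, RatEnd T ((ρ x).restrictScalars ℝ)

attribute [instance] Dat.fE Dat.nE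

variable (D : Dat)

/-- The rational multiples of the lattice vectors. -/
def Dat.H : AddSubgroup D.T.V where
  carrier := {v | ∃ N : ℕ, N ≠ 0 ∧ N • v ∈ D.T.L}
  zero_mem' := ⟨1, one_ne_zero, by simp⟩
  add_mem' := by
    rintro u v ⟨m, hm, hu⟩ ⟨n, hn, hv⟩
    refine ⟨m * n, mul_ne_zero hm hn, ?_⟩
    rw [smul_add]
    refine add_mem ?_ ?_
    · rw [mul_comm, mul_smul]
      exact nsmul_mem hu n
    · rw [mul_smul]
      exact nsmul_mem hv m
  neg_mem' := by
    rintro u ⟨m, hm, hu⟩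
    exact ⟨m, hm, by rw [smul_neg]; exact neg_mem hu⟩

lemma rho_mem (x : D.E) (v : D.T.V) (hv : v ∈ D.H) : D.ρ x v ∈ D.H := by
  obtain ⟨m, hm, hv⟩ := hv
  obtain ⟨n, hn, h⟩ := D.h x _ hv
  refine ⟨n * m, mul_ne_zero hn hm, ?_⟩
  have h1 : (n * m) • D.ρ x v = n • ((D.ρ x).restrictScalars ℝ) (m • v) := by
    rw [mul_smul, map_nsmul]
    rfl
  rw [h1]
  exact h

instance : Module D.E D.H where
  smul x h := ⟨D.ρ x h.1, rho_mem D x h.1 h.2⟩
  one_smul h := Subtype.ext (by
    show D.ρ 1 h.1 = h.1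
    rw [map_one]
    rfl)
  mul_smul x y h := Subtype.ext (by
    show D.ρ (x * y) h.1 = D.ρ x (D.ρ y h.1)
    rw [map_mul]
    rfl)
  smul_zero x := Subtype.ext (map_zero (D.ρ x))
  smul_add x u v := Subtype.ext (map_add (D.ρ x) u.1 v.1)
  add_smul x y h := Subtype.ext (by
    show D.ρ (x + y) h.1 = D.ρ x h.1 + D.ρ y h.1
    rw [map_add]
    rfl)
  zero_smul h := Subtype.ext (by
    show D.ρ 0 h.1 = 0
    rw [map_zero]
    rfl)

lemma smul_val (x : D.E) (h : D.H) : ((x • h : D.H) : D.T.V) = D.ρ x h.1 := rfl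

instance : Module ℚ D.H := Module.compHom D.H (algebraMap ℚ D.E)

instance : IsScalarTower ℚ D.E D.H := ⟨fun q x h => by
  rw [Algebra.smul_def, mul_smul]
  rfl⟩

instance : Module.Free ℤ D.T.L := ZLattice.module_free ℝ D.T.L

instance : Module.Finite ℤ D.T.L := ZLattice.module_finite ℝ D.T.L

/-- The index set of a basis of the lattice. -/
abbrev Ix : Type := Module.Free.ChooseBasisIndex ℤ D.T.L

/-- A basis of the lattice. -/
def bL : Module.Basis (Ix D) ℤ D.T.L := Module.Free.chooseBasis ℤ D.T.L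

/-- The inclusion of the lattice. -/
def inc : D.T.L →ₗ[ℤ] D.H where
  toFun v := ⟨v.1, 1, one_ne_zero, by
    rw [one_smul]
    exact v.2⟩
  map_add' _ _ := rfl
  map_smul' _ _ := rfl

lemma inc_inj : Function.Injective (inc D) := fun _ _ h =>
  Subtype.ext (congrArg (fun w : D.H => w.1) h)

lemma li : LinearIndependent ℚ (fun k => inc D (bL D k)) := by
  rw [← LinearIndependent.iff_fractionRing ℤ ℚ]
  exact (bL D).linearIndependent.map' (inc D) (LinearMap.ker_eq_bot.2 (inc_inj D))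

lemma sp : ⊤ ≤ Submodule.span ℚ (Set.range fun k => inc D (bL D k)) := by
  rintro h -
  obtain ⟨N, hN, hh⟩ := h.2
  let w : D.T.L := ⟨N • h.1, hh⟩
  have h1 : N • h = inc D w := Subtype.ext rfl
  have h2 : inc D w ∈ Submodule.span ℚ (Set.range fun k => inc D (bL D k)) := by
    rw [← (bL D).sum_repr w, map_sum]
    refine sum_mem fun k _ => ?_
    rw [map_zsmul]
    refine zsmul_mem ?_ _
    exact Submodule.subset_span ⟨k, rfl⟩
  rw [← h1] at h2
  have h3 : ((N : ℚ)⁻¹) • (N • h) = h := by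
    rw [← Nat.cast_smul_eq_nsmul ℚ, smul_smul, inv_mul_cancel₀ (Nat.cast_ne_zero.2 hN), one_smul]
  rw [← h3]
  exact Submodule.smul_mem _ _ h2

/-- A rational basis. -/
def qB : Module.Basis (Ix D) ℚ D.H := Module.Basis.mk (li D) (sp D)

instance : Module.Finite ℚ D.H := Module.Finite.of_basis (qB D)

instance : Module.Finite D.E D.H := Module.Finite.of_restrictScalars_finite ℚ D.E D.H

/-- The real basis. -/
def rB : Module.Basis (Ix D) ℝ D.T.V := (bL D).ofZLatticeBasis ℝ D.T.L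

lemma rB_apply (k : Ix D) : rB D k = (bL D k : D.T.V) :=
  (bL D).ofZLatticeBasis_apply ℝ D.T.L k

lemma fr1 : Module.finrank ℚ D.H = Module.finrank ℝ D.T.V := by
  rw [Module.finrank_eq_card_basis (qB D), Module.finrank_eq_card_basis (rB D)]

lemma fr2 : Module.finrank ℚ D.E * Module.finrank D.E D.H = 2 * Module.finrank ℂ D.T.V := by
  rw [Module.finrank_mul_finrank, fr1, finrank_real_of_complex]

/-- A basis over `E`. -/
def eB : Module.Basis (Fin (Module.finrank D.E D.H)) D.E D.H := Module.finBasis D.E D.H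

variable (X : GF)

/-- The coordinates. -/
def bb (φ : D.E →+* X.K) (i : Fin (Module.finrank D.E D.H)) : D.T.V →ₗ[ℝ] ℂ :=
  (rB D).constr ℝ fun k => X.τ (φ ((eB D).coord i (inc D (bL D k))))

lemma bb_inc (φ : D.E →+* X.K) (i : Fin (Module.finrank D.E D.H)) (v : D.T.L) :
    bb D X φ i v.1 = X.τ (φ ((eB D).coord i (inc D v))) := by
  let f : D.T.L →ₗ[ℤ] ℂ := ((bb D X φ i).restrictScalars ℤ) ∘ₗ D.T.L.subtype
  let g : D.T.L →ₗ[ℤ] ℂ :=
    (AddMonoidHom.toIntLinearMap (((X.τ.comp φ : D.E →+* ℂ) : D.E →+ ℂ).comp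
      ((eB D).coord i).toAddMonoidHom)) ∘ₗ inc D
  have h : f = g := by
    refine (bL D).ext fun k => ?_
    show bb D X φ i (bL D k).1 = X.τ (φ ((eB D).coord i (inc D (bL D k))))
    rw [bb, ← rB_apply, Module.Basis.constr_basis]
  exact LinearMap.congr_fun h v

lemma bb_H (φ : D.E →+* X.K) (i : Fin (Module.finrank D.E D.H)) (v : D.H) :
    bb D X φ i v.1 = X.τ (φ ((eB D).coord i v)) := by
  obtain ⟨N, hN, hh⟩ := v.2
  have h1 := bb_inc D X φ i ⟨N • v.1, hh⟩
  have h2 : inc D ⟨N • v.1, hh⟩ = N • v := Subtype.ext rfl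
  rw [h2] at h1
  have h3 : bb D X φ i (N • v.1) = N • bb D X φ i v.1 := map_nsmul _ _ _
  have h4 : X.τ (φ ((eB D).coord i (N • v))) = N • X.τ (φ ((eB D).coord i v)) := by
    rw [map_nsmul, map_nsmul, map_nsmul]
  have h5 : N • bb D X φ i v.1 = N • X.τ (φ ((eB D).coord i v)) := by
    rw [← h3, ← h4]
    exact h1
  exact smul_right_injective ℂ hN h5

lemma bb_act (φ : D.E →+* X.K) (i : Fin (Module.finrank D.E D.H)) (x : D.E) (v : D.T.V) :
    bb D X φ i (D.ρ x v) = X.τ (φ x) * bb D X φ i v := by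
  have h : bb D X φ i ∘ₗ (D.ρ x).restrictScalars ℝ = X.τ (φ x) • bb D X φ i := by
    refine (rB D).ext fun k => ?_
    show bb D X φ i (D.ρ x (rB D k)) = X.τ (φ x) * bb D X φ i (rB D k)
    rw [rB_apply]
    have h1 := bb_H D X φ i (x • inc D (bL D k))
    have h2 := bb_H D X φ i (inc D (bL D k))
    rw [map_smul, smul_eq_mul, map_mul, map_mul, ← h2] at h1
    exact h1
  exact LinearMap.congr_fun h v

lemma bb_li : LinearIndependent ℂ
    (fun q : (D.E →+* X.K) × Fin (Module.finrank D.E D.H) => bb D X q.1 q.2) := by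
  classical
  rw [Fintype.linearIndependent_iff]
  rintro g hg ⟨φ, i⟩
  have hc : LinearIndependent ℂ
      (fun φ : D.E →+* X.K => (fun x : D.E => X.τ (φ x) : D.E → ℂ)) := by
    have h1 := linearIndependent_monoidHom D.E ℂ
    have h2 := h1.comp (fun φ : D.E →+* X.K => ((X.τ.comp φ : D.E →+* ℂ) : D.E →* ℂ)) (by
      intro φ ψ h
      ext x
      have h3 := DFunLike.congr_fun h x
      exact X.τ.injective h3)
    exact h2
  rw [Fintype.linearIndependent_iff] at hc
  refine hc (fun φ => g (φ, i)) ?_ φ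
  funext x
  have h1 := LinearMap.congr_fun hg (x • eB D i : D.H).1
  rw [LinearMap.sum_apply, Fintype.sum_prod_type] at h1
  rw [Finset.sum_apply]
  refine Eq.trans ?_ h1
  refine Finset.sum_congr rfl fun ψ _ => ?_
  rw [Finset.sum_eq_single_of_mem i (Finset.mem_univ i)]
  · show g (ψ, i) * X.τ (ψ x) = g (ψ, i) * bb D X ψ i (x • eB D i : D.H).1
    rw [bb_H, map_smul, Module.Basis.coord_apply, Module.Basis.repr_self, Finsupp.single_eq_same,
      smul_eq_mul, mul_one]
  · intro j _ hj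
    show g (ψ, j) * bb D X ψ j (x • eB D i : D.H).1 = 0
    rw [bb_H, map_smul, Module.Basis.coord_apply, Module.Basis.repr_self,
      Finsupp.single_eq_of_ne (by exact hj), smul_zero, map_zero, map_zero, mul_zero]

lemma card_emb (E : Type) [Field E] [NumberField E] (h : Nonempty (E →+* X.K)) :
    Fintype.card (E →+* X.K) = Module.finrank ℚ E := by
  obtain ⟨φ⟩ := h
  rw [← AlgHom.card_of_splits ℚ E X.K, Fintype.card_congr (RingHom.equivRatAlgHom E X.K)]
  intro x
  have h1 : minpoly ℚ (RingHom.equivRatAlgHom E X.K φ x) = minpoly ℚ x :=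
    minpoly.algHom_eq _ (RingHom.injective _) x
  rw [← h1]
  exact Normal.splits inferInstance _

lemma card_eq (h : Nonempty (D.E →+* X.K)) :
    Fintype.card ((D.E →+* X.K) × Fin (Module.finrank D.E D.H)) =
      Module.finrank ℂ (D.T.V →ₗ[ℝ] ℂ) := by
  rw [Fintype.card_prod, Fintype.card_fin, card_emb X D.E h, fr2, Module.finrank_linearMap_self,
    finrank_real_of_complex]

/-- The basis. -/
def BB (h : Nonempty (D.E →+* X.K)) :
    Module.Basis ((D.E →+* X.K) × Fin (Module.finrank D.E D.H)) ℂ (D.T.V →ₗ[ℝ] ℂ) :=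
  Module.Basis.mk (bb_li D X) ((bb_li D X).span_eq_top_of_card_eq_finrank' (card_eq D X h)).ge

lemma BB_apply (h : Nonempty (D.E →+* X.K)) (φ : D.E →+* X.K)
    (i : Fin (Module.finrank D.E D.H)) : BB D X h (φ, i) = bb D X φ i := by
  simp [BB]

/-- The coordinates. -/
def blk (h : Nonempty (D.E →+* X.K)) : Blk X D.T D.E (Module.finrank D.E D.H) where
  b := BB D X h
  ρ := D.ρ
  lat v hv := ⟨fun i => (eB D).coord i (inc D ⟨v, hv⟩), fun φ i => by
    rw [BB_apply]
    exact bb_inc D X φ i ⟨v, hv⟩⟩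
  mem y := by
    obtain ⟨N, hN, hh⟩ := ((eB D).equivFun.symm y).2
    refine ⟨N, hN, _, hh, fun φ i => ?_⟩
    rw [BB_apply, map_nsmul, bb_H, Module.Basis.coord_apply, ← Module.Basis.equivFun_apply,
      LinearEquiv.apply_symm_apply, nsmul_eq_mul]
  act φ i x v := by
    rw [BB_apply]
    exact bb_act D X φ i x v

end Bex_aux

theorem tBex : S_Bex := by
  intro X T E _ _ ρ hρ hE
  let D : Bex_aux.Dat := ⟨T, E, ρ, hρ⟩
  refine ⟨_, Bex_aux.blk D X hE, rfl, ?_⟩
  rw [mul_comm]
  exact Bex_aux.fr2 D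

end SE
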