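import Pool.Agent.Lib.SE.W.Spec
import Pool.Agent.Lib.MP_640417_ag.Fg.MinI
import Pool.Agent.Lib.MP_640417_ag.Fg.RepI
import Pool.Agent.Lib.MP_640417_ag.Fg.PerfK

/-!
# PROJECT SE, part S7, module Jz: the multiplication by `i` on invariants
-/

set_option autoImplicit false

open scoped ComplexConjugate
open HC
open Pool.Agent.Lib.MP_640417_ag.Fg (Mono InL InZ Perf AdjCl RegC Atoms MinIdem exists_min
  exists_atoms perf_of)

noncomputable section

namespace SE

namespace Jz_aux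

variable {X : GF}

section blk

variable {T : AV} {E : Type} [Field E] [NumberField E] {r : ℕ} (B : Blk X T E r)

/-- composition with a real endomorphism -/
def cp {T : AV} (U : Module.End ℝ T.V) : Module.End ℂ (T.V →ₗ[ℝ] ℂ) where
  toFun a := a ∘ₗ U
  map_add' _ _ := rfl
  map_smul' _ _ := rfl

lemma cp_apply (U : Module.End ℝ T.V) (a : T.V →ₗ[ℝ] ℂ) : cp U a = a ∘ₗ U := rfl

lemma b_rho (p : (E →+* X.K) × Fin r) (x : E) :
    B.b p ∘ₗ (B.ρ x).restrictScalars ℝ = X.τ (p.1 x) • B.b p := by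
  refine LinearMap.ext fun v => ?_
  exact B.act p.1 p.2 x v

lemma coord_rho (p : (E →+* X.K) × Fin r) (x : E) (a : T.V →ₗ[ℝ] ℂ) :
    B.b.coord p (a ∘ₗ (B.ρ x).restrictScalars ℝ) = X.τ (p.1 x) * B.b.coord p a := by
  have h : B.b.coord p ∘ₗ cp ((B.ρ x).restrictScalars ℝ) = X.τ (p.1 x) • B.b.coord p := by
    refine B.b.ext fun p' => ?_
    rw [LinearMap.comp_apply, cp_apply, b_rho, map_smul, LinearMap.smul_apply, Module.Basis.coord_apply,
      Module.Basis.repr_self]
    by_cases hp : p' = p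
    · rw [hp]
    · rw [Finsupp.single_eq_of_ne (Ne.symm hp), smul_zero, smul_zero]
  exact LinearMap.congr_fun h a

lemma coord_far {U : Module.End ℝ T.V} (hU : ∀ x v, U (B.ρ x v) = B.ρ x (U v))
    (p p' : (E →+* X.K) × Fin r) (h : p'.1 ≠ p.1) : B.b.coord p' (B.b p ∘ₗ U) = 0 := by
  obtain ⟨x, hx⟩ : ∃ x, p'.1 x ≠ p.1 x := by
    by_contra hcon
    push Not at hcon
    exact h (RingHom.ext hcon)
  have h1 : (B.b p ∘ₗ U) ∘ₗ (B.ρ x).restrictScalars ℝ = X.τ (p.1 x) • (B.b p ∘ₗ U) := by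
    refine LinearMap.ext fun v => ?_
    show B.b p (U (B.ρ x v)) = X.τ (p.1 x) * B.b p (U v)
    rw [hU]
    exact B.act p.1 p.2 x (U v)
  have h2 := coord_rho B p' x (B.b p ∘ₗ U)
  rw [h1, map_smul, smul_eq_mul] at h2
  have h3 : (X.τ (p.1 x) - X.τ (p'.1 x)) * B.b.coord p' (B.b p ∘ₗ U) = 0 := by
    rw [sub_mul, h2, sub_self]
  rcases mul_eq_zero.1 h3 with h4 | h4
  · exact absurd (X.τ.injective (sub_eq_zero.1 h4)).symm hx
  · exact h4

lemma pr_apply (φ : E →+* X.K) (a : T.V →ₗ[ℝ] ℂ) :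
    B.pr φ a = ∑ i, B.b.coord (φ, i) a • B.b (φ, i) := by
  rw [Blk.pr, LinearMap.sum_apply]
  rfl

lemma pr_self (p : (E →+* X.K) × Fin r) : B.pr p.1 (B.b p) = B.b p := by
  rw [pr_apply, Finset.sum_eq_single p.2]
  · rw [Module.Basis.coord_apply, Module.Basis.repr_self]
    show (Finsupp.single p (1 : ℂ)) p • B.b p = B.b p
    rw [Finsupp.single_eq_same, one_smul]
  · intro i _ hi
    rw [Module.Basis.coord_apply, Module.Basis.repr_self, Finsupp.single_eq_of_ne, zero_smul]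
    intro h
    exact hi (congrArg Prod.snd h)
  · intro h
    exact absurd (Finset.mem_univ _) h

lemma pr_far (φ : E →+* X.K) (p : (E →+* X.K) × Fin r) (h : φ ≠ p.1) : B.pr φ (B.b p) = 0 := by
  rw [pr_apply]
  refine Finset.sum_eq_zero fun i _ => ?_
  rw [Module.Basis.coord_apply, Module.Basis.repr_self, Finsupp.single_eq_of_ne, zero_smul]
  intro h'
  exact h (congrArg Prod.fst h')

/-- an element with only `φ`-coordinates is fixed by the projection -/
lemma pr_of_far {a : T.V →ₗ[ℝ] ℂ} (φ : E →+* X.K) (h : ∀ p, p.1 ≠ φ → B.b.coord p a = 0) :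
    B.pr φ a = a := by
  have h1 : a = ∑ p, B.b.coord p a • B.b p := (B.b.sum_repr a).symm
  conv_lhs => rw [h1]
  conv_rhs => rw [h1]
  rw [map_sum]
  refine Finset.sum_congr rfl fun p _ => ?_
  rw [map_smul]
  by_cases hp : p.1 = φ
  · rw [← hp, pr_self]
  · rw [h p hp, zero_smul, zero_smul]

lemma pr_comm {U : Module.End ℝ T.V} (hU : ∀ x v, U (B.ρ x v) = B.ρ x (U v)) (φ : E →+* X.K) :
    B.pr φ * cp U = cp U * B.pr φ := by
  refine B.b.ext fun p => ?_
  rw [Module.End.mul_apply, Module.End.mul_apply]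
  by_cases hp : p.1 = φ
  · rw [← hp, pr_self, cp_apply]
    exact pr_of_far B p.1 fun p' hp' => coord_far B hU p p' hp'
  · rw [pr_far B φ p (Ne.symm hp), map_zero, cp_apply, pr_apply]
    refine Finset.sum_eq_zero fun i _ => ?_
    rw [coord_far B hU p (φ, i) (Ne.symm hp), zero_smul]

lemma trace_cp_pr (U : Module.End ℝ T.V) (φ : E →+* X.K) :
    LinearMap.trace ℂ _ (cp U * B.pr φ) = ∑ i, B.b.coord (φ, i) (B.b (φ, i) ∘ₗ U) := by
  have h : cp U * B.pr φ = ∑ i, (B.b.coord (φ, i)).smulRight (B.b (φ, i) ∘ₗ U) := by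
    refine LinearMap.ext fun a => ?_
    rw [Module.End.mul_apply, pr_apply, map_sum, LinearMap.sum_apply]
    refine Finset.sum_congr rfl fun i _ => ?_
    rw [map_smul]
    rfl
  have : FiniteDimensional ℂ (T.V →ₗ[ℝ] ℂ) := Module.Basis.finiteDimensional_of_finite B.b
  rw [h, map_sum]
  refine Finset.sum_congr rfl fun i _ => ?_
  rw [LinearMap.trace_smulRight]

lemma trace_pr (φ : E →+* X.K) : LinearMap.trace ℂ _ (B.pr φ) = (r : ℂ) := by
  have h := trace_cp_pr B 1 φ
  have h1 : cp (1 : Module.End ℝ T.V) * B.pr φ = B.pr φ := LinearMap.ext fun a => rfl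
  rw [h1] at h
  rw [h]
  have h2 : ∀ i : Fin r, B.b.coord (φ, i) (B.b (φ, i) ∘ₗ (1 : Module.End ℝ T.V)) = 1 := by
    intro i
    have h3 : B.b (φ, i) ∘ₗ (1 : Module.End ℝ T.V) = B.b (φ, i) := LinearMap.ext fun a => rfl
    rw [h3, Module.Basis.coord_apply, Module.Basis.repr_self, Finsupp.single_eq_same]
  rw [Finset.sum_congr rfl fun i _ => h2 i]
  simp

end blk

variable {J : Type}

/-- the composition with the multiplication by `i` -/
def YJ (S : J → Tp X) : Module.End ℂ (VL S) :=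
  LinearMap.pi fun j => cp (mulI (S j).T) ∘ₗ LinearMap.proj j

lemma YJ_apply (S : J → Tp X) (a : VL S) (j : J) : YJ S a j = a j ∘ₗ mulI (S j).T := rfl

open Classical in
lemma eL_apply (S : J → Tp X) (l : Lb S) (a : VL S) :
    eL S l a = Pi.single l.1 ((S l.1).B.pr l.2 (a l.1)) := by
  rw [eL]
  rfl

lemma mulI_rho (t : Tp X) (x : t.E) (v : t.T.V) :
    mulI t.T (t.B.ρ x v) = t.B.ρ x (mulI t.T v) := by
  show Complex.I • (t.B.ρ x v) = t.B.ρ x (Complex.I • v)
  rw [map_smul]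

lemma YJ_comm (S : J → Tp X) (l : Lb S) : YJ S * eL S l = eL S l * YJ S := by
  classical
  refine LinearMap.ext fun a => ?_
  rw [Module.End.mul_apply, Module.End.mul_apply, eL_apply, eL_apply]
  funext j
  rw [YJ_apply]
  by_cases hj : j = l.1
  · subst hj
    rw [Pi.single_eq_same, Pi.single_eq_same, YJ_apply]
    have h := LinearMap.congr_fun (pr_comm (S l.1).B (U := mulI (S l.1).T) (mulI_rho (S l.1)) l.2)
      (a l.1)
    exact h.symm
  · rw [Pi.single_eq_of_ne hj, Pi.single_eq_of_ne hj]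
    rfl

lemma YJ_trace [Fintype J] (S : J → Tp X) (l : Lb S) :
    LinearMap.trace ℂ _ (YJ S * eL S l) = (S l.1).B.δ l.2 := by
  classical
  have : ∀ j, FiniteDimensional ℂ ((S j).T.V →ₗ[ℝ] ℂ) := fun j =>
    Module.Basis.finiteDimensional_of_finite (S j).B.b
  have h : YJ S * eL S l = LinearMap.single ℂ (fun j => ((S j).T.V →ₗ[ℝ] ℂ)) l.1 ∘ₗ
      ((cp (mulI (S l.1).T) * (S l.1).B.pr l.2) ∘ₗ LinearMap.proj l.1) := by
    refine LinearMap.ext fun a => ?_
    rw [Module.End.mul_apply, eL_apply]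
    funext j
    rw [YJ_apply]
    show _ = (Pi.single l.1 ((cp (mulI (S l.1).T) * (S l.1).B.pr l.2) (a l.1)) : VL S) j
    by_cases hj : j = l.1
    · subst hj
      rw [Pi.single_eq_same, Pi.single_eq_same]
      rfl
    · rw [Pi.single_eq_of_ne hj, Pi.single_eq_of_ne hj]
      rfl
  rw [h, LinearMap.trace_comp_comm']
  have h2 : ((cp (mulI (S l.1).T) * (S l.1).B.pr l.2) ∘ₗ LinearMap.proj l.1) ∘ₗ
      LinearMap.single ℂ (fun j => ((S j).T.V →ₗ[ℝ] ℂ)) l.1 =
      cp (mulI (S l.1).T) * (S l.1).B.pr l.2 := by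
    refine LinearMap.ext fun a => ?_
    show (cp (mulI (S l.1).T) * (S l.1).B.pr l.2) ((Pi.single l.1 a : VL S) l.1) = _
    rw [Pi.single_eq_same]
  rw [h2, trace_cp_pr]
  rfl

lemma eL_trace [Fintype J] (S : J → Tp X) (l : Lb S) :
    LinearMap.trace ℂ _ (eL S l) = ((S l.1).r : ℂ) := by
  classical
  have : ∀ j, FiniteDimensional ℂ ((S j).T.V →ₗ[ℝ] ℂ) := fun j =>
    Module.Basis.finiteDimensional_of_finite (S j).B.b
  have h : eL S l = LinearMap.single ℂ (fun j => ((S j).T.V →ₗ[ℝ] ℂ)) l.1 ∘ₗ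
      ((S l.1).B.pr l.2 ∘ₗ LinearMap.proj l.1) := rfl
  rw [h, LinearMap.trace_comp_comm']
  have h2 : ((S l.1).B.pr l.2 ∘ₗ LinearMap.proj l.1) ∘ₗ
      LinearMap.single ℂ (fun j => ((S j).T.V →ₗ[ℝ] ℂ)) l.1 = (S l.1).B.pr l.2 := by
    refine LinearMap.ext fun a => ?_
    show (S l.1).B.pr l.2 ((Pi.single l.1 a : VL S) l.1) = _
    rw [Pi.single_eq_same]
  rw [h2, trace_pr]

/-! ### the algebra `C` -/

section alg

variable [Fintype J] {S : J → Tp X}
  {f : ∀ j, LinearMap.BilinForm ℂ ((S j).T.V →ₗ[ℝ] ℂ)}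

lemma FRM_apply (a b : VL S) : FRM S f a b = ∑ j, f j (a j) (b j) := by
  rw [FRM, LinearMap.sum_apply, LinearMap.sum_apply]
  rfl

open Classical in
lemma FRM_single_left (j : J) (u : (S j).T.V →ₗ[ℝ] ℂ) (b : VL S) :
    FRM S f (Pi.single j u) b = f j u (b j) := by
  rw [FRM_apply, Finset.sum_eq_single j]
  · rw [Pi.single_eq_same]
  · intro k _ hk
    rw [Pi.single_eq_of_ne hk, map_zero, LinearMap.zero_apply]
  · intro h
    exact absurd (Finset.mem_univ _) h

open Classical in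
lemma FRM_single_right (j : J) (u : (S j).T.V →ₗ[ℝ] ℂ) (a : VL S) :
    FRM S f a (Pi.single j u) = f j (a j) u := by
  rw [FRM_apply, Finset.sum_eq_single j]
  · rw [Pi.single_eq_same]
  · intro k _ hk
    rw [Pi.single_eq_of_ne hk, map_zero]
  · intro h
    exact absurd (Finset.mem_univ _) h

lemma FRM_sym (hf : ∀ j, IsFrm (S j) (f j)) (a b : VL S) : FRM S f a b = (-1) * FRM S f b a := by
  rw [FRM_apply, FRM_apply, Finset.mul_sum]
  refine Finset.sum_congr rfl fun j _ => ?_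
  rw [(hf j).alt]
  ring

lemma FRM_nd (hf : ∀ j, IsFrm (S j) (f j)) (a : VL S) (h : ∀ b, FRM S f a b = 0) : a = 0 := by
  classical
  funext j
  refine (hf j).nd (a j) fun b => ?_
  rw [← FRM_single_right]
  exact h _

lemma FRM_eL (hf : ∀ j, IsFrm (S j) (f j)) (l : Lb S) (a b : VL S) :
    FRM S f (eL S l a) b = FRM S f a (eL S ⟨l.1, gl X.c l.2⟩ b) := by
  classical
  rw [eL_apply, eL_apply, FRM_single_left, FRM_single_right, (hf l.1).pr]

lemma comb_mul (hS1 : ∀ l, eL S l * eL S l = eL S l)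
    (hS2 : ∀ l l', l ≠ l' → eL S l * eL S l' = 0) (c d : Lb S → ℂ) :
    (∑ l, c l • eL S l) * (∑ l, d l • eL S l) = ∑ l, (c l * d l) • eL S l := by
  rw [Finset.sum_mul]
  refine Finset.sum_congr rfl fun l _ => ?_
  rw [Finset.mul_sum, Finset.sum_eq_single l]
  · rw [smul_mul_assoc, mul_smul_comm, hS1, smul_smul]
  · intro l' _ hl
    rw [smul_mul_assoc, mul_smul_comm, hS2 l l' (Ne.symm hl), smul_zero, smul_zero]
  · intro h
    exact absurd (Finset.mem_univ _) h

lemma comb_eL (hS1 : ∀ l, eL S l * eL S l = eL S l)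
    (hS2 : ∀ l l', l ≠ l' → eL S l * eL S l' = 0) (c : Lb S → ℂ) (l : Lb S) :
    (∑ l, c l • eL S l) * eL S l = c l • eL S l := by
  rw [Finset.sum_mul, Finset.sum_eq_single l]
  · rw [smul_mul_assoc, hS1]
  · intro l' _ hl
    rw [smul_mul_assoc, hS2 l' l hl, smul_zero]
  · intro h
    exact absurd (Finset.mem_univ _) h

variable {C : Subalgebra ℂ (Module.End ℂ (VL S))} (hC : (C : Set _) = CS S)

include hC

lemma mem_C {c : Module.End ℂ (VL S)} : c ∈ C ↔ ∃ d : Lb S → ℂ, c = ∑ l, d l • eL S l := by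
  rw [← SetLike.mem_coe, hC]
  exact Iff.rfl

lemma eL_mem (l : Lb S) : eL S l ∈ C := by
  classical
  rw [mem_C hC]
  refine ⟨fun l' => if l' = l then 1 else 0, ?_⟩
  rw [Finset.sum_eq_single l]
  · beta_reduce
    rw [if_pos rfl, one_smul]
  · intro l' _ hl
    beta_reduce
    rw [if_neg hl, zero_smul]
  · intro h
    exact absurd (Finset.mem_univ _) h

lemma regC (hS1 : ∀ l, eL S l * eL S l = eL S l)
    (hS2 : ∀ l l', l ≠ l' → eL S l * eL S l' = 0) : RegC C := by
  intro c hc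
  obtain ⟨d, rfl⟩ := (mem_C hC).1 hc
  refine ⟨∑ l, (d l)⁻¹ • eL S l, (mem_C hC).2 ⟨_, rfl⟩, ?_⟩
  rw [comb_mul hS1 hS2, comb_mul hS1 hS2]
  refine Finset.sum_congr rfl fun l _ => ?_
  by_cases h : d l = 0
  · rw [h]
    simp
  · rw [mul_inv_cancel₀ h, one_mul]

lemma adjC (hf : ∀ j, IsFrm (S j) (f j)) : AdjCl (FRM S f) C := by
  intro c hc
  obtain ⟨d, rfl⟩ := (mem_C hC).1 hc
  refine ⟨∑ l : Lb S, d l • eL S ⟨l.1, gl X.c l.2⟩, Subalgebra.sum_mem _ fun l _ =>
    Subalgebra.smul_mem _ (eL_mem hC _) _, fun x y => ?_⟩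
  rw [LinearMap.sum_apply, LinearMap.sum_apply, map_sum, map_sum, LinearMap.sum_apply]
  refine Finset.sum_congr rfl fun l _ => ?_
  rw [LinearMap.smul_apply, LinearMap.smul_apply, map_smul, map_smul, LinearMap.smul_apply,
    FRM_eL hf]

lemma YJ_inL (hf : ∀ j, IsFrm (S j) (f j)) : InL (FRM S f) C (YJ S) := by
  refine ⟨fun c hc => ?_, fun x y => ?_⟩
  · obtain ⟨d, rfl⟩ := (mem_C hC).1 hc
    rw [Finset.mul_sum, Finset.sum_mul]
    refine Finset.sum_congr rfl fun l _ => ?_
    rw [mul_smul_comm, smul_mul_assoc, YJ_comm]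
  · rw [FRM_apply, FRM_apply, ← Finset.sum_add_distrib]
    refine Finset.sum_eq_zero fun j _ => ?_
    refine (hf j).skew (mulI (S j).T) (fun u v => ?_) (x j) (y j)
    show (S j).R (Complex.I • u) v + (S j).R u (Complex.I • v) = 0
    have h := (S j).herm u (Complex.I • v)
    rw [smul_smul, Complex.I_mul_I, neg_smul, one_smul, map_neg] at h
    linarith

end alg

end Jz_aux

open Jz_aux in
theorem tJz : S_Jz := by
  classical
  intro hSub hKd hCen X J _ S f hf q F hKR hF l a hne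
  obtain ⟨hS1, hS2, hS3, C, hC⟩ := hSub X J S
  have hfd : ∀ j, FiniteDimensional ℂ ((S j).T.V →ₗ[ℝ] ℂ) := fun j =>
    Module.Basis.finiteDimensional_of_finite (S j).B.b
  have hfdV : FiniteDimensional ℂ (VL S) := inferInstance
  have hreg : RegC C := regC hC hS1 hS2
  have hadj : AdjCl (FRM S f) C := adjC hC hf
  obtain ⟨N, ε, hM⟩ := exists_min C hreg
  obtain ⟨r, u, v', hA⟩ := exists_atoms hreg hM
  have hP : Perf (FRM S f) C := perf_of (-1) (by norm_num) (FRM_sym hf) (FRM_nd hf) hadj hA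
    (hCen X J S f hf C hC)
  have hY := hP (YJ S) (YJ_inL hC hf)
  rw [Submodule.span_union, Submodule.mem_sup] at hY
  obtain ⟨K, hK, z, hz, hKz⟩ := hY
  -- the commutators
  have hK1 : (∀ a : Fin q → VL S, ∑ p, F (Function.update a p (K (a p))) = 0) ∧
      ∀ l, LinearMap.trace ℂ _ (K * eL S l) = 0 := by
    refine Submodule.span_induction (p := fun K _ =>
      (∀ a : Fin q → VL S, ∑ p, F (Function.update a p (K (a p))) = 0) ∧
      ∀ l, LinearMap.trace ℂ _ (K * eL S l) = 0) ?_ ?_ ?_ ?_ hK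
    · rintro M ⟨P, Q, hP', hQ', rfl⟩
      refine ⟨hKd X J S f hf C hC q F hKR P Q hP' hQ', fun l => ?_⟩
      have e1 : P * eL S l = eL S l * P := hP'.1 _ (eL_mem hC l)
      rw [sub_mul, map_sub, mul_assoc Q P, e1, ← mul_assoc Q, LinearMap.trace_mul_comm _ (Q * eL S l),
        ← mul_assoc, sub_self]
    · refine ⟨fun a => Finset.sum_eq_zero fun p _ => ?_, fun l => ?_⟩
      · rw [LinearMap.zero_apply]
        exact F.map_update_zero a p
      · rw [zero_mul, map_zero]
    · rintro M M' _ _ ⟨h1, h2⟩ ⟨h3, h4⟩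
      refine ⟨fun a => ?_, fun l => ?_⟩
      · have h5 : ∑ p, F (Function.update a p ((M + M') (a p))) =
            ∑ p, F (Function.update a p (M (a p))) + ∑ p, F (Function.update a p (M' (a p))) := by
          rw [← Finset.sum_add_distrib]
          refine Finset.sum_congr rfl fun p _ => ?_
          rw [LinearMap.add_apply, MultilinearMap.map_update_add]
        rw [h5, h1, h3, add_zero]
      · rw [add_mul, map_add, h2, h4, add_zero]
    · rintro t M _ ⟨h1, h2⟩
      refine ⟨fun a => ?_, fun l => ?_⟩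
      · have h5 : ∑ p, F (Function.update a p ((t • M) (a p))) =
            t • ∑ p, F (Function.update a p (M (a p))) := by
          rw [Finset.smul_sum]
          refine Finset.sum_congr rfl fun p _ => ?_
          rw [LinearMap.smul_apply, MultilinearMap.map_update_smul]
        rw [h5, h1, smul_zero]
      · rw [smul_mul_assoc, map_smul, h2, smul_zero]
  -- the central part
  have hzC : z ∈ C := by
    have h : Submodule.span ℂ {z | InZ (FRM S f) C z} ≤ Subalgebra.toSubmodule C := by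
      rw [Submodule.span_le]
      intro w hw
      exact hw.1
    exact h hz
  obtain ⟨d, hd⟩ := (mem_C hC).1 hzC
  have hze : ∀ l, z * eL S l = d l • eL S l := fun l => by rw [hd, comb_eL hS1 hS2]
  have hδ : ∀ l, (S l.1).B.δ l.2 = d l * ((S l.1).r : ℂ) := by
    intro l
    rw [← YJ_trace, ← hKz, add_mul, map_add, hK1.2, zero_add, hze, map_smul, eL_trace, smul_eq_mul]
  -- the evaluation
  obtain ⟨a', ha'⟩ : ∃ a' : Fin q → VL S, a' = fun p => eL S (l p) (a p) := ⟨_, rfl⟩
  rw [← ha'] at hne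
  have hza : ∀ p, z (a' p) = d (l p) • a' p := by
    intro p
    have h := LinearMap.congr_fun (hze (l p)) (a p)
    rw [ha']
    exact h
  have hsum : ∑ p, F (Function.update a' p (z (a' p))) = 0 := by
    have h1 := hF a'
    have h2 := hK1.1 a'
    have h3 : ∀ p, F (Function.update a' p fun j => a' p j ∘ₗ mulI (S j).T) =
        F (Function.update a' p (K (a' p))) + F (Function.update a' p (z (a' p))) := by
      intro p
      rw [← MultilinearMap.map_update_add, ← LinearMap.add_apply, hKz]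
      rfl
    rw [Finset.sum_congr rfl fun p _ => h3 p, Finset.sum_add_distrib, h2, zero_add] at h1
    exact h1
  have hdsum : ∑ p, d (l p) = 0 := by
    have h4 : ∀ p, F (Function.update a' p (z (a' p))) = d (l p) * F a' := by
      intro p
      rw [hza, MultilinearMap.map_update_smul, Function.update_eq_self, smul_eq_mul]
    rw [Finset.sum_congr rfl fun p _ => h4 p, ← Finset.sum_mul] at hsum
    exact (mul_eq_zero.1 hsum).resolve_right hne
  rw [← hdsum]
  refine Finset.sum_congr rfl fun p _ => ?_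
  have hr : ((S (l p).1).r : ℂ) ≠ 0 := by
    intro h0
    apply hne
    refine F.map_coord_zero p ?_
    have h5 : (S (l p).1).r = 0 := by exact_mod_cast h0
    rw [ha']
    show eL S (l p) (a p) = 0
    rw [eL_apply, pr_apply]
    have h6 : IsEmpty (Fin (S (l p).1).r) := by
      rw [h5]
      infer_instance
    rw [Finset.univ_eq_empty, Finset.sum_empty, Pi.single_zero]
  rw [hδ, mul_div_assoc, div_self hr, mul_one]

end SE
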